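import Mathlib

/-! Elementary lemmas: dyadic blocks, Chebyshev's inequality, counting cells, numerics. -/

namespace Pool.Agent.P.MP_746f10_nt.PV

open Finset

lemma harm {A B : ℕ} (hA : 1 ≤ A) (h : A ≤ B) :
    ∑ n ∈ Ico A B, 1 / (n : ℝ) ≤ 1 / A - 1 / B + (Real.log B - Real.log A) := by
  induction B, h using Nat.le_induction with
  | base => simp
  | succ B hB ih =>
    rw [sum_Ico_succ_top hB]
    have h0 : (0 : ℝ) < B := by exact_mod_cast (by omega : 0 < B)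
    have h1 := Real.log_le_sub_one_of_pos (show (0 : ℝ) < B / (B + 1) by positivity)
    rw [Real.log_div h0.ne' (by positivity)] at h1
    have h2 : (B : ℝ) / (B + 1) - 1 = -(1 / (B + 1)) := by field_simp; ring
    push_cast
    linarith

lemma harm2 {A : ℕ} (hA : 1 ≤ A) (j : ℕ) :
    ∑ n ∈ Ico A (A * 2 ^ j), 1 / (n : ℝ) ≤ 1 + j * Real.log 2 := by
  have h0 : (1 : ℝ) ≤ A := by exact_mod_cast hA
  have h1 := harm hA (Nat.le_mul_of_pos_right A (by positivity : 0 < 2 ^ j))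
  push_cast at h1
  rw [Real.log_mul (by linarith) (by positivity), Real.log_pow] at h1
  have h2 : 1 / (A : ℝ) ≤ 1 := by rw [div_le_one (by linarith)]; exact h0
  have h3 : 0 ≤ 1 / ((A : ℝ) * 2 ^ j) := by positivity
  linarith

lemma dy {A : ℕ} (hA : 1 ≤ A) {f : ℕ → ℝ} (hf : ∀ n, 0 ≤ f n) {B : ℝ} (j : ℕ)
    (h : ∀ i < j, ∑ n ∈ Ico (A * 2 ^ i) (2 * (A * 2 ^ i)), f n ≤ (A * 2 ^ i : ℕ) * B) :
    ∑ n ∈ Ico A (A * 2 ^ j), 1 / (n : ℝ) * f n ≤ j * B := by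
  induction j with
  | zero => simp
  | succ j ih =>
    have h1 : A ≤ A * 2 ^ j := Nat.le_mul_of_pos_right A (by positivity)
    have e : A * 2 ^ (j + 1) = 2 * (A * 2 ^ j) := by ring
    rw [e, ← sum_Ico_consecutive _ h1 (by omega)]
    have h2 := ih fun i hi => h i (by omega)
    have h3 := h j (by omega)
    have h0 : (0 : ℝ) < (A * 2 ^ j : ℕ) := by exact_mod_cast (by omega : 0 < A * 2 ^ j)
    have h4 : ∑ n ∈ Ico (A * 2 ^ j) (2 * (A * 2 ^ j)), 1 / (n : ℝ) * f n ≤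
        1 / ((A * 2 ^ j : ℕ) : ℝ) * ∑ n ∈ Ico (A * 2 ^ j) (2 * (A * 2 ^ j)), f n := by
      rw [mul_sum]
      exact sum_le_sum fun n hn => mul_le_mul_of_nonneg_right
        (one_div_le_one_div_of_le h0 (by exact_mod_cast (mem_Ico.1 hn).1)) (hf n)
    have h5 : 1 / ((A * 2 ^ j : ℕ) : ℝ) * ∑ n ∈ Ico (A * 2 ^ j) (2 * (A * 2 ^ j)), f n ≤ B := by
      rw [one_div_mul_eq_div, div_le_iff₀ h0]; linarith
    push_cast at h4 h5 ⊢
    linarith

lemma bad_abs {M K : ℕ} {Ω : Finset ℕ} {Wr Wu : ℕ → ℝ} {Y : Fin M × Fin K → ℕ → ℝ} {c x : ℝ}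
    (good : ℕ → Prop) [DecidablePred good] {sq : ℕ → Prop} {_ : DecidablePred sq} (h0 : ∀ n, 0 ≤ Wr n) (h1 : ∀ n, Wr n ≤ Wu n) (hc : 0 < c)
    (hv : ∀ i, ∑ n ∈ Ω, (∑ s, Y (i, s) n - c) ^ 2 * Wr n ≤ 12 * x * c ^ 2)
    (ht : ∑ n ∈ Ω, Wu n - ∑ n ∈ Ω, Wr n ≤ 4 * x) (hs : ∑ n ∈ Ω.filter sq, Wr n ≤ x)
    (h : ∀ n ∈ Ω, Wr n ≠ 0 → ¬ sq n → ¬ good n → ∃ i, ∀ s, Y (i, s) n ≤ 0) :
    ∑ n ∈ Ω, (if good n then 0 else Wu n) ≤ (12 * M + 5) * x := by
  have a1 : ∑ n ∈ Ω, (if good n then 0 else Wu n) ≤ ∑ n ∈ Ω, ((Wu n - Wr n) +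
      (if sq n then Wr n else 0) + ∑ i, (∑ s, Y (i, s) n - c) ^ 2 * Wr n / c ^ 2) := by
    refine sum_le_sum fun n hn => ?_
    have b0 := h0 n
    have b1 := h1 n
    have b2 : ∀ i, 0 ≤ (∑ s, Y (i, s) n - c) ^ 2 * Wr n / c ^ 2 := fun i => by positivity
    have b3 := sum_nonneg fun i (_ : i ∈ univ) => b2 i
    by_cases g : good n
    · rw [if_pos g]; split_ifs <;> linarith
    rw [if_neg g]
    by_cases g2 : sq n
    · rw [if_pos g2]; linarith
    rw [if_neg g2]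
    by_cases g3 : Wr n = 0
    · linarith
    obtain ⟨i, hi⟩ := h n hn g3 g2 g
    have b4 : ∑ s, Y (i, s) n ≤ 0 := sum_nonpos fun s _ => hi s
    have b5 : Wr n ≤ (∑ s, Y (i, s) n - c) ^ 2 * Wr n / c ^ 2 := by
      rw [le_div_iff₀ (by positivity), mul_comm]
      exact mul_le_mul_of_nonneg_right (by nlinarith) b0
    have b6 := single_le_sum (fun i _ => b2 i) (mem_univ i)
    linarith
  rw [sum_add_distrib, sum_add_distrib, sum_sub_distrib, ← sum_filter, sum_comm] at a1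
  have a2 : ∑ i : Fin M, ∑ n ∈ Ω, (∑ s, Y (i, s) n - c) ^ 2 * Wr n / c ^ 2 ≤ ∑ _i : Fin M, 12 * x :=
    sum_le_sum fun i _ => by rw [← sum_div, div_le_iff₀ (by positivity)]; exact hv i
  rw [sum_const, card_univ, Fintype.card_fin, nsmul_eq_mul] at a2
  linarith

lemma cnt {m M K : ℕ} (J : Finset (Fin M)) {Ω : Finset ℕ} {W : ℕ → ℝ}
    {P : Fin M × Fin K → ℕ → Prop} {Y : Fin M × Fin K → ℕ → ℝ} {c L tot bad var : ℝ}
    [∀ x n, Decidable (P x n)] (good : ℕ → Prop) [DecidablePred good] (hW : ∀ n, 0 ≤ W n)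
    (hc : 0 < c) (hL : 0 < L)
    (hY : ∀ x, ∀ n ∈ Ω, (if P x n then 1 else 0) ≤ Y x n)
    (hg : ∀ n ∈ Ω, good n → ∀ I ⊆ J, (∀ i ∈ I, ∃ s, P (i, s) n) → I.card ≤ m)
    (h1 : ∑ n ∈ Ω, W n ≤ tot) (h2 : ∑ n ∈ Ω, (if good n then 0 else W n) ≤ bad)
    (h3 : ∀ i, ∑ n ∈ Ω, (∑ s, Y (i, s) n - c) ^ 2 * W n ≤ var * c ^ 2) (hv : 0 ≤ var) :
    ∑ x ∈ J ×ˢ (univ : Finset (Fin K)), ∑ n ∈ Ω, (if P x n then 1 else 0) * W n ≤
      c * ((m + M / (4 * L)) * tot + M * bad + M * L * var) := by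
  have hJ : (J.card : ℝ) ≤ M := by exact_mod_cast (card_le_univ J).trans_eq (by simp)
  have a1 : ∀ n ∈ Ω, ∑ x ∈ J ×ˢ (univ : Finset (Fin K)), (if P x n then 1 else 0) * W n ≤
      c * ((m + M / (4 * L)) * W n + M * (if good n then 0 else W n)) +
        ∑ i ∈ J, L / c * ((∑ s, Y (i, s) n - c) ^ 2 * W n) := by
    intro n hn
    have b0 := hW n
    have b1 : ∀ i ∈ J, ∑ s, (if P (i, s) n then (1 : ℝ) else 0) ≤
        c * (if ∃ s, P (i, s) n then 1 else 0) + c / (4 * L) + L / c * (∑ s, Y (i, s) n - c) ^ 2 := by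
      intro i _
      by_cases g : ∃ s, P (i, s) n
      · rw [if_pos g]
        refine (sum_le_sum fun s _ => hY (i, s) n hn).trans ?_
        generalize ∑ s, Y (i, s) n = y
        have e : c / (4 * L) + L / c * (y - c) ^ 2 - (y - c) = L / c * (y - c - c / (2 * L)) ^ 2 := by
          field_simp; ring
        have : 0 ≤ L / c * (y - c - c / (2 * L)) ^ 2 := by positivity
        linarith
      · rw [if_neg g, sum_eq_zero fun s _ => if_neg fun h => g ⟨s, h⟩]; positivity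
    have b2 := sum_le_sum b1
    rw [sum_add_distrib, sum_add_distrib, ← mul_sum, sum_boole, sum_const, nsmul_eq_mul] at b2
    have b3 : ((J.filter fun i => ∃ s, P (i, s) n).card : ℝ) * W n ≤
        m * W n + M * (if good n then 0 else W n) := by
      by_cases g : good n
      · rw [if_pos g, mul_zero, add_zero]
        exact mul_le_mul_of_nonneg_right (by
          exact_mod_cast hg n hn g _ (filter_subset _ _) fun i hi => (mem_filter.1 hi).2) b0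
      · rw [if_neg g]
        refine le_add_of_nonneg_of_le (by positivity) (mul_le_mul_of_nonneg_right (le_trans ?_ hJ) b0)
        exact_mod_cast card_filter_le _ _
    rw [sum_product, ← sum_congr rfl fun i _ => sum_mul .., ← sum_mul]
    have b4 := mul_le_mul_of_nonneg_right b2 b0
    have b5 := mul_le_mul_of_nonneg_left b3 hc.le
    have b6 : J.card * (c / (4 * L)) * W n ≤ M * (c / (4 * L)) * W n := by gcongr
    have e : ∑ i ∈ J, L / c * ((∑ s, Y (i, s) n - c) ^ 2 * W n) =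
        (∑ i ∈ J, L / c * (∑ s, Y (i, s) n - c) ^ 2) * W n := by
      rw [sum_mul]; exact sum_congr rfl fun i _ => by ring
    have e2 : c * (M / (4 * L) * W n) = M * (c / (4 * L)) * W n := by ring
    rw [e]
    nlinarith
  rw [sum_comm]
  refine (sum_le_sum a1).trans ?_
  rw [sum_add_distrib, ← mul_sum, sum_add_distrib, ← mul_sum, ← mul_sum, sum_comm]
  have a2 : ∑ i ∈ J, ∑ n ∈ Ω, L / c * ((∑ s, Y (i, s) n - c) ^ 2 * W n) ≤
      ∑ _i ∈ J, c * (L * var) := sum_le_sum fun i _ => by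
    rw [← mul_sum]
    refine (mul_le_mul_of_nonneg_left (h3 i) (by positivity)).trans (le_of_eq ?_)
    field_simp
  rw [sum_const, nsmul_eq_mul] at a2
  have a3 : J.card * (c * (L * var)) ≤ M * (c * (L * var)) := by gcongr
  have a4 : (m + M / (4 * L)) * ∑ n ∈ Ω, W n ≤ (m + M / (4 * L)) * tot := by gcongr
  have a5 := mul_le_mul_of_nonneg_left h2 (Nat.cast_nonneg (α := ℝ) M)
  have a6 := mul_le_mul_of_nonneg_left (add_le_add a4 a5) hc.le
  nlinarith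

lemma numV {m j M t : ℝ} (hm : 0 ≤ m) (h1 : 183 * m ≤ 50 * j) (hj : 1 ≤ j) (hM : j ≤ M)
    (t0 : 0 < t) (ht : 10 ^ 11 * M ^ 2 * t ≤ 1) :
    2000 * (2001 / 1095000) * ((m + 1 / 40000) * ((1 / 2 + t) * (1 + 2 * t)) +
      M * (2 * ((12 * M + 5) * t)) + M * (10000 * M) * (2 * (12 * t))) <
      j * ((1 - t) ^ 2 * ((1 - 1 / 2000) * (1 / 2 - 4 / 100000 - t)) - (8 / 100000 + t)) := by
  have a0 : M ≤ M ^ 2 := by nlinarith
  have a1 : M * t ≤ M ^ 2 * t := by gcongr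
  have a2 : t ≤ M * t := le_mul_of_one_le_left t0.le (by linarith)
  have a3 : t ≤ 1 / 10 ^ 11 := by linarith
  have a4 : (1 / 2 + t) * (1 + 2 * t) ≤ 1 / 2 + 1 / 10 ^ 10 := by nlinarith
  have a5 : (m + 1 / 40000) * ((1 / 2 + t) * (1 + 2 * t)) ≤ (m + 1 / 40000) * (1 / 2 + 1 / 10 ^ 10) := by
    gcongr
  have a6 : 1 - 2 * t ≤ (1 - t) ^ 2 := by nlinarith
  have a7 : (1 - 1 / 10 ^ 10) * (49970 / 100000) ≤
      (1 - t) ^ 2 * ((1 - 1 / 2000) * (1 / 2 - 4 / 100000 - t)) :=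
    mul_le_mul (by linarith) (by linarith) (by norm_num) (sq_nonneg _)
  have a8 : j * (4996 / 10000) ≤
      j * ((1 - t) ^ 2 * ((1 - 1 / 2000) * (1 / 2 - 4 / 100000 - t)) - (8 / 100000 + t)) :=
    mul_le_mul_of_nonneg_left (by linarith) (by linarith)
  nlinarith

end Pool.Agent.P.MP_746f10_nt.PV
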