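import Pool.Agent.P.MP_746f10_nt.PV.Defs
import Pool.Agent.P.MP_0ad054_nt.Chen.Dim

/-! The constant of the linear sieve, from the parity example. -/

namespace Pool.Agent.P.MP_746f10_nt.PV

open Finset Pool.Agent.P.MP_0ad054_nt.Sun

namespace ConstP

theorem abs_lv (n : ℕ) : |lv n| = 1 := by
  unfold lv
  rw [abs_pow, abs_neg, abs_one, one_pow]

theorem one_add_lv (n : ℕ) : 0 ≤ 1 + lv n := by
  have := (abs_le.1 (abs_lv n).le).1
  linarith

theorem lv_mul {a b : ℕ} (ha : a ≠ 0) (hb : b ≠ 0) : lv (a * b) = lv a * lv b := by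
  unfold lv
  rw [ArithmeticFunction.cardFactors_mul ha hb, pow_add]

/-- the primes above a fixed bound form a system of dimension one -/
theorem dim2 {η : ℝ} (hη : 0 < η) :
    ∃ w0 : ℕ, ∀ Z : ℕ, P2.Dim2 η (PP w0 Z) fun p => 1 / (p : ℝ) := by
  obtain ⟨y0, h3, h⟩ := Pool.Agent.P.MP_0ad054_nt.Chen.dim η hη
  refine ⟨⌈y0⌉₊, fun Z => ⟨fun l hl => ?_, fun w z hw hwz => ?_⟩⟩
  · have h2 := PP_two hl
    refine ⟨(PP_prime hl).two_le, by positivity, one_div_le_one_div_of_le (by norm_num) h2⟩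
  have hlw : 0 < Real.log w := Real.log_pos hw
  have hlz : Real.log w ≤ Real.log z := Real.log_le_log (by linarith) hwz
  have hy : y0 ≤ (⌈y0⌉₊ : ℝ) := Nat.le_ceil _
  by_cases hz : z < y0
  · rw [filter_false_of_mem, prod_empty, le_div_iff₀ hlw]
    · nlinarith
    · rintro l hl ⟨-, h2⟩
      have h1 : ((⌈y0⌉₊ : ℕ) : ℝ) < l := by exact_mod_cast (mem_PP.1 hl).1
      linarith
  have hz' : max w y0 ≤ z := max_le hwz (not_lt.1 hz)
  have h1 := (h (max w y0) z (le_max_right _ _) hz').1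
  have hm : Real.log w ≤ Real.log (max w y0) := Real.log_le_log (by linarith) (le_max_left _ _)
  have hfac : ∀ l ∈ Pool.Agent.P.MP_0ad054_nt.Chen.prs (max w y0) z,
      1 ≤ (1 - 1 / (l : ℝ))⁻¹ ∧
        (1 - 1 / (l : ℝ))⁻¹ ≤ (1 - Pool.Agent.P.MP_0ad054_nt.Chen.gg l)⁻¹ := by
    intro l hl
    have h4 := (mem_Ioc.1 (mem_filter.1 hl).1).1
    have h5 : 3 ≤ ⌊max w y0⌋₊ := Nat.le_floor (by exact_mod_cast h3.trans (le_max_right _ _))
    have h6 : (4 : ℝ) ≤ l := by exact_mod_cast (by omega : 4 ≤ l)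
    have h7 : 0 < 1 / (l : ℝ) := by positivity
    have h8 : 1 / (l : ℝ) ≤ 1 / ((l : ℝ) - 1) := one_div_le_one_div_of_le (by linarith) (by linarith)
    have h9 : 1 / ((l : ℝ) - 1) ≤ 1 / 3 := one_div_le_one_div_of_le (by norm_num) (by linarith)
    unfold Pool.Agent.P.MP_0ad054_nt.Chen.gg
    exact ⟨(one_le_inv₀ (by linarith)).2 (by linarith), inv_anti₀ (by linarith) (by linarith)⟩
  have hsub : (PP ⌈y0⌉₊ Z).filter (fun l : ℕ => w < l ∧ (l : ℝ) ≤ z) ⊆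
      Pool.Agent.P.MP_0ad054_nt.Chen.prs (max w y0) z := by
    intro l hl
    obtain ⟨a1, a2, a3⟩ := mem_filter.1 hl
    have a4 : ((⌈y0⌉₊ : ℕ) : ℝ) < l := by exact_mod_cast (mem_PP.1 a1).1
    refine mem_filter.2 ⟨mem_Ioc.2 ⟨?_, Nat.le_floor a3⟩, PP_prime a1⟩
    exact (Nat.floor_lt (by linarith [le_max_left w y0])).2 (max_lt a2 (by linarith))
  calc _ ≤ ∏ l ∈ Pool.Agent.P.MP_0ad054_nt.Chen.prs (max w y0) z, (1 - 1 / (l : ℝ))⁻¹ :=
        prod_le_prod_of_subset_of_one_le hsub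
          (fun l hl => zero_le_one.trans (hfac l (hsub hl)).1) fun l hl _ => (hfac l hl).1
    _ ≤ _ := prod_le_prod (fun l hl => zero_le_one.trans (hfac l hl).1) fun l hl => (hfac l hl).2
    _ ≤ (1 + η) * Real.log z / Real.log (max w y0) := h1
    _ ≤ _ := div_le_div_of_nonneg_left (mul_nonneg (by linarith) (by linarith)) hlw hm

/-- the weighted count of the multiples of `d` -/
theorem cnt {C : ℝ} (hC0 : 0 < C)
    (hC : ∀ y : ℕ, 2 ≤ y → |∑ n ∈ Icc 1 y, lv n| ≤ C * y / Real.log y ^ 3)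
    {d u x : ℕ} (hd : 1 ≤ d) (hu : 2 ≤ u) (hx : d * u ≤ x) :
    |∑ n ∈ Icc 1 x, (if d ∣ n then (1 : ℝ) else 0) * (1 + lv n) - x * (1 / d)| ≤
      1 + C / Real.log u ^ 3 * (x * (1 / d)) := by
  have hd0 : (0 : ℝ) < d := by exact_mod_cast hd
  have e1 : (Icc 1 x).filter (fun n => d ∣ n) = (Icc 1 (x / d)).image fun m => d * m := by
    ext n
    simp only [mem_filter, mem_Icc, mem_image]
    constructor
    · rintro ⟨⟨h1, h2⟩, m, rfl⟩
      refine ⟨m, ⟨Nat.pos_of_mul_pos_left h1, ?_⟩, rfl⟩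
      exact (Nat.le_div_iff_mul_le hd).2 (by rwa [mul_comm])
    · rintro ⟨m, ⟨h1, h2⟩, rfl⟩
      refine ⟨⟨Nat.mul_pos hd h1, ?_⟩, dvd_mul_right _ _⟩
      rw [mul_comm]
      exact (Nat.le_div_iff_mul_le hd).1 h2
  have e2 : ∑ n ∈ Icc 1 x, (if d ∣ n then (1 : ℝ) else 0) * (1 + lv n) =
      ((x / d : ℕ) : ℝ) + lv d * ∑ m ∈ Icc 1 (x / d), lv m := by
    simp only [ite_mul, one_mul, zero_mul]
    rw [← sum_filter, e1, sum_image fun a _ b _ h => Nat.eq_of_mul_eq_mul_left hd h,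
      sum_add_distrib, mul_sum]
    congr 1
    · simp
    · exact sum_congr rfl fun m hm => lv_mul (by omega) (by have := (mem_Icc.1 hm).1; omega)
  have huy : u ≤ x / d := (Nat.le_div_iff_mul_le hd).2 (by rwa [mul_comm])
  have h1 := hC (x / d) (hu.trans huy)
  have h2 : ((x / d : ℕ) : ℝ) ≤ x * (1 / d) := by rw [mul_one_div]; exact Nat.cast_div_le
  have h3 : (x : ℝ) * (1 / d) ≤ ((x / d : ℕ) : ℝ) + 1 := by
    rw [mul_one_div, div_le_iff₀ hd0]
    have : x ≤ (x / d + 1) * d := by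
      have := Nat.lt_div_mul_add (a := x) hd
      nlinarith
    exact_mod_cast this
  have hu1 : (1 : ℝ) < u := by exact_mod_cast (by omega : 1 < u)
  have hlu : 0 < Real.log u := Real.log_pos hu1
  have h4 : Real.log u ≤ Real.log ((x / d : ℕ) : ℝ) :=
    Real.log_le_log (by linarith) (by exact_mod_cast huy)
  have h5 : C * ((x / d : ℕ) : ℝ) / Real.log ((x / d : ℕ) : ℝ) ^ 3 ≤
      C / Real.log u ^ 3 * (x * (1 / d)) := by
    rw [div_mul_eq_mul_div]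
    have : (0 : ℝ) ≤ ((x / d : ℕ) : ℝ) := Nat.cast_nonneg _
    gcongr
  have h6 : |lv d * ∑ m ∈ Icc 1 (x / d), lv m| ≤ C / Real.log u ^ 3 * (x * (1 / d)) := by
    rw [abs_mul, abs_lv, one_mul]
    exact h1.trans h5
  rw [e2, abs_le]
  rw [abs_le] at h6
  constructor <;> linarith [h6.1, h6.2]

theorem prod_le_of_WF {T : Finset ℕ} {D : ℝ} (hD : 1 ≤ D) (hT : ∀ p ∈ T, 1 ≤ p)
    (h : P2.WF T D) : ∏ p ∈ T, (p : ℝ) ≤ D := by
  rcases T.eq_empty_or_nonempty with rfl | hne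
  · simpa using hD
  have hm := T.min'_mem hne
  have e : T.filter (fun q => T.min' hne < q) = T.erase (T.min' hne) := by
    ext q
    simp only [mem_filter, mem_erase]
    exact ⟨fun a => ⟨a.2.ne', a.1⟩, fun a => ⟨a.2, lt_of_le_of_ne (T.min'_le q a.2) a.1.symm⟩⟩
  have h1 := h _ hm
  rw [e] at h1
  rw [← prod_erase_mul T _ hm]
  refine le_trans ?_ h1
  have h2 : (1 : ℝ) ≤ (T.min' hne : ℕ) := by exact_mod_cast hT _ hm
  have h3 : (0 : ℝ) ≤ ∏ q ∈ T.erase (T.min' hne), (q : ℝ) := prod_nonneg fun _ _ => by positivity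
  exact mul_le_mul_of_nonneg_left (by nlinarith) h3

/-- opening the small primes and the sieve -/
theorem expand {w0 z : ℕ} (lam : Finset ℕ → ℝ) (w : ℕ → ℝ) :
    (∏ p ∈ PP 0 w0, (1 - w p)) * Sf (PP w0 z) lam w =
      ∑ E ∈ (PP 0 w0).powerset, ∑ T ∈ (PP w0 z).powerset,
        (-1) ^ E.card * lam T * ∏ p ∈ E ∪ T, w p := by
  have e : ∏ p ∈ PP 0 w0, (1 - w p) = ∑ E ∈ (PP 0 w0).powerset, (-1) ^ E.card * ∏ p ∈ E, w p := by
    simp only [sub_eq_add_neg]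
    rw [prod_one_add]
    exact sum_congr rfl fun E _ => prod_neg _
  rw [e, Sf, sum_mul_sum]
  refine sum_congr rfl fun E hE => sum_congr rfl fun T hT => ?_
  rw [prod_union ((PP_disj 0 w0 z).mono (mem_powerset.1 hE) (mem_powerset.1 hT))]
  ring

/-- the sieve applied to the numbers with an even number of prime factors -/
theorem core {C : ℝ} (hC0 : 0 < C)
    (hC : ∀ y : ℕ, 2 ≤ y → |∑ n ∈ Icc 1 y, lv n| ≤ C * y / Real.log y ^ 3)
    {w0 z u x : ℕ} (hz : w0 ≤ z) (hz2 : 2 ≤ z) (hu : 2 ≤ u)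
    (hx : (∏ p ∈ PP 0 w0, p) * z ^ 4 * u ≤ x) {lam : Finset ℕ → ℝ}
    (hl : P2.IsW2 (-1) (PP w0 z) lam ((z : ℝ) ^ 4)) :
    x * (VV w0 * Sf (PP w0 z) lam fun p => 1 / (p : ℝ)) ≤
      ∑ n ∈ Icc 1 x, ri z n * (1 + lv n) +
        2 ^ (PP 0 w0).card * ((z ^ 4 + C / Real.log u ^ 3 * x) * (CM * Real.log z)) := by
  have hz1 : (1 : ℝ) ≤ z := by exact_mod_cast (by omega : 1 ≤ z)
  have hlu : 0 < Real.log u := Real.log_pos (by exact_mod_cast (by omega : 1 < u))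
  set δ := C / Real.log u ^ 3 with hδ
  have hδ0 : 0 ≤ δ := by positivity
  have up : ∑ n ∈ Icc 1 x, ((∏ p ∈ PP 0 w0, (1 - dv n p)) * Sf (PP w0 z) lam (dv n)) * (1 + lv n) ≤
      ∑ n ∈ Icc 1 x, ri z n * (1 + lv n) := by
    refine sum_le_sum fun n _ => mul_le_mul_of_nonneg_right ?_ (one_add_lv n)
    have h1 := hl.2.2 (dv n) fun l => by unfold dv; split_ifs <;> simp
    rw [← prod_one_sub_dv z n, prod_PP_split (Nat.zero_le w0) hz]
    refine mul_le_mul_of_nonneg_left (by linarith) ?_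
    rw [prod_one_sub_dv]
    exact (ri_bd _ _).1
  have term : ∀ E ∈ (PP 0 w0).powerset, ∀ T ∈ (PP w0 z).powerset,
      x * ((-1) ^ E.card * lam T * ∏ p ∈ E ∪ T, 1 / (p : ℝ)) ≤
        ∑ n ∈ Icc 1 x, ((-1) ^ E.card * lam T * ∏ p ∈ E ∪ T, dv n p) * (1 + lv n) +
          (z ^ 4 + δ * x) * ∏ p ∈ T, 1 / (p : ℝ) := by
    intro E hE T hT
    have hE' := mem_powerset.1 hE
    have hT' := mem_powerset.1 hT
    have hT0 : (0 : ℝ) ≤ ∏ p ∈ T, 1 / (p : ℝ) := prod_nonneg fun _ _ => by positivity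
    by_cases h0 : lam T = 0
    · simp only [h0, mul_zero, zero_mul, sum_const_zero, zero_add]
      positivity
    have hpr : ∀ p ∈ E ∪ T, p.Prime := fun p hp =>
      (mem_union.1 hp).elim (fun h => PP_prime (hE' h)) fun h => PP_prime (hT' h)
    have hdis : Disjoint E T := (PP_disj 0 w0 z).mono hE' hT'
    have hTz := prod_le_of_WF (one_le_pow₀ hz1) (fun p hp => (PP_prime (hT' hp)).one_le)
      (hl.2.1 T hT' h0)
    have hTz' : ∏ p ∈ T, p ≤ z ^ 4 := by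
      rw [← Nat.cast_le (α := ℝ), Nat.cast_prod, Nat.cast_pow]
      exact hTz
    have hEW : ∏ p ∈ E, p ≤ ∏ p ∈ PP 0 w0, p :=
      prod_le_prod_of_subset_of_one_le' hE' fun p hp _ => (PP_prime hp).one_le
    have hd : 1 ≤ ∏ p ∈ E ∪ T, p := prod_pos fun p hp => (hpr p hp).pos
    have hdx : (∏ p ∈ E ∪ T, p) * u ≤ x := by
      rw [prod_union hdis]
      exact (Nat.mul_le_mul_right _ (Nat.mul_le_mul hEW hTz')).trans hx
    have h1 := cnt hC0 hC hd hu hdx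
    have e1 : ∏ p ∈ E ∪ T, 1 / (p : ℝ) = 1 / ((∏ p ∈ E ∪ T, p : ℕ) : ℝ) := by
      rw [prod_div_distrib, prod_const_one, Nat.cast_prod]
    have hTpos : (0 : ℝ) < ∏ p ∈ T, (p : ℝ) :=
      prod_pos fun p hp => by linarith [PP_two (hT' hp)]
    have h2 : 1 ≤ (z : ℝ) ^ 4 * ∏ p ∈ T, 1 / (p : ℝ) := by
      rw [prod_div_distrib, prod_const_one, mul_one_div, one_le_div hTpos]
      exact hTz
    have h3 : ∏ p ∈ E ∪ T, 1 / (p : ℝ) ≤ ∏ p ∈ T, 1 / (p : ℝ) := by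
      rw [prod_union hdis]
      refine mul_le_of_le_one_left hT0 (prod_le_one (fun _ _ => by positivity) fun p hp => ?_)
      rw [div_le_one (by linarith [PP_two (hE' hp)])]
      linarith [PP_two (hE' hp)]
    simp only [prod_dv hpr, mul_assoc]
    rw [← mul_sum, ← mul_sum]
    rw [← e1, ← hδ] at h1
    generalize ∑ n ∈ Icc 1 x, (if (∏ p ∈ E ∪ T, p) ∣ n then (1 : ℝ) else 0) * (1 + lv n) = S
      at h1
    generalize ∏ p ∈ E ∪ T, 1 / (p : ℝ) = a at h1 h3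
    have h4 : |(-1 : ℝ) ^ E.card * lam T * (S - x * a)| ≤ 1 + δ * (x * a) := by
      rw [abs_mul, abs_mul, abs_pow, abs_neg, abs_one, one_pow, one_mul]
      exact (mul_le_of_le_one_left (abs_nonneg _) (hl.1 T)).trans h1
    have h5 : δ * (x * a) ≤ δ * x * ∏ p ∈ T, 1 / (p : ℝ) := by
      rw [← mul_assoc]
      exact mul_le_mul_of_nonneg_left h3 (by positivity)
    have h6 := (abs_le.1 h4).1
    linarith
  have hTh : ∑ T ∈ (PP w0 z).powerset, ∏ p ∈ T, 1 / (p : ℝ) ≤ CM * Real.log z := by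
    rw [← prod_one_add]
    have h1 := prod_one_add_le_Th w0 z 1 (x := fun p => 1 / (p : ℝ))
      fun p _ => ⟨by positivity, by simp⟩
    have h2 := Th_le hz hz2
    have h3 := VV_le_one w0
    have h4 := one_le_CM
    have h5 : 0 ≤ Real.log z := Real.log_nonneg hz1
    rw [pow_one] at h1
    refine h1.trans (h2.trans ?_)
    exact mul_le_mul_of_nonneg_right (mul_le_of_le_one_right (by linarith) h3) h5
  refine le_trans ?_ (add_le_add up le_rfl)
  simp only [expand, VV, sum_mul]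
  rw [sum_comm (s := Icc 1 x), mul_sum]
  have e2 : (2 : ℝ) ^ (PP 0 w0).card * ((z ^ 4 + δ * x) * (CM * Real.log z)) =
      ∑ _E ∈ (PP 0 w0).powerset, (z ^ 4 + δ * x) * (CM * Real.log z) := by
    rw [sum_const, card_powerset, nsmul_eq_mul]
    push_cast
    rfl
  rw [e2, ← sum_add_distrib]
  refine sum_le_sum fun E hE => ?_
  rw [sum_comm (s := Icc 1 x), mul_sum]
  refine (sum_le_sum (term E hE)).trans ?_
  rw [sum_add_distrib, ← mul_sum]
  gcongr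

/-- the bound along the powers -/
theorem pows (h1 : S_Liou) (h2 : S_Even) {A : ℝ} (hA : Low A) {ε : ℝ} (hε : 0 < ε) :
    ∃ M Y1 : ℕ, 1 ≤ M ∧ ∀ Y : ℕ, Y1 ≤ Y → A * VV (Y ^ M) * (M * Real.log Y) ≤ 2 + 12 * ε := by
  obtain ⟨C, hC0, hC⟩ := h1
  obtain ⟨M, Y0, hM, hE⟩ := h2 ε hε
  obtain ⟨η, hη, z0, hL⟩ := hA ε hε
  obtain ⟨w0, hw0⟩ := dim2 hη
  set W := ∏ p ∈ PP 0 w0, p with hW
  have hW1 : 1 ≤ W := prod_pos fun p hp => (PP_prime hp).pos
  set K : ℝ := 2 ^ (PP 0 w0).card * ((6 + 8 * C) * (CM * M)) * M with hK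
  refine ⟨M, Y0 + ⌈z0⌉₊ + w0 + 2 * W * W + ⌈Real.exp (K / ε)⌉₊, hM, fun Y hY => ?_⟩
  have hWW : 1 ≤ W * W := Nat.mul_pos hW1 hW1
  have hY2 : 2 ≤ Y := by nlinarith
  have hYz : Y ≤ Y ^ M := Nat.le_self_pow (by omega) Y
  have hY1 : (1 : ℝ) < Y := by exact_mod_cast (by omega : 1 < Y)
  have hlY : 0 < Real.log Y := Real.log_pos hY1
  have hM0 : (0 : ℝ) < M := by exact_mod_cast hM
  have hu : 2 * W ≤ Y / W := (Nat.le_div_iff_mul_le hW1).2 (by omega)
  have hu2 : Y ≤ (Y / W) ^ 2 := by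
    have := Nat.lt_div_mul_add (a := Y) hW1
    nlinarith
  have hx : W * (Y ^ M) ^ 4 * (Y / W) ≤ Y ^ (4 * M + 1) := by
    have := Nat.mul_div_le Y W
    calc W * (Y ^ M) ^ 4 * (Y / W) = (Y ^ M) ^ 4 * (W * (Y / W)) := by ring
      _ ≤ (Y ^ M) ^ 4 * Y := Nat.mul_le_mul_left _ this
      _ = _ := by ring
  obtain ⟨lam, l1, l2⟩ := hL (PP w0 (Y ^ M)) (fun p => 1 / (p : ℝ)) ((Y ^ M : ℕ) : ℝ)
    ((Nat.le_ceil z0).trans (by exact_mod_cast (by omega : ⌈z0⌉₊ ≤ Y ^ M))) (hw0 _)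
    fun l hl => by exact_mod_cast (mem_PP.1 hl).2.1
  have c1 := core hC0 hC (by omega : w0 ≤ Y ^ M) (by omega) (by omega : 2 ≤ Y / W) hx l1
  have c2 := hE Y (by omega)
  have hV : VV (Y ^ M) = VV w0 * ∏ p ∈ PP w0 (Y ^ M), (1 - 1 / (p : ℝ)) :=
    prod_PP_split (Nat.zero_le w0) (by omega) _
  have c3 : (A * Real.log 3 / 4 - ε) * VV (Y ^ M) ≤
      VV w0 * Sf (PP w0 (Y ^ M)) lam fun p => 1 / (p : ℝ) := by
    rw [hV, mul_left_comm]
    exact mul_le_mul_of_nonneg_left l2 (VV_pos w0).le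
  have elog : Real.log ((Y ^ M : ℕ) : ℝ) = M * Real.log Y := by push_cast; rw [Real.log_pow]
  have c4 := VV_mul_log_le' (Y ^ M)
  rw [elog] at c1 c4
  have hlu : Real.log Y ≤ 2 * Real.log ((Y / W : ℕ) : ℝ) := by
    have := Real.log_le_log (by linarith) (show (Y : ℝ) ≤ ((Y / W : ℕ) : ℝ) ^ 2 by
      exact_mod_cast hu2)
    rwa [Real.log_pow] at this
  have d1 : C / Real.log ((Y / W : ℕ) : ℝ) ^ 3 ≤ 8 * C / Real.log Y ^ 3 := by
    have h3 : 0 < Real.log ((Y / W : ℕ) : ℝ) := by linarith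
    have h4 : Real.log Y ^ 3 ≤ (2 * Real.log ((Y / W : ℕ) : ℝ)) ^ 3 := by gcongr
    rw [div_le_div_iff₀ (by positivity) (by positivity)]
    nlinarith
  set x : ℝ := (Y : ℝ) ^ (4 * M + 1) with hxd
  have hx0 : 0 < x := by positivity
  have ex : ((Y ^ (4 * M + 1) : ℕ) : ℝ) = x := by push_cast; rfl
  have d2 : ((Y ^ M : ℕ) : ℝ) ^ 4 ≤ 6 / Real.log Y ^ 3 * x := by
    have h3 := Real.pow_div_factorial_le_exp _ hlY.le 3
    rw [Real.exp_log (by linarith)] at h3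
    have h4 : x = ((Y ^ M : ℕ) : ℝ) ^ 4 * Y := by rw [hxd]; push_cast; ring
    have h5 : (0 : ℝ) ≤ ((Y ^ M : ℕ) : ℝ) ^ 4 := by positivity
    norm_num [Nat.factorial] at h3
    rw [h4, div_mul_eq_mul_div, le_div_iff₀ (by positivity)]
    nlinarith
  rw [ex] at c1
  have hCM := one_le_CM
  have d3 : 2 ^ (PP 0 w0).card * ((((Y ^ M : ℕ) : ℝ) ^ 4 +
      C / Real.log ((Y / W : ℕ) : ℝ) ^ 3 * x) * (CM * (M * Real.log Y))) ≤
      K / Real.log Y * x / (M * Real.log Y) := by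
    calc _ ≤ 2 ^ (PP 0 w0).card * ((6 / Real.log Y ^ 3 * x + 8 * C / Real.log Y ^ 3 * x) *
          (CM * (M * Real.log Y))) := by gcongr
      _ = _ := by rw [hK]; field_simp
  have d4 : K / Real.log Y ≤ ε := by
    rw [div_le_iff₀ hlY, mul_comm, ← div_le_iff₀ hε, Real.le_log_iff_exp_le (by linarith)]
    exact (Nat.le_ceil _).trans (by exact_mod_cast (by omega : ⌈Real.exp (K / ε)⌉₊ ≤ Y))
  have hL0 : 0 < (M : ℝ) * Real.log Y := by positivity
  have c5 : x * ((A * Real.log 3 / 4 - ε) * VV (Y ^ M)) ≤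
      (Real.log 3 / 2 + ε + ε) * x / (M * Real.log Y) := by
    have h3 : K / Real.log Y * x / (M * Real.log Y) ≤ ε * x / (M * Real.log Y) := by gcongr
    have h4 := mul_le_mul_of_nonneg_left c3 hx0.le
    have h5 : (Real.log 3 / 2 + ε + ε) * x / (M * Real.log Y) =
        (Real.log 3 / 2 + ε) * x / (M * Real.log Y) + ε * x / (M * Real.log Y) := by ring
    linarith
  have c6 : (A * Real.log 3 / 4 - ε) * VV (Y ^ M) * (M * Real.log Y) ≤
      Real.log 3 / 2 + ε + ε := by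
    rw [le_div_iff₀ hL0] at c5
    refine le_of_mul_le_mul_left ?_ hx0
    linarith
  have l3 : 1 ≤ Real.log 3 := by
    rw [Real.le_log_iff_exp_le (by norm_num)]
    linarith [Real.exp_one_lt_d9]
  have c7 : ε * (VV (Y ^ M) * (M * Real.log Y)) ≤ ε := mul_le_of_le_one_right hε.le c4
  refine le_of_mul_le_mul_left ?_ (show 0 < Real.log 3 by linarith)
  nlinarith

end ConstP

theorem pConst (h1 : S_Liou) (h2 : S_Even) : S_Const := by
  intro A hA ε hε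
  by_cases hA0 : A ≤ 0
  · refine ⟨0, fun z _ => ?_⟩
    have := mul_nonneg (VV_pos z).le (Real.log_natCast_nonneg z)
    nlinarith
  replace hA0 := (not_le.1 hA0).le
  obtain ⟨M, Y1, hM, h⟩ := ConstP.pows h1 h2 hA (ε := ε / 24) (by positivity)
  refine ⟨(Y1 + 2 + ⌈Real.exp (2 * A / ε)⌉₊) ^ M, fun z hz => ?_⟩
  have ex : ∃ Y : ℕ, z < (Y + 1) ^ M :=
    ⟨z, lt_of_lt_of_le (Nat.lt_succ_self z) (Nat.le_self_pow (by omega) _)⟩
  have s1 := Nat.find_spec ex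
  have s2 : Y1 + 2 + ⌈Real.exp (2 * A / ε)⌉₊ ≤ Nat.find ex :=
    Nat.lt_succ_iff.1 (lt_of_pow_lt_pow_left₀ M (Nat.zero_le _) (hz.trans_lt s1))
  have s3 : Nat.find ex ^ M ≤ z := by
    have := Nat.find_min ex (m := Nat.find ex - 1) (by omega)
    rwa [show Nat.find ex - 1 + 1 = Nat.find ex by omega, not_lt] at this
  generalize Nat.find ex = Y at s1 s2 s3
  have hY1 : (1 : ℝ) < Y := by exact_mod_cast (by omega : 1 < Y)
  have hlY : 0 < Real.log Y := Real.log_pos hY1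
  have hz0 : (0 : ℝ) < z := by
    have : 0 < Y ^ M := pow_pos (by omega) _
    exact_mod_cast this.trans_le s3
  have a1 : Real.log z ≤ M * (Real.log Y + 1) := by
    have b1 : Real.log z ≤ M * Real.log (Y + 1) := by
      rw [← Real.log_pow]
      exact Real.log_le_log hz0 (by exact_mod_cast s1.le)
    have b2 : Real.log ((Y : ℝ) + 1) ≤ Real.log Y + 1 := by
      have b3 := Real.log_le_log (by linarith) (show (Y : ℝ) + 1 ≤ Y * 2 by linarith)
      rw [Real.log_mul (by linarith) (by norm_num)] at b3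
      linarith [Real.log_two_lt_d9]
    exact b1.trans (mul_le_mul_of_nonneg_left b2 (Nat.cast_nonneg _))
  have a2 := h Y (by omega)
  have a3 := VV_mul_log_le' (Y ^ M)
  rw [show Real.log ((Y ^ M : ℕ) : ℝ) = M * Real.log Y by push_cast; rw [Real.log_pow]] at a3
  have a4 : 2 * A / ε ≤ Real.log Y := by
    rw [Real.le_log_iff_exp_le (by linarith)]
    exact (Nat.le_ceil _).trans (by exact_mod_cast (by omega : ⌈Real.exp (2 * A / ε)⌉₊ ≤ Y))
  rw [div_le_iff₀ hε] at a4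
  have hV := VV_pos (Y ^ M)
  have a5 : A * (VV (Y ^ M) * M) ≤ ε / 2 := by
    have b1 : (0 : ℝ) ≤ VV (Y ^ M) * M := by positivity
    have b2 : 2 * A * (VV (Y ^ M) * M) ≤ Real.log Y * ε * (VV (Y ^ M) * M) :=
      mul_le_mul_of_nonneg_right a4 b1
    have b3 : ε * (VV (Y ^ M) * (M * Real.log Y)) ≤ ε := mul_le_of_le_one_right hε.le a3
    linarith
  calc A * VV z * Real.log z ≤ A * VV (Y ^ M) * (M * (Real.log Y + 1)) :=
        mul_le_mul (mul_le_mul_of_nonneg_left (VV_anti s3) hA0) a1 (Real.log_natCast_nonneg z)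
          (by positivity)
    _ ≤ 2 + ε := by linarith

end Pool.Agent.P.MP_746f10_nt.PV
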