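import Pool.Agent.P.MP_746f10_nt.PV.Defs
import Pool.Agent.P.MP_746f10_nt.UC.Core

/-! The character expansion with an exceptional character of either sign. -/

set_option linter.unusedSectionVars false

namespace Pool.Agent.P.MP_746f10_nt.PV

open Finset UC UC.CoreP
open scoped ArithmeticFunction.vonMangoldt

namespace CoreSP

variable {Q y M : ℕ} [NeZero M] {F : ℕ → ℝ} {c0 : ℝ}

lemma exists_rough (χ : RC) (y : ℕ) : ∃ u, rough y u ∧ χ.χ u = -1 := by
  obtain ⟨u, hu⟩ := χ.nontriv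
  have hc : u.Coprime χ.r := by
    by_contra h; rw [χ.zero u h] at hu; norm_num at hu
  obtain ⟨p, h1, h2, h3⟩ := Nat.forall_exists_prime_gt_and_modEq y χ.r_pos.ne' hc
  refine ⟨p, fun q hq hd => ?_, by rw [χ.of_modEq h3, hu]⟩
  rwa [(Nat.prime_dvd_prime_iff_eq hq h2).1 hd]

lemma fg_sg (hM : ∀ n, n.Coprime M ↔ rough y n) {χ0 : ℕ → ℝ} (σ : ℝ) {q : ℕ} (hq : q ∣ M)
    (hqQ : q ≤ Q) (h1 : ∀ m, -1 ≤ σ * χ0 m) (h2 : ∀ m m', m ≡ m' [MOD q] → χ0 m = χ0 m')
    (h3 : ∑ m ∈ range M, χ0 m * ri y m = 0) : FG Q y M (fun m => 1 + σ * χ0 m) 1 := by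
  have := fg_one (Q := Q) (χ0 := fun m => -(σ * χ0 m)) hM hq hqQ (fun m => by linarith [h1 m])
    (fun m m' h => by rw [h2 m m' h]) (by
      rw [show ∑ m ∈ range M, -(σ * χ0 m) * ri y m = -σ * ∑ m ∈ range M, χ0 m * ri y m by
        rw [mul_sum]; exact sum_congr rfl fun m _ => by ring, h3, mul_zero])
  simpa only [sub_neg_eq_add] using this

lemma diff_sg {F' : ℕ → ℝ} (hF : FG Q y M F c0) (hF' : FG Q y M F' 1) {N : ℕ} {σ : ℝ}
    {g w χ0 : ℕ → ℝ} (h1 : ∀ κ ∈ Ex M Q y χ0, Gh F κ = (σ * c0 : ℝ) ∧ Gh F' κ = (σ * 1 : ℝ))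
    {T : ℝ} (h : ∑ κ ∈ Fam' M Q y χ0, ‖DD N g w κ‖ ≤ T) :
    |∑ m ∈ range N, g m * ri y m * w m * F m - c0 * ∑ m ∈ range N, g m * ri y m * w m * F' m| ≤
      2 * (c0 * T) := by
  have a1 := tail_le hF _ _ h
  have a2 := tail_le hF' _ _ h
  have e1 : ∑ κ ∈ Ex M Q y χ0, Gh F κ * DD N g w κ =
      c0 * ∑ κ ∈ Ex M Q y χ0, Gh F' κ * DD N g w κ := by
    rw [mul_sum]
    exact sum_congr rfl fun κ hκ => by rw [(h1 κ hκ).1, (h1 κ hκ).2]; push_cast; ring
  rw [← Real.norm_eq_abs, ← Complex.norm_real, Complex.ofReal_sub, Complex.ofReal_mul,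
    split hF N g w χ0, split hF' N g w χ0, e1]
  generalize ∑ κ ∈ Fam' M Q y χ0, Gh F κ * DD N g w κ = A at a1
  generalize ∑ κ ∈ Fam' M Q y χ0, Gh F' κ * DD N g w κ = B at a2
  rw [show ∀ D E : ℂ, c0 * D + c0 * E + A - c0 * ((1 : ℝ) * D + E + B) = A - c0 * B from
    fun D E => by push_cast; ring]
  refine (norm_sub_le _ _).trans ?_
  rw [norm_mul, Complex.norm_real, Real.norm_of_nonneg (c0_nn hF)]
  linarith [mul_le_mul_of_nonneg_left a2 (c0_nn hF)]

end CoreSP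

open CoreSP in
theorem pCoreS (h1 : UC.S_Chi) (h2 : UC.S_Mel) (h3 : UC.S_Lin) : S_CoreS := by
  intro c C hc hC hL ε η H hε hη
  by_cases hH : 1 ≤ H
  swap
  · exact ⟨0, fun φ α β δ hB => absurd hB.one_le hH⟩
  obtain ⟨U1, hU1⟩ := h1 c C hc hC hL (ε / (4 * H)) η (by positivity) hη
  obtain ⟨U2, hU2⟩ := h3 (ε / 4) H (by positivity)
  refine ⟨U1 + U2 + 1, ?_⟩
  intro φ α β δ hB hα hβ Q y M U N _ F c0 σ χ0 hQ hy hU hN hF hG hχ
  have hQy : Q ^ 2 ≤ y := hy ▸ Nat.le_self_pow (by omega) _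
  have hy2 : 2 ≤ y := (hQ.trans (Nat.le_self_pow two_ne_zero Q)).trans hQy
  have hN2 : 2 ≤ N := hy2.trans (hN ▸ Nat.le_self_pow (by omega) _)
  have hl : 0 < Real.log N := Real.log_pos (by exact_mod_cast hN2)
  have hex : Real.exp (β * Real.log N) ≤ N := by
    calc _ ≤ Real.exp (Real.log N) := Real.exp_le_exp.2 (mul_le_of_le_one_left hl.le hβ)
      _ = _ := Real.exp_log (by positivity)
  have hX := fun t => hU1 Q y M U N t χ0 hQ hy hF.unit (by omega) hN hG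
  have hc0 := c0_nn hF
  have m1 := h2 φ α β δ H hB (Fam' M Q y χ0) (fun κ n => κ n * (Real.log n - Λ n : ℝ))
    (Real.log N) (ε / (4 * H) * Real.log N) N hl hex (fun κ _ => summable_tw κ (fun n => by
      rw [abs_of_nonneg (sub_nonneg.2 ArithmeticFunction.vonMangoldt_le_log)]
      exact sub_le_self _ ArithmeticFunction.vonMangoldt_nonneg) hl) fun t => (hX t).1
  have key : ∀ _ : FG Q y M (fun m => 1 + σ * χ0 m) 1,
      (∀ κ ∈ Ex M Q y χ0, Gh F κ = (σ * c0 : ℝ) ∧ Gh (fun m => 1 + σ * χ0 m) κ = (σ * 1 : ℝ)) →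
      |∑ m ∈ range N, Λ m * ri y m * wt φ (Real.log N) m * F m -
        c0 * ∑ m ∈ range N, Λ m * ri y m * wt φ (Real.log N) m * (1 + σ * χ0 m)| ≤
        ε * c0 * Real.log N := by
    intro hF' hE
    have b1 := abs_le.1 (diff_sg (g := fun n => Real.log n - Λ n) hF hF' hE m1)
    have b2 := abs_le.1 (hU2 φ α β δ hB hα hβ Q y M U N F c0 hQ hQy (by omega) hN hF)
    have b3 := abs_le.1 (hU2 φ α β δ hB hα hβ Q y M U N _ 1 hQ hQy (by omega) hN hF')
    have e1 : ∀ G : ℕ → ℝ, ∑ m ∈ range N, Λ m * ri y m * wt φ (Real.log N) m * G m =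
        ∑ m ∈ range N, Real.log m * ri y m * wt φ (Real.log N) m * G m -
        ∑ m ∈ range N, (Real.log m - Λ m) * ri y m * wt φ (Real.log N) m * G m := fun G => by
      rw [← sum_sub_distrib]; exact sum_congr rfl fun m _ => by ring
    have e2 : ε / (4 * H) * Real.log N * H = ε / 4 * Real.log N := by field_simp
    rw [e2] at b1
    rw [e1 F, e1 fun m => 1 + σ * χ0 m, abs_le]
    have b4 := mul_le_mul_of_nonneg_left b3.1 hc0
    have b5 := mul_le_mul_of_nonneg_left b3.2 hc0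
    constructor <;> linarith [b1.1, b1.2, b2.1, b2.2]
  rcases hχ with h0 | ⟨χ, rfl, r1, r2, hσ, r3⟩
  · refine key (fg_sg hF.unit σ (one_dvd M) (by omega) (fun m => by rw [h0]; norm_num)
      (fun m m' _ => by rw [h0, h0]) (by simp [h0])) ?_
    rw [Ex_empty h0]; simp
  · obtain ⟨u, u1, u2⟩ := exists_rough χ y
    have hF' := fg_sg (Q := Q) hF.unit σ r1 r2 (fun m => by
      rcases hσ with rfl | rfl
      · linarith [χ.neg_one_le m]
      · linarith [χ.le_one m]) (fun m m' => χ.of_modEq) (sum_chi_ri hF.unit χ r1 u1 u2)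
    classical
    refine key hF' fun κ hκ => ⟨gh_eq hF κ σ fun n a1 a2 => by
      rw [(mem_filter.1 hκ).2 n a1, r3 n a2], gh_eq hF' κ σ fun n a1 a2 => ?_⟩
    rw [(mem_filter.1 hκ).2 n a1]
    have a4 := χ.ne n (((hF.unit n).2 a1).coprime_dvd_right r1)
    have a5 : 1 + σ * χ.χ n ≠ 0 := a2
    rcases χ.val n with a3 | a3 | a3
    · exact absurd a3 a4
    · rcases hσ with rfl | rfl
      · rw [a3]
      · exact absurd (by rw [a3]; norm_num) a5
    · rcases hσ with rfl | rfl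
      · exact absurd (by rw [a3]; norm_num) a5
      · rw [a3]

end Pool.Agent.P.MP_746f10_nt.PV
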