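import Pool.Agent.P.MP_746f10_nt.PV.Defs

/-! A real character has a nontrivial component at a large prime or is determined modulo a
bounded number. -/

namespace Pool.Agent.P.MP_746f10_nt.PV

open Finset

namespace DichP

lemma sq_two {u : ℕ} (h : u ≡ 1 [MOD 8]) (n : ℕ) :
    ∃ v : ℕ, Odd v ∧ (2 : ℤ) ^ (n + 3) ∣ v * v - u := by
  induction n with
  | zero => exact ⟨1, odd_one, by simpa using h.dvd⟩
  | succ n ih =>
    obtain ⟨v, ⟨j, rfl⟩, k, hk⟩ := ih
    rcases Int.even_or_odd' k with ⟨m, rfl | rfl⟩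
    · exact ⟨_, ⟨j, rfl⟩, m, by rw [hk]; ring⟩
    · refine ⟨2 * j + 1 + 2 ^ (n + 2), ⟨j + 2 ^ (n + 1), by ring⟩, m + j + 1 + 2 ^ n, ?_⟩
      push_cast at hk ⊢
      linear_combination hk

lemma sq_mod {u n : ℕ} (h : u ≡ 1 [MOD Nat.gcd (2 ^ n) 8]) : ∃ v : ℕ, v * v ≡ u [MOD 2 ^ n] := by
  rcases le_total n 3 with hn | hn
  · rw [Nat.gcd_eq_left (show 2 ^ n ∣ 8 from pow_dvd_pow 2 hn)] at h
    exact ⟨1, h.symm⟩
  · rw [Nat.gcd_eq_right (show 8 ∣ 2 ^ n from pow_dvd_pow 2 hn)] at h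
    obtain ⟨m, rfl⟩ := Nat.exists_eq_add_of_le' hn
    obtain ⟨v, -, hv⟩ := sq_two h m
    exact ⟨v, Nat.ModEq.symm (Nat.modEq_iff_dvd.2 (by exact_mod_cast hv))⟩

lemma pow_mod {u p : ℕ} (h : u ≡ 1 [MOD p]) (n : ℕ) : u ^ p ^ n ≡ 1 [MOD p ^ n] := by
  have h1 := (pow_dvd_pow _ n.le_succ).trans (dvd_sub_pow_of_dvd_sub (R := ℤ) (p := p) h.dvd n)
  exact Nat.modEq_iff_dvd.2 (by simpa using h1)

end DichP

open DichP

theorem pDich : S_Dich := by
  intro χ B hB
  refine or_iff_not_imp_left.2 fun hn => ?_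
  have key : ∀ s t : ℕ, χ.r = s * t → s.Coprime t → ∀ u : ℕ, u.Coprime χ.r → u ≡ 1 [MOD t] →
      u ≡ 1 [MOD s.gcd (8 * ∏ p ∈ PP 0 B, p)] → χ.χ u = 1 := by
    intro s
    induction s using Nat.recOnPosPrimePosCoprime with
    | zero => exact fun t h => absurd (h.trans (zero_mul t)) χ.r_pos.ne'
    | one => exact fun t h _ u _ h1 _ => (χ.of_modEq (by rwa [h, one_mul])).trans χ.one
    | prime_pow p n hp h0 =>
      intro t h c u hu h1 h2
      have h3 : χ.χ u = 1 ∨ χ.χ u = -1 := (χ.val u).resolve_left (χ.ne u hu)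
      refine h3.resolve_right fun h4 => ?_
      rcases lt_or_ge B p with hl | hl
      · have t0 : t ≠ 0 := fun e => χ.r_pos.ne' (by rw [h, e, mul_zero])
        have h5 : χ.r.factorization p = n := by
          rw [h, Nat.factorization_mul (pow_ne_zero n hp.ne_zero) t0, Finsupp.add_apply,
            Nat.factorization_pow_self hp, Nat.factorization_eq_zero_of_not_dvd
              (hp.coprime_iff_not_dvd.1 ((Nat.coprime_pow_left_iff h0 _ _).1 c)), add_zero]
        refine hn ⟨p, u, hp, hl, h ▸ (dvd_pow_self p h0.ne').mul_right t, hu, ?_, h4⟩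
        rwa [h5, h, Nat.mul_div_cancel_left _ (pow_pos hp.pos n)]
      rcases hp.eq_two_or_odd' with rfl | ho
      · obtain ⟨v, hv⟩ := sq_mod (h2.of_dvd (Nat.gcd_dvd_gcd_mul_right_right _ _ _))
        obtain ⟨w, w1, w2⟩ := Nat.chineseRemainder c v 1
        have h5 : w * w ≡ u [MOD χ.r] := h ▸ (Nat.modEq_and_modEq_iff_modEq_mul c).1
          ⟨(w1.mul w1).trans hv, (w2.mul w2).trans h1.symm⟩
        have h6 := χ.of_modEq h5
        rw [χ.mul, h4] at h6
        nlinarith [mul_self_nonneg (χ.χ w)]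
      · have h5 : u ≡ 1 [MOD p] := h2.of_dvd (Nat.dvd_gcd (dvd_pow_self p h0.ne')
          ((dvd_prod_of_mem (fun p => p) (mem_PP.2 ⟨hp.pos, hl, hp⟩)).mul_left 8))
        have h6 : u ^ p ^ n ≡ 1 [MOD χ.r] := h ▸ (Nat.modEq_and_modEq_iff_modEq_mul c).1
          ⟨pow_mod h5 n, by simpa using h1.pow (p ^ n)⟩
        have h7 := χ.of_modEq h6
        rw [χ.chi_pow, h4, χ.one, (ho.pow (n := n)).neg_one_pow] at h7
        norm_num at h7
    | coprime a b _ _ hab iha ihb =>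
      intro t h c u hu h1 h2
      have c1 : a.Coprime t := c.coprime_mul_right
      have c2 : b.Coprime t := c.coprime_mul_left
      have c3 : a.Coprime (b * t) := hab.mul_right c1
      obtain ⟨x, x1, x2⟩ := Nat.chineseRemainder c3 u 1
      obtain ⟨y, y1, y2⟩ := Nat.chineseRemainder c3 1 u
      have h3 : x * y ≡ u [MOD χ.r] := by
        rw [h, mul_assoc]
        exact (Nat.modEq_and_modEq_iff_modEq_mul c3).1
          ⟨by simpa using x1.mul y1, by simpa using x2.mul y2⟩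
      have h4 : (x * y).Coprime χ.r := by
        rwa [Nat.Coprime, h3.gcd_eq]
      rw [← χ.of_modEq h3, χ.mul,
        iha (b * t) (by rw [h, mul_assoc]) c3 x h4.coprime_mul_right x2
          ((x1.of_dvd (Nat.gcd_dvd_left _ _)).trans
            (h2.of_dvd (Nat.gcd_dvd_gcd_mul_right_left _ _ _))),
        ihb (a * t) (by rw [h]; ring) (hab.symm.mul_right c2) y h4.coprime_mul_left
          ((Nat.modEq_and_modEq_iff_modEq_mul c1).1 ⟨y1, (y2.of_mul_left b).trans h1⟩)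
          (((y2.of_mul_right t).of_dvd (Nat.gcd_dvd_left _ _)).trans
            (h2.of_dvd (Nat.gcd_dvd_gcd_mul_left_left _ _ _))), one_mul]
  exact fun u hu h => key _ 1 (mul_one _).symm (Nat.coprime_one_right _) u hu Nat.modEq_one
    (h.of_dvd (Nat.gcd_dvd_right _ _))

end Pool.Agent.P.MP_746f10_nt.PV
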