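import Pool.Agent.P.MP_746f10_nt.PV.Defs

/-! Rough numbers with an even number of prime factors. -/

namespace Pool.Agent.P.MP_746f10_nt.PV

open Finset Filter ArithmeticFunction
open Pool.Agent.P.MP_0ad054_nt

namespace EvenP

lemma pi_le (h1 : An.S_PNT) {e : ℝ} (he : 0 < e) :
    ∃ t0 : ℕ, ∀ t : ℕ, t0 ≤ t → ((PP 0 t).card : ℝ) ≤ (1 + e) * t / Real.log t := by
  obtain ⟨C, hC, h⟩ := h1 1
  obtain ⟨c, hc, hb⟩ := Chebyshev.primeCounting_sub_theta_div_log_isBigO.exists_pos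
  have e1 := tendsto_natCast_atTop_atTop (R := ℝ) |>.eventually hb.bound
  have e2 := (Real.tendsto_log_atTop.comp (tendsto_natCast_atTop_atTop (R := ℝ))).eventually
    (eventually_ge_atTop ((C + c) / e))
  obtain ⟨t0, h0⟩ := eventually_atTop.1 (e1.and (e2.and (eventually_ge_atTop 2)))
  refine ⟨t0, fun t ht => ?_⟩
  obtain ⟨a1, a2, a3⟩ := h0 t ht
  have t2 : (2 : ℝ) ≤ t := by exact_mod_cast a3
  have hL : 0 < Real.log t := Real.log_pos (by linarith)
  have b1 : (PP 0 t).card = Nat.primeCounting t := by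
    rw [← Nat.primesLE_card_eq_primeCounting]
    congr 1
    ext p
    rw [mem_PP, Nat.mem_primesLE]
    exact ⟨fun hh => hh.2, fun hh => ⟨hh.2.pos, hh⟩⟩
  have b2 : Chebyshev.theta t ≤ t + C * t / Real.log t := by
    have c1 := Chebyshev.theta_le_psi t
    have c2 := (abs_le.1 (h t a3)).2
    rw [pow_one] at c2
    rw [Chebyshev.psi, Nat.floor_natCast, ← Icc_add_one_left_eq_Ioc, zero_add] at c1
    linarith
  rw [Nat.floor_natCast, Real.norm_eq_abs, Real.norm_of_nonneg (by positivity)] at a1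
  have b3 := (abs_le.1 a1).2
  have b4 : Chebyshev.theta t / Real.log t ≤ (t + C * t / Real.log t) / Real.log t :=
    div_le_div_of_nonneg_right b2 hL.le
  have b5 : (C + c) / Real.log t ≤ e := by
    rw [div_le_iff₀ hL, mul_comm]
    exact (div_le_iff₀ he).1 a2
  have b6 : (C + c) / Real.log t * (t / Real.log t) ≤ e * (t / Real.log t) :=
    mul_le_mul_of_nonneg_right b5 (by positivity)
  have b7 : (t + C * t / Real.log t) / Real.log t + c * (t / Real.log t ^ 2) =
      t / Real.log t + (C + c) / Real.log t * (t / Real.log t) := by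
    field_simp
    ring
  have b8 : (1 + e) * t / Real.log t = t / Real.log t + e * (t / Real.log t) := by ring
  rw [b1]
  linarith

open Classical in
/-- rough numbers up to `x` with `k` prime factors -/
noncomputable def S (z k x : ℕ) : Finset ℕ :=
  (Icc 1 x).filter fun n => rough z n ∧ cardFactors n = k

lemma mem_S {z k x n : ℕ} : n ∈ S z k x ↔ (1 ≤ n ∧ n ≤ x) ∧ rough z n ∧ cardFactors n = k := by
  simp only [S, mem_filter, mem_Icc]

lemma pow_le {w n : ℕ} (hn : 1 ≤ n) (h : ∀ p, p.Prime → p ∣ n → w ≤ p) :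
    w ^ cardFactors n ≤ n := by
  have := List.pow_card_le_prod n.primeFactorsList w fun p hp =>
    h p (Nat.prime_of_mem_primeFactorsList hp) (Nat.dvd_of_mem_primeFactorsList hp)
  rwa [Nat.prod_primeFactorsList (by omega)] at this

lemma card_succ {z k x y : ℕ} (h : x < (y + 1) ^ (k + 1)) :
    ((S z (k + 1) x).card : ℝ) ≤ ∑ p ∈ PP z y, ((S z k (x / p)).card : ℝ) := by
  have h1 : S z (k + 1) x ⊆ (PP z y).biUnion fun p => (S z k (x / p)).image (p * ·) := by
    intro n hn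
    obtain ⟨⟨a1, a2⟩, a3, a4⟩ := mem_S.1 hn
    have n1 : n ≠ 1 := fun hh => by simp [hh] at a4
    have hp := Nat.minFac_prime n1
    obtain ⟨m, hm⟩ := Nat.minFac_dvd n
    have m0 : m ≠ 0 := fun hh => by rw [hh] at hm; omega
    have b1 := pow_le a1 fun p hp hd => Nat.minFac_le_of_dvd hp.two_le hd
    have b2 : n.minFac < y + 1 :=
      lt_of_pow_lt_pow_left₀ (k + 1) (Nat.zero_le _) (by rw [a4] at b1; omega)
    have b3 := cardFactors_mul hp.ne_zero m0
    rw [← hm, cardFactors_apply_prime hp] at b3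
    refine mem_biUnion.2 ⟨n.minFac, mem_PP.2 ⟨a3 _ hp (Nat.minFac_dvd n), by omega, hp⟩,
      mem_image.2 ⟨m, mem_S.2 ⟨⟨by omega, ?_⟩, fun p hp hd => a3 p hp ?_, by omega⟩, hm.symm⟩⟩
    · rw [Nat.le_div_iff_mul_le hp.pos, mul_comm, ← hm]; exact a2
    · rw [hm]; exact hd.mul_left _
  have h2 := (card_le_card h1).trans (card_biUnion_le.trans (sum_le_sum fun p _ => card_image_le))
  exact_mod_cast h2

lemma card_one {e : ℝ} {t0 z u t : ℕ} (he : 0 < e)
    (h : ∀ t : ℕ, t0 ≤ t → ((PP 0 t).card : ℝ) ≤ (1 + e) * t / Real.log t) (h0 : t0 ≤ u)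
    (h2 : 2 ≤ u) (ht : u ≤ t ∨ u ≤ z) : ((S z 1 t).card : ℝ) ≤ (1 + e) * t / Real.log u := by
  have u2 : (2 : ℝ) ≤ u := by exact_mod_cast h2
  have hL : 0 < Real.log u := Real.log_pos (by linarith)
  by_cases hu : u ≤ t
  · have a1 : S z 1 t ⊆ PP 0 t := fun n hn => by
      obtain ⟨⟨a1, a2⟩, -, a4⟩ := mem_S.1 hn
      exact mem_PP.2 ⟨a1, a2, cardFactors_eq_one_iff_prime.1 a4⟩
    have a2 : ((S z 1 t).card : ℝ) ≤ (PP 0 t).card := by exact_mod_cast card_le_card a1
    refine a2.trans ((h t (h0.trans hu)).trans ?_)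
    exact div_le_div_of_nonneg_left (by positivity) hL
      (Real.log_le_log (by linarith) (by exact_mod_cast hu))
  · have a1 : S z 1 t = ∅ := eq_empty_of_forall_notMem fun n hn => by
      obtain ⟨⟨a1, a2⟩, a3, a4⟩ := mem_S.1 hn
      have := a3 n (cardFactors_eq_one_iff_prime.1 a4) dvd_rfl
      omega
    rw [a1, card_empty, Nat.cast_zero]
    positivity

lemma card_step {z k x y : ℕ} {B μ : ℝ} (hB : 0 ≤ B)
    (h : ∀ t ≤ x, ((S z k t).card : ℝ) ≤ B * t) (hμ : P2.ms (PP z y) ≤ μ)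
    (hx : x < (y + 1) ^ (k + 1)) : ∀ t ≤ x, ((S z (k + 1) t).card : ℝ) ≤ μ * B * t := by
  intro t ht
  refine (card_succ (ht.trans_lt hx)).trans ?_
  calc ∑ p ∈ PP z y, ((S z k (t / p)).card : ℝ) ≤ ∑ p ∈ PP z y, 1 / (p : ℝ) * (B * t) := by
        refine sum_le_sum fun p _ => (h _ ((Nat.div_le_self _ _).trans ht)).trans ?_
        have := mul_le_mul_of_nonneg_left (Nat.cast_div_le (α := ℝ) (m := t) (n := p)) hB
        refine this.trans (le_of_eq ?_)
        ring
    _ = P2.ms (PP z y) * (B * t) := by rw [← sum_mul]; rfl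
    _ ≤ μ * (B * t) := mul_le_mul_of_nonneg_right hμ (by positivity)
    _ = μ * B * t := by ring

lemma sum_blocks {Y a b : ℕ} (hY : 1 ≤ Y) (hab : a ≤ b) (f : ℕ → ℝ) :
    ∑ p ∈ PP (Y ^ a) (Y ^ b), f p = ∑ i ∈ Ico a b, ∑ p ∈ PP (Y ^ i) (Y ^ (i + 1)), f p := by
  induction b, hab using Nat.le_induction with
  | base => simp [PP]
  | succ b hb ih =>
    rw [sum_Ico_succ_top hb, ← ih, PP_union (Nat.pow_le_pow_right hY hb)
      (Nat.pow_le_pow_right hY (Nat.le_succ b)), sum_union (PP_disj _ _ _)]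

lemma inv_le_log {t : ℝ} (ht : 0 < t) : 1 / (t + 1) ≤ Real.log (t + 1) - Real.log t := by
  have h1 := Real.log_le_sub_one_of_pos (show 0 < t / (t + 1) by positivity)
  rw [Real.log_div ht.ne' (by positivity)] at h1
  have h2 : t / (t + 1) - 1 = -(1 / (t + 1)) := by field_simp; ring
  linarith

lemma harm_aux {M b : ℕ} (hM : 1 ≤ M) (hb : M ≤ b) (hb' : b < 4 * M) :
    ∑ i ∈ Ico M b, (1 / (i : ℝ) + 1 / (4 * M - i)) ≤
      1 / M - 1 / b + Real.log b - Real.log M + Real.log (3 * M) - Real.log (4 * M - b) := by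
  induction b, hb using Nat.le_induction with
  | base =>
    have : (4 * M - M : ℝ) = 3 * M := by ring
    rw [this]; simp
  | succ b hb ih =>
    have b1 : (1 : ℝ) ≤ b := by exact_mod_cast hM.trans hb
    have b2 : (b : ℝ) + 1 < 4 * M := by exact_mod_cast hb'
    have h1 := inv_le_log (show (0 : ℝ) < b by linarith)
    have h2 := inv_le_log (show (0 : ℝ) < 4 * M - (b + 1) by linarith)
    have e1 : (4 * M - (b + 1) + 1 : ℝ) = 4 * M - b := by ring
    rw [e1] at h2
    rw [sum_Ico_succ_top hb]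
    push_cast
    linarith [ih (by omega)]

lemma harm {M : ℕ} (hM : 1 ≤ M) :
    ∑ i ∈ Ico M (2 * M + 1), (1 / (i : ℝ) + 1 / (4 * M - i)) ≤ Real.log 3 + 3 / M := by
  have h1 := harm_aux (b := 2 * M + 1) hM (by omega) (by omega)
  have M1 : (1 : ℝ) ≤ M := by exact_mod_cast hM
  push_cast at h1
  have e1 : (4 * M - (2 * M + 1) : ℝ) = 2 * M - 1 := by ring
  rw [e1, Real.log_mul (by norm_num) (by positivity)] at h1
  have p1 : (0 : ℝ) < 2 * M - 1 := by linarith
  have h2 := Real.log_le_sub_one_of_pos (show 0 < (2 * M + 1 : ℝ) / (2 * M - 1) by positivity)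
  rw [Real.log_div (by positivity) p1.ne'] at h2
  have h3 : (2 * M + 1 : ℝ) / (2 * M - 1) - 1 ≤ 2 / M := by
    rw [div_sub_one p1.ne', div_le_div_iff₀ p1 (by linarith)]
    nlinarith
  have h4 : (0 : ℝ) ≤ 1 / (2 * M + 1) := by positivity
  have h5 : (3 : ℝ) / M = 1 / M + 2 / M := by ring
  linarith

lemma sum_le {M Y : ℕ} (hM : 1 ≤ M) (hY : 1 ≤ Y) :
    ∑ n ∈ Icc 1 (Y ^ (4 * M + 1)), ri (Y ^ M) n * (1 + lv n) ≤
      2 + 2 * ((S (Y ^ M) 2 (Y ^ (4 * M + 1))).card : ℝ) +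
        2 * ((S (Y ^ M) 4 (Y ^ (4 * M + 1))).card : ℝ) := by
  classical
  have a0 : ((S (Y ^ M) 0 (Y ^ (4 * M + 1))).card : ℝ) ≤ 1 := by
    have : S (Y ^ M) 0 (Y ^ (4 * M + 1)) ⊆ {1} := fun n hn => by
      obtain ⟨⟨a1, -⟩, -, a4⟩ := mem_S.1 hn
      have := cardFactors_eq_zero_iff_eq_zero_or_one.1 a4
      exact mem_singleton.2 (by omega)
    exact_mod_cast (card_le_card this).trans (card_singleton 1).le
  have key : ∀ k, ((S (Y ^ M) k (Y ^ (4 * M + 1))).card : ℝ) =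
      ∑ n ∈ Icc 1 (Y ^ (4 * M + 1)), if n ∈ S (Y ^ M) k (Y ^ (4 * M + 1)) then (1 : ℝ) else 0 := by
    intro k
    rw [sum_boole, filter_mem_eq_inter, inter_eq_right.2 fun n hn => mem_Icc.2 (mem_S.1 hn).1]
  refine le_trans ?_ (show 2 * ((S (Y ^ M) 0 (Y ^ (4 * M + 1))).card : ℝ) +
    2 * ((S (Y ^ M) 2 (Y ^ (4 * M + 1))).card : ℝ) +
      2 * ((S (Y ^ M) 4 (Y ^ (4 * M + 1))).card : ℝ) ≤ _ by linarith)
  rw [key, key, key, mul_sum, mul_sum, mul_sum, ← sum_add_distrib, ← sum_add_distrib]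
  refine sum_le_sum fun n hn => ?_
  have hn' := mem_Icc.1 hn
  by_cases hr : rough (Y ^ M) n
  · have b1 := pow_le (w := Y ^ M + 1) hn'.1 hr
    have b2 : cardFactors n ≤ 4 := by
      by_contra hh
      have c1 : (Y ^ M + 1) ^ 5 ≤ (Y ^ M + 1) ^ cardFactors n :=
        Nat.pow_le_pow_right (by omega) (by omega)
      have c2 : (Y ^ M) ^ 5 < (Y ^ M + 1) ^ 5 := Nat.pow_lt_pow_left (by omega) (by omega)
      have c3 : Y ^ (4 * M + 1) ≤ (Y ^ M) ^ 5 := by
        rw [← pow_mul]; exact Nat.pow_le_pow_right hY (by omega)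
      omega
    simp only [ri, lv, mem_S, hn', hr, if_true, true_and, and_self]
    generalize cardFactors n = k at b2
    interval_cases k <;> norm_num
  · simp [ri, mem_S, hr]

end EvenP

open EvenP in
theorem pEven (h1 : An.S_PNT) (h2 : P2.S_Num) : S_Even := by
  intro ε hε
  obtain ⟨M, hM0⟩ := exists_nat_ge (200 / ε + 1)
  have p0 : 0 < 200 / ε := by positivity
  have M1 : (1 : ℝ) ≤ M := by linarith
  have hM : 1 ≤ M := by exact_mod_cast M1
  obtain ⟨e, he⟩ : ∃ e : ℝ, e = 1 / M := ⟨_, rfl⟩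
  have e0 : 0 < e := by rw [he]; positivity
  have eM : e * M = 1 := by rw [he]; field_simp
  have e1 : e ≤ 1 := by nlinarith
  have e2 : 200 * e ≤ ε := by
    have : 200 ≤ M * ε := (div_le_iff₀ hε).1 (by linarith)
    nlinarith
  obtain ⟨t0, hpi⟩ := pi_le h1 e0
  obtain ⟨X0, hms⟩ := h2.2.1 (e ^ 2) (by positivity)
  refine ⟨M, t0 + X0 + 2 * M ^ 2, hM, fun Y hY => ?_⟩
  have hM2 : 1 ≤ M ^ 2 := Nat.one_le_pow _ _ hM
  have Y2 : 2 ≤ Y := by omega
  have Y1 : 1 ≤ Y := by omega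
  have Y2' : (2 : ℝ) ≤ Y := by exact_mod_cast Y2
  have hL : 0 < Real.log Y := Real.log_pos (by linarith)
  have hpow : ∀ j, 1 ≤ j → Y ≤ Y ^ j := fun j hj => Nat.le_self_pow (by omega) Y
  obtain ⟨x, hx⟩ : ∃ x, x = Y ^ (4 * M + 1) := ⟨_, rfl⟩
  obtain ⟨W, hW⟩ : ∃ W : ℝ, W = x / (M * Real.log Y) := ⟨_, rfl⟩
  have W0 : 0 ≤ W := by rw [hW]; positivity
  have hx2 : x < (Y ^ (2 * M + 1) + 1) ^ 2 := by
    refine lt_of_le_of_lt ?_ (Nat.pow_lt_pow_left (Nat.lt_succ_self _) (by omega))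
    rw [hx, ← pow_mul]; exact Nat.pow_le_pow_right Y1 (by omega)
  have hblk : ∀ i ∈ Ico M (2 * M + 1), P2.ms (PP (Y ^ i) (Y ^ (i + 1))) ≤ 1 / i + e ^ 2 :=
    fun i hi => hms Y i (by omega) (hM.trans (mem_Ico.1 hi).1)
  -- two prime factors
  have s2 : ((S (Y ^ M) 2 x).card : ℝ) ≤ (1 + e) * W * ((Real.log 3 + 3 * e) / 4 + e) := by
    refine (card_succ hx2).trans ?_
    rw [sum_blocks Y1 (by omega)]
    have a1 : ∀ i ∈ Ico M (2 * M + 1),
        ∑ p ∈ PP (Y ^ i) (Y ^ (i + 1)), ((S (Y ^ M) 1 (x / p)).card : ℝ) ≤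
          (1 + e) * W * ((1 / (i : ℝ) + 1 / (4 * M - i)) / 4 + e ^ 2 / 2) := by
      intro i hi
      obtain ⟨i1, i2⟩ := mem_Ico.1 hi
      have i3 : (M : ℝ) ≤ i := by exact_mod_cast i1
      have i4 : (i : ℝ) ≤ 2 * M := by exact_mod_cast (show i ≤ 2 * M by omega)
      have i5 : (0 : ℝ) < 4 * M - i := by linarith
      have b0 := hpow (4 * M - i) (by omega)
      have b1 : ∀ p ∈ PP (Y ^ i) (Y ^ (i + 1)), ((S (Y ^ M) 1 (x / p)).card : ℝ) ≤
          1 / (p : ℝ) * ((1 + e) * W * (M / (4 * M - i))) := by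
        intro p hp
        obtain ⟨-, q2, q3⟩ := mem_PP.1 hp
        have c1 : Y ^ (4 * M - i) ≤ x / p := by
          rw [Nat.le_div_iff_mul_le q3.pos, hx]
          refine (Nat.mul_le_mul_left _ q2).trans ?_
          rw [← pow_add]; exact Nat.pow_le_pow_right Y1 (by omega)
        refine (card_one e0 hpi (by omega) (by omega) (Or.inl c1)).trans ?_
        rw [Nat.cast_pow, Real.log_pow, Nat.cast_sub (by omega)]
        push_cast
        have c2 := mul_le_mul_of_nonneg_left (Nat.cast_div_le (α := ℝ) (m := x) (n := p))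
          (show 0 ≤ 1 + e by linarith)
        refine (div_le_div_of_nonneg_right c2 (by positivity)).trans (le_of_eq ?_)
        rw [hW]
        field_simp
      refine (sum_le_sum b1).trans ?_
      rw [← sum_mul]
      refine (mul_le_mul_of_nonneg_right (hblk i hi) (by positivity)).trans ?_
      rw [mul_left_comm]
      refine mul_le_mul_of_nonneg_left ?_ (by positivity)
      have c3 : 1 / (i : ℝ) * (M / (4 * M - i)) = (1 / (i : ℝ) + 1 / (4 * M - i)) / 4 := by
        have d0 : (i : ℝ) ≠ 0 := by linarith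
        obtain ⟨u, hu⟩ : ∃ u : ℝ, u = 4 * M - i := ⟨_, rfl⟩
        have d1 : (M : ℝ) = (u + i) / 4 := by linarith
        rw [← hu] at i5 ⊢
        rw [d1]
        field_simp
      have c4 : (M : ℝ) / (4 * M - i) ≤ 1 / 2 := by
        rw [div_le_iff₀ i5]; linarith
      rw [add_mul, c3]
      nlinarith [sq_nonneg e]
    refine (sum_le_sum a1).trans ?_
    rw [← mul_sum, sum_add_distrib, ← sum_div, sum_const, Nat.card_Ico, nsmul_eq_mul]
    refine mul_le_mul_of_nonneg_left ?_ (by positivity)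
    have a2 := harm hM
    have a3 : ((2 * M + 1 - M : ℕ) : ℝ) = M + 1 := by
      rw [show 2 * M + 1 - M = M + 1 by omega]; push_cast; ring
    have a4 : (3 : ℝ) / M = 3 * e := by rw [he]; ring
    rw [a3]
    nlinarith
  -- four prime factors
  have s4 : ((S (Y ^ M) 4 x).card : ℝ) ≤ 64 * e * W := by
    have m1 : P2.ms (PP (Y ^ M) (Y ^ (2 * M + 1))) ≤ 4 := by
      unfold P2.ms
      rw [sum_blocks Y1 (by omega)]
      refine (sum_le_sum (g := fun _ => 2 * e) fun i hi => (hblk i hi).trans ?_).trans ?_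
      · have : 1 / (i : ℝ) ≤ 1 / M :=
          one_div_le_one_div_of_le (by linarith) (by exact_mod_cast (mem_Ico.1 hi).1)
        nlinarith
      · rw [sum_const, Nat.card_Ico, nsmul_eq_mul, show 2 * M + 1 - M = M + 1 by omega]
        push_cast
        nlinarith
    have m2 : P2.ms (PP (Y ^ M) (Y ^ (M + 1))) ≤ 2 * e := by
      have := hblk M (mem_Ico.2 ⟨le_rfl, by omega⟩)
      nlinarith
    have b0 := hpow M hM
    have c1 : ∀ t ≤ x, ((S (Y ^ M) 1 t).card : ℝ) ≤ 2 / (M * Real.log Y) * t := by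
      intro t _
      refine (card_one e0 hpi (u := Y ^ M) (by omega) (by omega) (Or.inr le_rfl)).trans ?_
      rw [Nat.cast_pow, Real.log_pow, div_mul_eq_mul_div]
      exact div_le_div_of_nonneg_right
        (mul_le_mul_of_nonneg_right (by linarith) (by positivity)) (by positivity)
    have c2 := card_step (by positivity) c1 m1 hx2
    have c3 := card_step (by positivity) c2 m1
      (hx2.trans_le (Nat.pow_le_pow_right (by omega) (by omega)))
    have c4 := card_step (by positivity) c3 m2 (by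
      refine lt_of_le_of_lt ?_ (Nat.pow_lt_pow_left (Nat.lt_succ_self _) (by omega))
      rw [hx, ← pow_mul]; exact Nat.pow_le_pow_right Y1 (by omega)) x le_rfl
    refine c4.trans (le_of_eq ?_)
    rw [hW]
    ring
  have s0 : 2 ≤ e * W := by
    have a1 : (Y : ℝ) ^ 2 ≤ x := by
      rw [hx]; exact_mod_cast Nat.pow_le_pow_right Y1 (by omega)
    have a2 : 2 * (M : ℝ) ^ 2 ≤ Y := by exact_mod_cast (show 2 * M ^ 2 ≤ Y by omega)
    have a3 := Real.log_le_sub_one_of_pos (show (0 : ℝ) < Y by linarith)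
    rw [hW, he, div_mul_div_comm, le_div_iff₀ (by positivity)]
    have a4 : 2 * (M : ℝ) ^ 2 * Real.log Y ≤ Y * Y :=
      mul_le_mul a2 (by linarith) hL.le (by linarith)
    nlinarith
  have l3 := Real.log_le_sub_one_of_pos (show (0 : ℝ) < 3 by norm_num)
  have fin : e + 2 * ((1 + e) * ((Real.log 3 + 3 * e) / 4 + e)) + 128 * e ≤
      Real.log 3 / 2 + ε := by nlinarith
  have hs := sum_le hM Y1
  have e3 : (Real.log 3 / 2 + ε) * (Y : ℝ) ^ (4 * M + 1) / (M * Real.log Y) =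
      (Real.log 3 / 2 + ε) * W := by rw [hW, hx]; push_cast; ring
  rw [e3]
  rw [← hx] at hs ⊢
  nlinarith [mul_le_mul_of_nonneg_right fin W0]

end Pool.Agent.P.MP_746f10_nt.PV
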