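import Pool.Agent.P.MP_746f10_nt.PV.Defs

/-! The weight seen from one form has small conductors and the expected mean. -/

set_option linter.unusedSectionVars false

namespace Pool.Agent.P.MP_746f10_nt.PV

open Finset

namespace FGP

variable {ι : Type} [Fintype ι] [DecidableEq ι] {a b : ι → ℕ} {K0 v k w s J R y e : ℕ}
  {ε Θ δ : ℝ}

lemma cop (hN : Nrm a b K0 v) (hvy : v ≤ y) (i : ι) (n : ℕ) :
    n.Coprime (a i * ∏ p ∈ PP 0 y, p) ↔ rough y n := by
  constructor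
  · intro h1 p hp hd
    by_contra h2
    exact hp.one_lt.ne' (Nat.eq_one_of_dvd_coprimes h1 hd
      ((dvd_prod_of_mem (fun p => p) (mem_PP.2 ⟨hp.pos, by omega, hp⟩)).mul_left _))
  · intro h1
    refine Nat.coprime_of_dvd fun p hp h2 h3 => ?_
    have h4 := h1 p hp h2
    rcases hp.dvd_mul.1 h3 with h5 | h5
    · have := Nat.le_of_dvd (hN.pos i) h5; have := hN.le i; omega
    · obtain ⟨q, hq, h6⟩ := (hp.prime.dvd_finsetProd_iff _).1 h5
      have := (Nat.prime_dvd_prime_iff_eq hp (PP_prime hq)).1 h6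
      have := (mem_PP.1 hq).2.1
      omega

lemma per (sv : SieveW (GP a w) (w ^ s) (k + 3) ε) (hwy : w ≤ y) (hRy : R ≤ y) (I : Finset ι)
    (n n' : ℕ) (h1 : n ≡ n' [MOD ∏ p ∈ PP 0 y, p]) :
    sv.U (fun p => ev a b univ p n) * Fw a b w s J R I n ^ 2 =
      sv.U (fun p => ev a b univ p n') * Fw a b w s J R I n' ^ 2 := by
  have key : ∀ (I : Finset ι) p, p.Prime → p ≤ y → ev a b I p n = ev a b I p n' := fun I p hp h2 =>
    ev_of_modEq _ (h1.of_dvd (dvd_prod_of_mem (fun p => p) (mem_PP.2 ⟨hp.pos, h2, hp⟩)))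
  congr 1
  · refine sum_congr rfl fun T hT => congrArg _ (prod_congr rfl fun p hp => ?_)
    have := mem_GP.1 (mem_powerset.1 hT hp)
    exact key _ p this.2.1 (this.1.trans hwy)
  · congr 1
    refine sum_congr rfl fun S hS => congrArg _ (prod_congr rfl fun x hx => ?_)
    have := mem_PP.1 (mem_product.1 (mem_powerset.1 hS hx)).1
    rw [BB, BB, key _ _ this.2.2 (this.2.1.trans hRy)]

lemma van (hN : Nrm a b K0 v) (sv : SieveW (GP a w) (w ^ s) (k + 3) ε) (hvw : v ≤ w) (hwR : w ≤ R)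
    (hsR : w ^ s ≤ R) (hRy : R ≤ y) (i : ι) [NeZero (a i * ∏ p ∈ PP 0 y, p)]
    (κ : DirichletCharacter ℂ (a i * ∏ p ∈ PP 0 y, p)) (hκ : R ^ 4 < κ.conductor) :
    ∑ m ∈ range (a i * ∏ p ∈ PP 0 y, p), (lft (a i) (b i) (fun n => sv.U (fun p => ev a b univ p n) *
      Fw a b w s J R {i}ᶜ n ^ 2) m : ℝ) * (starRingEnd ℂ) (κ m) = 0 := by
  set A := AA w R ({i}ᶜ : Finset ι) with hA
  set l := lam Prod.fst A (yI w s J R {i}ᶜ) with hl
  have e1 : ∀ m, lft (a i) (b i) (fun n => sv.U (fun p => ev a b univ p n) *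
      Fw a b w s J R {i}ᶜ n ^ 2) m = ∑ T ∈ (GP a w).powerset, ∑ S ∈ A.powerset, ∑ S' ∈ A.powerset,
      sv.up T * (l S * l S') * lft (a i) (b i)
        (fun n => (∏ p ∈ T, ev a b univ p n) * ∏ x ∈ S ∪ S', BB a b n x) m := by
    intro m
    unfold lft
    split_ifs
    · beta_reduce
      rw [Fw, FF_sq _ _ (BB_01 _), SieveW.U, sum_mul]
      simp only [mul_sum]
      exact sum_congr rfl fun T _ => sum_congr rfl fun S _ => sum_congr rfl fun S' _ => by ring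
    · simp
  simp only [e1, Complex.ofReal_sum, sum_mul]
  rw [sum_comm]
  refine sum_eq_zero fun T hT => ?_
  rw [sum_comm]
  refine sum_eq_zero fun S hS => ?_
  rw [sum_comm]
  refine sum_eq_zero fun S' hS' => ?_
  simp only [Complex.ofReal_mul, mul_assoc, ← mul_sum]
  by_cases h1 : sv.up T = 0
  · simp [h1]
  by_cases h2 : l S = 0
  · simp [h2]
  by_cases h3 : l S' = 0
  · simp [h3]
  have hW : S ∪ S' ⊆ A := union_subset (mem_powerset.1 hS) (mem_powerset.1 hS')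
  refine mul_eq_zero_of_right _ (mul_eq_zero_of_right _ (mul_eq_zero_of_right _
    (vanish (q := a i * ∏ p ∈ T ∪ (S ∪ S').image Prod.fst, p) (Nat.mul_dvd_mul_left _
    (prod_dvd_prod_of_subset _ _ _ (union_subset (fun p hp => ?_) fun p hp => ?_)))
    (lt_of_le_of_lt ?_ hκ) (lft_modEq (hN.pos i) fun n n' h4 => ?_))))
  · have := mem_GP.1 (mem_powerset.1 hT hp)
    exact mem_PP.2 ⟨this.2.1.pos, this.1.trans (hwR.trans hRy), this.2.1⟩
  · obtain ⟨x, hx, rfl⟩ := mem_image.1 hp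
    have := mem_PP.1 (mem_product.1 (hW hx)).1
    exact mem_PP.2 ⟨this.2.2.pos, this.2.1.trans hRy, this.2.2⟩
  · have a1 := (sv.supp_up T (mem_powerset.1 hT) h1).trans hsR
    have a2 := lam_supp AA_two (fun U hU => yI_supp hU) h2
    have a3 := lam_supp AA_two (fun U hU => yI_supp hU) h3
    have a4 := dd_union_le (π := Prod.fst) S' fun x hx => AA_two x (mem_powerset.1 hS hx)
    have a5 : ∏ p ∈ (S ∪ S').image Prod.fst, p ≤ dd Prod.fst (S ∪ S') :=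
      prod_image_le_of_one_le fun p hp => by
        obtain ⟨x, hx, rfl⟩ := mem_image.1 hp
        have := AA_two x (hW hx); omega
    have a6 : ∏ p ∈ T ∪ (S ∪ S').image Prod.fst, p ≤ (∏ p ∈ T, p) * ∏ p ∈ (S ∪ S').image Prod.fst, p := by
      rw [← prod_union_inter]
      exact Nat.le_mul_of_pos_right _ (prod_pos fun p hp =>
        (mem_GP.1 (mem_powerset.1 hT (mem_inter.1 hp).1)).2.1.pos)
    calc _ ≤ R * (R * (R * R)) := Nat.mul_le_mul ((hN.le i).trans (hvw.trans hwR))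
          (a6.trans (Nat.mul_le_mul a1 (a5.trans (a4.trans (Nat.mul_le_mul a2 a3)))))
      _ = _ := by ring
  · congr 1
    · exact prod_congr rfl fun p hp => ev_of_modEq _
        (h4.of_dvd (dvd_prod_of_mem (fun p => p) (mem_union_left _ hp)))
    · exact prod_congr rfl fun x hx => ev_of_modEq _
        (h4.of_dvd (dvd_prod_of_mem (fun p => p) (mem_union_right _ (mem_image_of_mem _ hx))))

lemma master (hN : Nrm a b K0 v) (hk : Fintype.card ι = k) (hk3 : 3 ≤ k) (hK : 2 * (k + 3) ≤ K0)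
    (hvw : v ≤ w) (hw : 3 ≤ w) (hwR : w ≤ R) (hRy : R ≤ y) (hZ : R ^ 2 ≤ w ^ e) (hew : 3 * e ≤ w)
    (hε : 0 ≤ ε) (hδ0 : 0 ≤ δ) (hΘ : Th w y ≤ Θ)
    (hδ : Θ ^ (5 * k + 9) * (3 * ε + 10 * e / w + 20 * (k : ℝ) ^ 2 / w) ≤ δ * (1 / 4) ^ k)
    {Ω : Finset ℕ} {μ : ℕ → ℝ} {X : ℝ} {D : ℕ}
    (h1 : HC a b Ω μ (GP a y) ∅ X (fun _ => 1) 0 (w ^ s * (R ^ 2 * D))) (hX : 0 ≤ X)
    (hμ : ∀ n ∈ Ω, 0 ≤ μ n) (sv : SieveW (GP a w) (w ^ s) (k + 3) ε)
    {θ : ℕ → ℝ} (hθ : ∀ n, rg a b w n ≤ θ n ∧ θ n ≤ sv.U (fun p => ev a b univ p n))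
    {I I2 : Finset ι} (hIc : Iᶜ.card ≤ 2) (hII : Disjoint I I2) (hI2 : I2.card ≤ 1)
    {c : Finset ℕ → ℝ} (hc : ∀ T, |c T| ≤ 1) (hcs : ∀ T ⊆ PP w y, c T ≠ 0 → ∏ p ∈ T, p ≤ D) :
    |∑ n ∈ Ω, μ n * θ n * th2 (PP w y) c (fun p => ev a b I2 p n) * Fw a b w s J R I n ^ 2 -
      X * Vk a w * th2 (PP w y) c (fun p => I2.card * (1 / p)) * JJ w s J R I| ≤
      δ * (X * Vk a w * (VV y / VV w) * JJ w s J R I) := by
  have hwy := hwR.trans hRy
  have e1 : ee ∅ (fun _ => 1) I2 = fun p : ℕ => (I2.card : ℝ) * (1 / p) := by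
    funext p; simp [ee]
  have h2 := hN.master hk hk3 hK hvw hw hwy le_rfl h1 le_rfl hX hμ sv hε
    (fun p _ => by simp; positivity) (fun _ _ => rfl) hθ s J hRy (I := I) (I2 := I2) (by simp) hIc
    (Or.inl (by simp)) hII (fun p _ => by
      have : (I2.card : ℝ) ≤ 4 := by exact_mod_cast (by omega : I2.card ≤ 4)
      rw [e1]
      exact ⟨by positivity, by simp only [mul_one_div]; gcongr⟩) hc hcs (e := e) hZ hew le_rfl hΘ
  rw [e1, prod_const_one, mul_one] at h2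
  refine h2.trans ?_
  have t1 := one_le_Th w y
  have t3 : 1 / Θ ≤ VV y / VV w := by
    rw [← VV_mul_Th hwy, div_mul_cancel_left₀ (VV_pos y).ne', ← one_div]; gcongr
  have : Nonempty ι := Fintype.card_pos_iff.1 (by omega)
  have t4 := hN.Vk_pos (w := w) (by omega) (by omega)
  have hΘ0 : 0 < Θ := by linarith
  have t5 := JJ_ge_four (κ := ι) (show 1 ≤ w by omega) s J (show 1 ≤ R by omega) I
  rw [hk] at t5
  have t6 : Θ ^ (5 * k + 8) * (3 * ε + 10 * e / w + 20 * (k : ℝ) ^ 2 / w) ≤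
      δ * ((1 / 4) ^ k / Θ) := by
    rw [← mul_div_assoc, le_div_iff₀ hΘ0]
    refine le_trans (le_of_eq ?_) hδ
    ring
  calc _ = X * Vk a w * (Θ ^ (5 * k + 8) * (3 * ε + 10 * e / w + 20 * (k : ℝ) ^ 2 / w)) := by ring
    _ ≤ X * Vk a w * (δ * ((1 / 4) ^ k / Θ)) := mul_le_mul_of_nonneg_left t6 (by positivity)
    _ = δ * (X * Vk a w * (1 / Θ) * (1 / 4) ^ k) := by ring
    _ ≤ _ := by
        have := t3.trans' (show 0 ≤ 1 / Θ by positivity)
        gcongr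

lemma c0 (hN : Nrm a b K0 v) (hk : Fintype.card ι = k) (hk3 : 3 ≤ k) (hK : 2 * (k + 3) ≤ K0)
    (hvw : v ≤ w) (hw : 3 ≤ w) (hwR : w ≤ R) (hRy : R ≤ y) (hZ : R ^ 2 ≤ w ^ e) (hew : 3 * e ≤ w)
    (hε : 0 ≤ ε) (hδ0 : 0 ≤ δ) (hΘ : Th w y ≤ Θ)
    (hδ : Θ ^ (5 * k + 9) * (3 * ε + 10 * e / w + 20 * (k : ℝ) ^ 2 / w) ≤ δ * (1 / 4) ^ k)
    (sv : SieveW (GP a w) (w ^ s) (k + 3) ε) (i : ι) :
    |(∑ m ∈ range (a i * ∏ p ∈ PP 0 y, p), lft (a i) (b i) (fun n => sv.U (fun p => ev a b univ p n) *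
      Fw a b w s J R {i}ᶜ n ^ 2) m * ri y m) / (a i * ∏ p ∈ PP 0 y, p).totient -
      Vk a w * JJ w s J R ({i}ᶜ : Finset ι) / (a i * VV w)| ≤
      δ * (Vk a w * JJ w s J R ({i}ᶜ : Finset ι) / (a i * VV w)) := by
  have hwy := hwR.trans hRy
  set P := ∏ p ∈ PP 0 y, p with hP
  have hP0 : 0 < P := prod_pos fun p hp => (PP_prime hp).pos
  have ha := hN.pos i
  have h1 := master (J := J) hN hk hk3 hK hvw hw hwR hRy hZ hew hε hδ0 hΘ hδ (D := P)
    (HC_exact (M := P) (fun p hp => (mem_GP.1 hp).2.1)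
    (fun p hp => dvd_prod_of_mem (fun p => p) (mem_filter.1 hp).1) _) (Nat.cast_nonneg _)
    (fun _ _ => zero_le_one) sv (θ := fun n => sv.U (fun p => ev a b univ p n) * ri w (a i * n + b i))
    (fun n => by
      have a1 : rg a b w n ≤ sv.U (fun p => ev a b univ p n) :=
        sv.le_up _ fun p _ => ⟨ev_nonneg _ _ _, ev_le_one _ _ _⟩
      have a2 := (rg_nonneg a b w n).trans a1
      refine ⟨?_, mul_le_of_le_one_right a2 (ri_bd _ _).2⟩
      by_cases h2 : rg a b w n = 0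
      · rw [h2]; exact mul_nonneg a2 (ri_bd _ _).1
      · rwa [ri, if_pos (hN.rough_of_rg h2 i), mul_one]) (I := {i}ᶜ) (I2 := {i}) (by simp)
    disjoint_compl_left (by simp) (c := fun T => (-1) ^ T.card) (by simp)
    fun T hT _ => Nat.le_of_dvd hP0 (prod_dvd_prod_of_subset _ _ _ fun p hp => by
      have := mem_PP.1 (hT hp); exact mem_PP.2 ⟨this.2.2.pos, this.2⟩)
  simp only [th2_exact, card_singleton, Nat.cast_one, one_mul, prod_PP_eq hwy] at h1
  have e1 : ((a i * P).totient : ℝ) = a i * P * VV y := by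
    rw [totient_real, VV]; push_cast; congr 2
    ext p
    rw [Nat.mem_primeFactors, mem_PP]
    refine ⟨fun h2 => ⟨h2.1.pos, not_lt.1 fun h3 => ?_, h2.1⟩, fun h2 => ⟨h2.2.2,
      (dvd_prod_of_mem (fun p => p) (mem_PP.2 h2)).mul_left _, by positivity⟩⟩
    exact (Nat.Prime.coprime_iff_not_dvd h2.1).1 ((cop hN (hvw.trans hwy) i p).2 fun q hq hd => by
      rwa [(Nat.prime_dvd_prime_iff_eq hq h2.1).1 hd]) h2.2.1
  rw [sum_lft (hN.lt i), e1]
  have ha' : (0 : ℝ) < a i := by exact_mod_cast ha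
  have hP' : (0 : ℝ) < P := by exact_mod_cast hP0
  have := VV_pos y
  have := VV_pos w
  have h2 := div_le_div_of_nonneg_right h1 (show 0 ≤ a i * P * VV y by positivity)
  rw [← abs_of_pos (show 0 < a i * P * VV y by positivity), ← abs_div,
    abs_of_pos (show 0 < a i * P * VV y by positivity), sub_div] at h2
  refine le_trans (le_of_eq ?_) (h2.trans (le_of_eq (by field_simp)))
  congr 2
  · congr 1; exact sum_congr rfl fun n _ => by rw [ri_split a b i hwy]; ring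
  · field_simp

end FGP

theorem pFG : S_FG := by
  intro ι _ _ a b K0 v k w s J R y e ε Θ δ sv i hN hk hk3 hK hvw hw hwR hsR hRy hZ hew hε hδ0 hΘ hδ
  have hwy := hwR.trans hRy
  have : NeZero (a i * ∏ p ∈ PP 0 y, p) :=
    ⟨(Nat.mul_pos (hN.pos i) (prod_pos fun p hp => (PP_prime hp).pos)).ne'⟩
  refine ⟨_, ⟨FGP.cop hN (hvw.trans hwy) i, fun m => ?_,
    lft_modEq (hN.pos i) (FGP.per sv hwy hRy _), FGP.van hN sv hvw hwR hsR hRy i, rfl⟩,
    FGP.c0 hN hk hk3 hK hvw hw hwR hRy hZ hew hε hδ0 hΘ hδ sv i⟩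
  unfold lft
  split_ifs
  exacts [mul_nonneg (sv.U_nonneg fun p _ => ⟨ev_nonneg _ _ _, ev_le_one _ _ _⟩) (sq_nonneg _), le_rfl]

end Pool.Agent.P.MP_746f10_nt.PV
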