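import Pool.Agent.P.MP_746f10_nt.PV.Defs
import Pool.Agent.P.MP_746f10_nt.UC.Win

/-! From the values of a form back to its argument. -/

namespace Pool.Agent.P.MP_746f10_nt.PV

open Finset
open scoped ArithmeticFunction.vonMangoldt
open ArithmeticFunction (vonMangoldt_nonneg vonMangoldt_le_log vonMangoldt_ne_zero_iff)

namespace FirstP

theorem sqi_one {y m : ℕ} (h1 : Λ m ≠ 0) (h2 : ri y m ≠ 0) (h3 : ¬ m.Prime) : sqi y m = 1 := by
  obtain ⟨p, k, hp, hk, rfl⟩ := (isPrimePow_nat_iff _).1 (vonMangoldt_ne_zero_iff.1 h1)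
  have hr : rough y (p ^ k) := by
    by_contra c
    exact h2 (if_neg c)
  have hk2 : 2 ≤ k := by
    by_contra c
    obtain rfl : k = 1 := by omega
    exact h3 (by rwa [pow_one])
  exact if_pos ⟨p, hp, hr p hp (dvd_pow_self p hk.ne'), pow_dvd_pow p hk2⟩

theorem lt_of_pow {x N m : ℕ} (h : x ^ 4000 ≤ N ^ 3999) (hm : (N : ℝ) ^ (3999 / 4000 : ℝ) < m) :
    x < m := by
  have h1 : ((N : ℝ) ^ (3999 / 4000 : ℝ)) ^ 4000 = (N : ℝ) ^ 3999 := by
    rw [← Real.rpow_natCast, ← Real.rpow_mul (Nat.cast_nonneg _), ← Real.rpow_natCast]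
    norm_num
  have h2 : (x : ℝ) ^ 4000 ≤ ((N : ℝ) ^ (3999 / 4000 : ℝ)) ^ 4000 := by
    rw [h1]
    exact_mod_cast h
  have h3 := le_of_pow_le_pow_left₀ (by norm_num) (by positivity) h2
  exact_mod_cast h3.trans_lt hm

theorem sum_div_le {a b N : ℕ} (s : Finset ℕ) (P : ℕ → ℝ) (hP : ∀ n, 0 ≤ P n) :
    ∑ m ∈ range N, (if m % a = b ∧ m / a ∈ s then P (m / a) else 0) ≤ ∑ n ∈ s, P n := by
  rw [← sum_filter, ← sum_image (g := fun m => m / a) (f := P)]
  · refine sum_le_sum_of_subset_of_nonneg (fun n hn => ?_) fun n _ _ => hP n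
    obtain ⟨m, hm, rfl⟩ := mem_image.1 hn
    exact (mem_filter.1 hm).2.2
  · intro m hm m' hm' h
    have h1 := (mem_filter.1 hm).2.1
    have h2 := (mem_filter.1 hm').2.1
    dsimp only at h
    rw [← Nat.div_add_mod m a, ← Nat.div_add_mod m' a, h, h1, h2]

end FirstP

open FirstP

theorem pFirst : S_First := by
  intro φ δ H B a b v N N1 N2 y f g hφ hb hv hN hy hN1 hp hN2 hf hg hB hgf
  have hL := Real.log_natCast_nonneg N
  have ha : (0 : ℝ) ≤ a := Nat.cast_nonneg _
  set P : ℕ → ℝ := fun n => (if (a * n + b).Prime then 1 else 0) * (1 / (n : ℝ) * f n) with hPd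
  have hP : ∀ n, 0 ≤ P n := fun n => mul_nonneg (by split_ifs <;> norm_num)
    (mul_nonneg (by positivity) (hf n))
  have key : ∀ m ∈ range N, a * (Λ m * ri y m * UC.wt φ (Real.log N) m * lft a b g m) ≤
      Real.log N * (if m % a = b ∧ m / a ∈ Ico N1 N2 then P (m / a) else 0) +
        a * B * Real.log N * (sqi y m / m) := by
    intro m hm
    have hmN := mem_range.1 hm
    have p1 : 0 ≤ Real.log N * (if m % a = b ∧ m / a ∈ Ico N1 N2 then P (m / a) else 0) :=
      mul_nonneg hL (by split_ifs; exacts [hP _, le_rfl])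
    have p2 : 0 ≤ a * B * Real.log N * (sqi y m / m) :=
      mul_nonneg (by positivity) (div_nonneg (sqi_nonneg _ _) (Nat.cast_nonneg _))
    by_cases h0 : Λ m * ri y m * UC.wt φ (Real.log N) m * lft a b g m = 0
    · rw [h0, mul_zero]
      exact add_nonneg p1 p2
    simp only [mul_eq_zero, not_or] at h0
    obtain ⟨⟨⟨h1, h2⟩, h3⟩, h4⟩ := h0
    have h5 : m % a = b := by
      by_contra c
      exact h4 (if_neg c)
    have h6 : a * (m / a) + b = m := by rw [← h5, Nat.div_add_mod]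
    have h7 := lt_of_pow hp (UC.WinP.wt_supp hφ hN h3).1
    have h8 : N1 ≤ m / a := by
      by_contra c
      have := Nat.mul_le_mul hv (show m / a + 1 ≤ N1 by omega)
      rw [Nat.mul_succ] at this
      omega
    have h9 : m / a < N := (Nat.div_le_self _ _).trans_lt hmN
    have hw := UC.WinP.wt_bd hφ (Real.log N) m
    have hr := ri_bd y m
    have hl : lft a b g m = g (m / a) := if_pos h5
    have hm0 : (0 : ℝ) < m := by exact_mod_cast (by omega : 0 < m)
    have hΛ : Λ m ≤ Real.log N :=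
      vonMangoldt_le_log.trans (Real.log_le_log hm0 (by exact_mod_cast hmN.le))
    have hT0 : 0 ≤ Λ m * ri y m * UC.wt φ (Real.log N) m :=
      mul_nonneg (mul_nonneg vonMangoldt_nonneg hr.1) hw.1
    have hT : Λ m * ri y m * UC.wt φ (Real.log N) m ≤ Real.log N * (1 / m) :=
      mul_le_mul ((mul_le_of_le_one_right vonMangoldt_nonneg hr.2).trans hΛ) hw.2 hw.1 hL
    rw [hl]
    by_cases hq : m.Prime
    · refine le_add_of_le_of_nonneg ?_ p2
      rw [if_pos ⟨h5, mem_Ico.2 ⟨h8, by omega⟩⟩, hgf _ h8 (h6.symm ▸ hq), hPd]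
      dsimp only
      rw [if_pos (h6.symm ▸ hq), one_mul]
      have hn : (0 : ℝ) < (m / a : ℕ) := by exact_mod_cast (by omega : 0 < m / a)
      have e : (a : ℝ) * (1 / m) ≤ 1 / (m / a : ℕ) := by
        rw [mul_one_div, div_le_div_iff₀ hm0 hn, one_mul]
        exact_mod_cast Nat.mul_div_le m a
      calc _ ≤ a * (Real.log N * (1 / m) * f (m / a)) :=
            mul_le_mul_of_nonneg_left (mul_le_mul_of_nonneg_right hT (hf _)) ha
        _ = Real.log N * (a * (1 / m) * f (m / a)) := by ring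
        _ ≤ _ := mul_le_mul_of_nonneg_left (mul_le_mul_of_nonneg_right e (hf _)) hL
    · refine le_add_of_nonneg_of_le p1 ?_
      rw [sqi_one h1 h2 hq]
      calc _ ≤ a * (Real.log N * (1 / m) * B) :=
            mul_le_mul_of_nonneg_left ((mul_le_mul_of_nonneg_left (hg _ h8 h9) hT0).trans
              (mul_le_mul_of_nonneg_right hT hB)) ha
        _ = _ := by ring
  rw [mul_sum]
  refine (sum_le_sum key).trans ?_
  rw [sum_add_distrib, ← mul_sum, ← mul_sum]
  refine add_le_add (mul_le_mul_of_nonneg_left (sum_div_le _ P hP) hL)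
    (mul_le_mul_of_nonneg_left (le_trans ?_ (sum_sqi_div_le hy N)) (by positivity))
  rw [range_eq_Ico, sum_eq_sum_Ico_succ_bot (by omega), Nat.cast_zero, div_zero, zero_add]
  exact sum_le_sum_of_subset_of_nonneg Ico_subset_Icc_self fun m _ _ =>
    div_nonneg (sqi_nonneg _ _) (Nat.cast_nonneg _)

end Pool.Agent.P.MP_746f10_nt.PV
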