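import Pool.Agent.P.MP_746f10_nt.PV.Defs
import Pool.Agent.P.MP_0ad054_nt.An.SW
import Pool.Agent.P.MP_a14ce1_nt.Ch.HTwo

/-! The summatory function of the Liouville function. -/

namespace Pool.Agent.P.MP_746f10_nt.PV

open Finset Complex Pool.Agent.P.MP_0ad054_nt
open scoped ArithmeticFunction.Moebius

namespace LiouP

theorem LS_le {f : ℕ → ℂ} (hf : ∀ n, ‖f n‖ ≤ 1) {s : ℂ} (hs : 1 < s.re) :
    ‖LSeries f s‖ ≤ 1 + 1 / (s.re - 1) := by
  have h1 : LSeriesSummable f s :=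
    LSeriesSummable_of_bounded_of_one_lt_re (m := 1) (fun n _ => hf n) hs
  have h2 : Summable fun n : ℕ => 1 / ((n : ℝ) + 1) ^ s.re := by
    exact_mod_cast (summable_nat_add_iff 1).mpr (Real.summable_one_div_nat_rpow.mpr hs)
  have h3 := ZetaAsymptotics.zeta_limit_aux1 hs
  have h4 : 0 ≤ ZetaAsymptotics.termTSum s.re :=
    tsum_nonneg fun n => ZetaAsymptotics.term_nonneg _ _
  unfold LSeries
  rw [Summable.tsum_eq_zero_add h1, LSeries.term_zero, zero_add]
  refine (tsum_of_norm_bounded h2.hasSum fun n => ?_).trans (by nlinarith)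
  rw [LSeries.norm_term_eq, if_neg (Nat.succ_ne_zero n)]
  push_cast
  exact div_le_div_of_nonneg_right (hf _) (by positivity)

theorem ne_one {s : ℂ} (hs : 1 < s.re) : s ≠ 1 := by
  rintro rfl
  simp at hs

theorem quot_eq {s : ℂ} (hs : 1 < s.re) : (s - 1) / An.Zf s = (riemannZeta s)⁻¹ := by
  rw [An.SWP.Zf_eq (ne_one hs), div_mul_eq_div_div, div_self (sub_ne_zero.2 (ne_one hs)), one_div]

theorem zeta_le {s : ℂ} (hs : 3 / 2 ≤ s.re) : ‖riemannZeta s‖ ≤ 3 := by
  have h1 : 1 < s.re := by linarith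
  rw [← LSeries_one_eq_riemannZeta h1]
  refine (LS_le (fun n => by simp) h1).trans ?_
  have : 1 / (s.re - 1) ≤ 2 := by
    rw [div_le_iff₀ (by linarith)]; linarith
  linarith

theorem inv_le {s : ℂ} (hs : 1 < s.re) : ‖(s - 1) / An.Zf s‖ ≤ 1 + 1 / (s.re - 1) := by
  have h := LSeries_one_mul_Lseries_moebius hs
  rw [LSeries_one_eq_riemannZeta hs] at h
  rw [quot_eq hs, inv_eq_of_mul_eq_one_right h]
  refine LS_le (fun n => ?_) hs
  rw [Complex.norm_intCast]
  exact_mod_cast ArithmeticFunction.abs_moebius_le_one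

theorem series {s : ℂ} (hs : 1 < s.re) :
    riemannZeta (2 * s) * ((s - 1) / An.Zf s) = LSeries (fun n => (lv n : ℂ)) s := by
  have h := MP_a14ce1_nt.Ch.HTwo.prod_eq (1 : DirichletCharacter ℂ 1) hs
  have hs2 : 1 < (2 * s).re := by simp; linarith
  have e1 : MP_a14ce1_nt.Ch.lc (1 : DirichletCharacter ℂ 1) = fun n => (lv n : ℂ) := by
    funext n
    unfold MP_a14ce1_nt.Ch.lc
    rw [Subsingleton.elim ((n : ℕ) : ZMod 1) 1, map_one, mul_one]
    rfl
  rw [e1, DirichletCharacter.modOne_eq_one, DirichletCharacter.modOne_eq_one,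
    LSeries_one_eq_riemannZeta hs, LSeries_one_eq_riemannZeta hs2] at h
  rw [quot_eq hs, ← h, mul_inv_cancel_right₀ (riemannZeta_ne_zero_of_one_lt_re hs)]

/-- The bound for the inverse of zeta in the zero free region. -/
theorem inv_bound {s : ℂ} {d : ℝ} (d0 : 0 < d) (d1 : d ≤ 1) (h1 : 1 - d ≤ s.re)
    (hZ : ∀ w : ℂ, w.im = s.im → 1 - d ≤ w.re → w.re ≤ 2 →
      An.Zf w ≠ 0 ∧ ‖deriv An.Zf w / An.Zf w‖ ≤ 1 / d) :
    ‖(s - 1) / An.Zf s‖ ≤ 2 * Real.exp 2 / d := by
  have e1 : 1 ≤ Real.exp 2 := Real.one_le_exp (by norm_num)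
  have k1 : ∀ w : ℂ, 1 + d ≤ w.re → ‖(w - 1) / An.Zf w‖ ≤ 2 / d := fun w hw => by
    refine (inv_le (by linarith)).trans ?_
    have a1 : 1 / (w.re - 1) ≤ 1 / d := one_div_le_one_div_of_le d0 (by linarith)
    have a2 : 1 ≤ 1 / d := by rw [le_div_iff₀ d0]; linarith
    have a3 : 2 / d = 1 / d + 1 / d := by ring
    linarith
  rcases le_total (1 + d) s.re with h2 | h2
  · refine (k1 s h2).trans (div_le_div_of_nonneg_right (by linarith) d0.le)
  set L : ℝ := 1 + d - s.re with hL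
  have hd : ∀ x : ℝ, HasDerivAt (fun x : ℝ => An.Zf (s + x)) (deriv An.Zf (s + x)) x := fun x => by
    have a1 : HasDerivAt (fun z : ℂ => An.Zf (s + z)) (deriv An.Zf (s + x)) x :=
      (An.SWP.differentiable_Zf (s + x)).hasDerivAt.comp_const_add s x
    exact a1.comp_ofReal
  have g := norm_le_gronwallBound_of_norm_deriv_right_le (a := 0) (b := L) (K := 1 / d) (ε := 0)
    (δ := ‖An.Zf s‖) (f := fun x : ℝ => An.Zf (s + x))
    (fun x _ => (hd x).continuousAt.continuousWithinAt) (fun x _ => (hd x).hasDerivWithinAt)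
    (by simp) (fun x hx => by
      obtain ⟨a1, a2⟩ := hZ (s + x) (by simp) (by simp; linarith [hx.1]) (by simp; linarith [hx.2])
      rw [norm_div, div_le_iff₀ (norm_pos_iff.2 a1)] at a2
      linarith) L ⟨by linarith, le_rfl⟩
  rw [gronwallBound_ε0, sub_zero] at g
  have g2 : Real.exp (1 / d * L) ≤ Real.exp 2 := by
    refine Real.exp_le_exp.2 ?_
    rw [one_div_mul_eq_div, div_le_iff₀ d0]
    linarith
  have z0 := norm_pos_iff.2 (hZ s rfl h1 (by linarith)).1
  have z1 := norm_pos_iff.2 (hZ (s + L) (by simp) (by simp; linarith) (by simp; linarith)).1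
  have k2 := k1 (s + L) (by simp; linarith)
  have k3 : ‖s - 1‖ ≤ ‖s + L - 1‖ := by
    refine (sq_le_sq₀ (norm_nonneg _) (norm_nonneg _)).1 ?_
    rw [Complex.sq_norm, Complex.sq_norm, normSq_apply, normSq_apply]
    simp only [sub_re, add_re, one_re, ofReal_re, sub_im, add_im, one_im, ofReal_im]
    nlinarith
  rw [norm_div, div_le_iff₀ z1] at k2
  rw [norm_div, div_le_iff₀ z0]
  calc ‖s - 1‖ ≤ 2 / d * ‖An.Zf (s + L)‖ := k3.trans k2
    _ ≤ 2 / d * (‖An.Zf s‖ * Real.exp 2) :=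
      mul_le_mul_of_nonneg_left (g.trans (mul_le_mul_of_nonneg_left g2 z0.le)) (by positivity)
    _ = _ := by ring

end LiouP

open LiouP in
theorem pLiou (hZ : An.S_Zfree) (hT : An.S_Tauber) : S_Liou := by
  have he0 := An.SWP.ex_pos 3 0
  obtain ⟨c, hc, hc', -, hZ⟩ := hZ (An.SWP.ex 3 0) he0
  obtain ⟨C, hC, h⟩ := An.SWP.key hT 3 0 c (6 * Real.exp 2 / c) hc (by linarith) (by positivity)
  refine ⟨C, hC, fun X hX => ?_⟩
  have h1 := h X 1 (fun n => (lv n : ℂ)) (fun s => riemannZeta (2 * s) * ((s - 1) / An.Zf s)) hX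
    le_rfl (by simp) (fun n hn => ?_) (fun s hs => series hs) fun s h1 h2 => ?_
  · refine le_trans (le_of_eq ?_) h1
    rw [← Real.norm_eq_abs, ← norm_real]
    congr 1
    simp
  · have : ‖(lv n : ℂ)‖ = 1 := by simp [lv]
    have := Real.log_natCast_nonneg n
    linarith
  · have hc1 := An.SWP.one_le_cond le_rfl s
    have hp : 0 < An.cond 1 s ^ (-An.SWP.ex 3 0) := Real.rpow_pos_of_pos (by linarith) _
    have hp1 : An.cond 1 s ^ (-An.SWP.ex 3 0) ≤ 1 :=
      Real.rpow_le_one_of_one_le_of_nonpos hc1 (by linarith)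
    have e1 : An.cond 1 s ^ An.SWP.ex 3 0 / c = 1 / (c * An.cond 1 s ^ (-An.SWP.ex 3 0)) := by
      rw [Real.rpow_neg (by linarith)]
      have : 0 < An.cond 1 s ^ An.SWP.ex 3 0 := Real.rpow_pos_of_pos (by linarith) _
      field_simp
    have d1 : c * An.cond 1 s ^ (-An.SWP.ex 3 0) ≤ 1 / 4 := by nlinarith
    have r2 : 3 / 2 ≤ (2 * s).re := by simp; linarith
    have b1 := inv_bound (s := s) (mul_pos hc hp) (by linarith) h1 fun w hw a1 a2 => by
      have e2 : An.cond 1 w = An.cond 1 s := by unfold An.cond; rw [hw]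
      have := hZ w (by rw [e2]; exact a1) a2
      rwa [e2, e1] at this
    refine ⟨?_, ?_⟩
    · refine DifferentiableAt.mul ?_ (DifferentiableAt.div (by fun_prop)
        (An.SWP.differentiable_Zf s) (hZ s h1 h2).1)
      exact (differentiableAt_riemannZeta (ne_one (by linarith))).comp s (by fun_prop)
    · rw [norm_mul]
      calc _ ≤ 3 * (2 * Real.exp 2 / (c * An.cond 1 s ^ (-An.SWP.ex 3 0))) :=
            mul_le_mul (zeta_le r2) b1 (norm_nonneg _) (by norm_num)
        _ = 6 * Real.exp 2 * (1 / (c * An.cond 1 s ^ (-An.SWP.ex 3 0))) := by ring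
        _ = _ := by rw [← e1]; ring

end Pool.Agent.P.MP_746f10_nt.PV
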