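import Pool.Agent.P.MP_746f10_nt.PV.Defs
import Pool.Agent.P.MP_746f10_nt.Cel.Norm
import Pool.Agent.P.MP_746f10_nt.Lval

/-! The case distinction on the exceptional character and the reduction to boxes. -/

namespace Pool.Agent.P.MP_746f10_nt.PV

open Finset

namespace MainVP

/-- the conclusion for one tuple -/
def Cc (m H A : ℕ) {k : ℕ} (J : Finset (Fin k)) (t : Fin k → ℕ × ℕ) : Prop :=
  ∃ (n : ℕ) (I : Finset (Fin k)), H ≤ n ∧ n ≤ H ^ A ∧ I ⊆ J ∧ I.card = m + 1 ∧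
    Set.InjOn t I ∧ (∀ i ∈ I, ((t i).1 * n + (t i).2).Prime) ∧
    ∀ i, ((t i).1 * n + (t i).2).primeFactorsList.length ≤ 2

/-- the hypothesis on the leading coefficients -/
def St (m G : ℕ) {k : ℕ} (J : Finset (Fin k)) (t : Fin k → ℕ × ℕ) : Prop :=
  ∀ p : ℕ, p.Prime → G < p → 183 * m < 50 * (J.filter fun i => ¬ p ∣ (t i).1).card

theorem fin {m H A k K D n0 n w u E : ℕ} {J J' : Finset (Fin k)} (z : Fin k × Fin K → ℕ × ℕ)
    (hz : Function.Injective z) (hJ : J' ⊆ J) (hH : 2 ≤ H) (hn0 : n0 < D)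
    (hw : 2 * (H * (D * D)) ≤ w) (hE : w ≤ H ^ E) (hA : E * (u + 2) ≤ A) (h1 : w ≤ n)
    (h2 : n ≤ w ^ u)
    (h : GoodV m J' (fun l => (z l).1 * (D * D)) (fun l => (z l).1 * n0 + (z l).2) n) :
    ∃ σ : Fin k → Fin K, Cc m H A J fun i => z (i, σ i) := by
  obtain ⟨h3, I, hIJ, hI, hp⟩ := h
  obtain ⟨I', hI', hcard⟩ := exists_subset_card_eq (show m + 1 ≤ I.card from hI)
  have e : ∀ l, (z l).1 * (D * D * n + n0) + (z l).2 =
      (z l).1 * (D * D) * n + ((z l).1 * n0 + (z l).2) := fun l => by ring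
  have hs : ∀ i : Fin k, ∃ s : Fin K,
      (i ∈ I → ((z (i, s)).1 * (D * D * n + n0) + (z (i, s)).2).Prime) ∧
      ((z (i, s)).1 * (D * D * n + n0) + (z (i, s)).2).primeFactorsList.length ≤ 2 := by
    intro i
    by_cases hi : i ∈ I
    · obtain ⟨s, hs⟩ := hp i hi
      have hs' : ((z (i, s)).1 * (D * D * n + n0) + (z (i, s)).2).Prime := by
        rw [e]; exact hs
      exact ⟨s, fun _ => hs', by rw [Nat.primeFactorsList_prime hs']; simp⟩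
    · obtain ⟨s, hs⟩ := h3 i
      exact ⟨s, fun h => (hi h).elim, by rw [e]; exact hs⟩
  choose σ hσ using hs
  have hD : 0 < D := by omega
  have hDD : D ≤ D * D := Nat.le_mul_of_pos_left _ hD
  have a1 : D * D ≤ H * (D * D) := Nat.le_mul_of_pos_left _ (by omega)
  have a2 : H ≤ H * (D * D) := Nat.le_mul_of_pos_right _ (by omega)
  have a3 : n ≤ D * D * n := Nat.le_mul_of_pos_left _ (by omega)
  refine ⟨σ, D * D * n + n0, I', by omega, ?_, hI'.trans (hIJ.trans hJ), hcard,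
    fun i _ j _ h => congrArg Prod.fst (hz h), fun i hi => (hσ i).1 (hI' hi), fun i => (hσ i).2⟩
  have a4 : 1 ≤ w ^ u := Nat.one_le_pow _ _ (by omega)
  calc D * D * n + n0 ≤ D * D * (n + 1) := by rw [mul_add, mul_one]; omega
    _ ≤ w * (w * w ^ u) := by
        refine Nat.mul_le_mul (by omega) ?_
        have : 2 * w ^ u ≤ w * w ^ u := Nat.mul_le_mul_right _ (by omega)
        omega
    _ = w ^ (u + 2) := by ring
    _ ≤ (H ^ E) ^ (u + 2) := Nat.pow_le_pow_left hE _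
    _ ≤ H ^ A := by rw [← pow_mul]; exact Nat.pow_le_pow_right (by omega) hA

theorem St.card {m G k : ℕ} {J : Finset (Fin k)} {t : Fin k → ℕ × ℕ} (h : St m G J t) :
    183 * m < 50 * J.card := by
  obtain ⟨p, h1, hp⟩ := Nat.exists_infinite_primes (G + 1)
  exact (h p hp h1).trans_le (Nat.mul_le_mul_left _ (card_filter_le _ _))

/-- the choice of the cells and of the shift in the presence of an exceptional character -/
theorem choice (h4 : S_Dich) (h5 : S_Shift) {m G k K D : ℕ} {J : Finset (Fin k)}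
    (z : Fin k × Fin K → ℕ × ℕ) (hK : 0 < K) (hadm : Cel.Adm (fun l => (z l).1) fun l => (z l).2)
    (hst : ∀ σ : Fin k → Fin K, St m G J fun i => z (i, σ i)) (χ : RC) (hD : 0 < D)
    (hr : χ.r ∣ D) {θ : ℝ} (hθ : |θ| ≤ 1)
    (hdet : Det χ (8 * ∏ p ∈ PP 0 (G + 4000 * (k * K) + 2), p) → |θ| ≤ 1 / 2000) :
    ∃ J' ⊆ J, ∃ n0 < D, 183 * m < 50 * J'.card ∧ (∀ l, ((z l).1 * n0 + (z l).2).Coprime D) ∧
      -(1 / 2000 * ((J' ×ˢ (univ : Finset (Fin K))).card : ℝ)) ≤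
        ∑ x ∈ J' ×ˢ (univ : Finset (Fin K)), θ * χ.χ ((z x).1 * n0 + (z x).2) := by
  rcases h4 χ (G + 4000 * (k * K) + 2) (by omega) with ⟨p, u, hp, hB, hpr, hu1, hu2, hu3⟩ | hd
  · have hs : ∀ i : Fin k, ∃ s : Fin K, ¬ p ∣ (z (i, s)).1 → ∀ s', ¬ p ∣ (z (i, s')).1 := by
      intro i
      by_cases h : ∃ s, p ∣ (z (i, s)).1
      · obtain ⟨s, hs⟩ := h
        exact ⟨s, fun h => (h hs).elim⟩
      · exact ⟨⟨0, hK⟩, fun _ s' h' => h ⟨s', h'⟩⟩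
    choose σ hσ using hs
    obtain ⟨n0, hn0, hco, hsum⟩ := h5 (Fin k × Fin K) (fun l => (z l).1) (fun l => (z l).2)
      ((J.filter fun i => ¬ p ∣ (z (i, σ i)).1) ×ˢ (univ : Finset (Fin K))) χ D p u θ (1 / 2000)
      hadm hD hr hp hpr hu1 hu2 hu3
      (fun x hx => hσ x.1 (mem_filter.1 (mem_product.1 hx).1).2 x.2) hθ (by norm_num)
      (by norm_num) (by
        have h1 : ((4000 * (k * K) : ℕ) : ℝ) ≤ p := by exact_mod_cast (by omega)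
        rw [Fintype.card_prod, Fintype.card_fin, Fintype.card_fin]
        push_cast at h1 ⊢
        linarith)
    exact ⟨_, filter_subset _ _, n0, hn0, hst σ p hp (by omega), hco, hsum⟩
  · obtain ⟨n0, hn0, hco⟩ := Cel.Norm.exists_shift _ _ hD hadm
    refine ⟨J, Subset.rfl, n0, hn0, (hst fun _ => ⟨0, hK⟩).card, hco, ?_⟩
    have h1 := hdet hd
    rw [mul_comm, ← mul_neg, ← nsmul_eq_mul]
    refine card_nsmul_le_sum _ _ _ fun x _ => ?_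
    refine (abs_le.1 ?_).1
    rw [abs_mul]
    exact (mul_le_of_le_one_right (abs_nonneg _) (χ.abs_le _)).trans h1

end MainVP

open MainVP in
theorem pMainV (h1 : S_Norm3) (h2 : P2.S_RedG) (h3 : S_CellV) (h4 : S_Dich) (h5 : S_Shift) :
    S_MainV := by
  intro k m J
  obtain ⟨c, C, hc, hC, hL⟩ := ls2
  obtain ⟨η2, hη2, huniq⟩ := hL.uniq hc hC
  obtain ⟨K2, K02, e2, u2, w02, θ2, hK2, he2, -, hθ2, hθ2', hcell2⟩ := h3 m k c C η2 hc hC hL hη2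
  have hCM := one_le_CM
  have hec : 1 ≤ 2 * e2 * 2 * c := Nat.mul_pos (by omega) hc
  have hec' : (0 : ℝ) < CM * (2 * e2 * 2 * c : ℕ) := by
    have : (0 : ℝ) < (2 * e2 * 2 * c : ℕ) := by exact_mod_cast hec
    positivity
  obtain ⟨K1, K01, e1, u1, w01, θ1, hK1, he1, -, -, -, hcell1⟩ :=
    h3 m k c C (η2 / (CM * (2 * e2 * 2 * c : ℕ))) hc hC hL (div_pos hη2 hec')
  obtain ⟨C0, c0, hC0, hc0, hred⟩ := h2 k (K1 + K2) (by omega)
  obtain ⟨A1, hA1⟩ := h1 (k * K1) K01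
  obtain ⟨A2, hA2⟩ := h1 (k * K2) K02
  refine ⟨C0, c0, hC0, hc0, fun G => ?_⟩
  obtain ⟨w3, hw3⟩ := hθ2' (8 * ∏ p ∈ PP 0 (G + 4000 * (k * K2) + 2), p)
    (Nat.mul_pos (by norm_num) (prod_pos fun p hp => (PP_prime hp).pos))
  obtain ⟨A0, hA0⟩ : ∃ A0, A0 = 2 + 2 * A1 + 2 * A2 + w01 + w02 + w3 := ⟨_, rfl⟩
  obtain ⟨A, hA⟩ : ∃ A, A = A0 * (u1 + 2) + A0 * e1 * 2 * c * 2 * (u2 + 2) := ⟨_, rfl⟩
  refine ⟨A, fun H K F hH hK hF hb => ?_⟩
  have key := hred (fun t => St m G J t → Cc m H A J t) K F hK hF fun x hx hxF hadm => ?_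
  · refine le_of_eq_of_le ?_ key
    congr 2
    ext t
    simp only [Set.mem_ofPred_eq, Classical.not_imp]
    rfl
  by_cases hst : ∀ σ : Fin k → Fin (K1 + K2), St m G J fun i => x (i, σ i)
  swap
  · obtain ⟨σ, hσ⟩ := not_forall.1 hst
    exact ⟨σ, fun h => (hσ h).elim⟩
  have hpow : ∀ {i j : ℕ}, i ≤ j → H ^ i ≤ H ^ j := fun h => Nat.pow_le_pow_right (by omega) h
  have hsm : ∀ {j : ℕ}, j ≤ A0 → j ≤ H ^ A0 := fun h =>
    (Nat.lt_pow_self (by omega : 1 < H)).le.trans (hpow h)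
  have hDw : ∀ {D B : ℕ}, D ≤ H ^ B → 2 + 2 * B ≤ A0 → 2 * (H * (D * D)) ≤ H ^ A0 := by
    intro D B hD hB
    calc 2 * (H * (D * D)) ≤ H * (H * (H ^ B * H ^ B)) :=
          Nat.mul_le_mul hH (Nat.mul_le_mul_left _ (Nat.mul_le_mul hD hD))
      _ = H ^ (2 + 2 * B) := by ring
      _ ≤ _ := hpow hB
  have hinj : ∀ {K' : ℕ} (f : Fin K' → Fin (K1 + K2)), Function.Injective f →
      Function.Injective fun l : Fin k × Fin K' => x (l.1, f l.2) := by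
    intro K' f hf l l' h
    have h' := Prod.ext_iff.1 (hx h)
    exact Prod.ext h'.1 (hf h'.2)
  have hadm' : ∀ {K' : ℕ} (f : Fin K' → Fin (K1 + K2)),
      Cel.Adm (fun l : Fin k × Fin K' => (x (l.1, f l.2)).1) fun l => (x (l.1, f l.2)).2 :=
    fun f p hp => (hadm p hp).imp fun n hn l => hn (l.1, f l.2)
  have hbd : ∀ l : Fin k × Fin (K1 + K2), 0 < (x l).1 ∧ (x l).1 ≤ H ∧ (x l).2 ≤ H :=
    fun l => hb l.1 _ (hxF l)
  obtain ⟨w1, hw1⟩ : ∃ w1, w1 = H ^ A0 := ⟨_, rfl⟩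
  rw [← hw1] at hsm hDw
  by_cases hg : ∀ χ : RC, χ.r ≤ w1 ^ e1 →
      η2 / (CM * (2 * e2 * 2 * c : ℕ)) ≤ χ.ell (((w1 ^ e1) ^ 2) ^ c)
  · obtain ⟨D, hD, hDA, hN⟩ := hA1 (Fin k × Fin K1) (fun l => (x (l.1, Fin.castAdd K2 l.2)).1)
      (fun l => (x (l.1, Fin.castAdd K2 l.2)).2) H (by simp) hH (fun l => hbd _) (hadm' _)
      (hinj _ (Fin.castAdd_injective _ _))
    obtain ⟨n0, hn0, hco⟩ := Cel.Norm.exists_shift _ _ hD (hadm' (Fin.castAdd K2))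
    have hv := hDw hDA (by omega)
    obtain ⟨n, hn1, hn2, hG⟩ := hcell1 _ _ _ w1 J (hN D n0 dvd_rfl hn0 hco) hv (hsm (by omega))
      (hst fun _ => ⟨0, by omega⟩).card (Or.inl fun χ h => Or.inl (hg χ h))
    obtain ⟨σ, hσ⟩ := fin (A := A) (fun l => x (l.1, Fin.castAdd K2 l.2))
      (hinj _ (Fin.castAdd_injective _ _)) Subset.rfl hH hn0 hv hw1.le (by omega) hn1 hn2 hG
    exact ⟨fun i => Fin.castAdd K2 (σ i), fun _ => hσ⟩
  push Not at hg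
  obtain ⟨χ, hr, hχ⟩ := hg
  obtain ⟨y, hy⟩ : ∃ y, y = ((w1 ^ e1) ^ 2) ^ c := ⟨_, rfl⟩
  rw [← hy] at hχ
  have hw2 : 2 ≤ w1 := hsm (by omega)
  have b1 : w1 ≤ w1 ^ e1 := Nat.le_self_pow (by omega) w1
  have b2 : (w1 ^ e1) ^ 2 ≤ y := hy ▸ Nat.le_self_pow (by omega) _
  have b3 : w1 ^ e1 ≤ (w1 ^ e1) ^ 2 := Nat.le_self_pow two_ne_zero _
  have b4 : y ≤ y ^ 2 := Nat.le_self_pow two_ne_zero _
  have b5 : y ^ 2 ≤ (y ^ 2) ^ e2 := Nat.le_self_pow (by omega) _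
  have b6 : χ.r * χ.r ≤ y := le_trans (by rw [sq]; exact Nat.mul_le_mul hr hr) b2
  obtain ⟨D, hD, hDA, hN⟩ := hA2 (Fin k × Fin K2) (fun l => (x (l.1, Fin.natAdd K1 l.2)).1)
    (fun l => (x (l.1, Fin.natAdd K1 l.2)).2) H (by simp) hH (fun l => hbd _) (hadm' _)
    (hinj _ (Fin.natAdd_injective _ _))
  obtain ⟨J', hJ', n0, hn0, hcard, hco, hsum⟩ := choice h4 h5
    (fun l => x (l.1, Fin.natAdd K1 l.2)) hK2 (hadm' _) (fun σ => hst fun i => Fin.natAdd K1 (σ i))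
    χ (Nat.mul_pos hD χ.r_pos) (dvd_mul_left _ _) (hθ2 χ (y ^ 2))
    (hw3 χ (y ^ 2) ((hsm (by omega : w3 ≤ A0)).trans (by omega)) (by omega))
  have hv : 2 * (H * (D * χ.r * (D * χ.r))) ≤ y ^ 2 := by
    calc _ = 2 * (H * (D * D)) * (χ.r * χ.r) := by ring
      _ ≤ y * y := Nat.mul_le_mul ((hDw hDA (by omega)).trans (by omega)) b6
      _ = y ^ 2 := (sq y).symm
  have hgd : UC.Gd ((y ^ 2) ^ e2) ((((y ^ 2) ^ e2) ^ 2) ^ c) η2 χ.χ := by
    intro ψ hψ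
    refine or_iff_not_imp_left.2 fun h6 => huniq _ ψ χ
      (le_trans (by omega) (Nat.le_self_pow two_ne_zero ((y ^ 2) ^ e2)))
      (by rw [sq ((y ^ 2) ^ e2)]; exact Nat.mul_le_mul hψ (by omega)) (not_le.1 h6).le ?_
    have e : (((y ^ 2) ^ e2) ^ 2) ^ c = y ^ (2 * e2 * 2 * c) := by
      rw [pow_mul, pow_mul, pow_mul]
    rw [e]
    refine (χ.ell_le (Nat.le_self_pow (by omega) y)).trans ?_
    rw [← div_mul_cancel₀ η2 hec'.ne']
    exact mul_le_mul hχ.le (Th_le_pow (by omega) hec) (zero_le_one.trans (one_le_Th _ _))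
      (by positivity)
  obtain ⟨n, hn1, hn2, hG⟩ := hcell2 _ _ _ (y ^ 2) J' (hN (D * χ.r) n0 (dvd_mul_right _ _) hn0 hco)
    hv ((hsm (by omega : w02 ≤ A0)).trans (by omega)) hcard
    (Or.inr ⟨χ, hgd, fun l => (((dvd_mul_left χ.r D).mul_right _).mul_left _), hsum⟩)
  have hyE : y ^ 2 ≤ H ^ (A0 * e1 * 2 * c * 2) := by
    rw [pow_mul, pow_mul, pow_mul, pow_mul, ← hw1, ← hy]
  obtain ⟨σ, hσ⟩ := fin (A := A) (fun l => x (l.1, Fin.natAdd K1 l.2))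
    (hinj _ (Fin.natAdd_injective _ _)) hJ' hH hn0 hv hyE (by omega) hn1 hn2 hG
  exact ⟨fun i => Fin.natAdd K1 (σ i), fun _ => hσ⟩

end Pool.Agent.P.MP_746f10_nt.PV
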