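import Pool.Agent.P.MP_746f10_nt.PV.Defs
import Pool.Agent.P.MP_746f10_nt.P2.Det

/-! A majorant of the primes built from the upper bound sieve on boxes. -/

namespace Pool.Agent.P.MP_746f10_nt.PV

open Finset Pool.Agent.P.MP_0ad054_nt.Sun P2

namespace MajP

lemma prod_aff (T : Finset ℕ) (w : ℕ → ℝ) (a : ℕ) (φ : ℝ → ℝ)
    (hφ : ∀ t, φ t = (1 - t) * φ 0 + t * φ 1) :
    ∏ l ∈ T, φ (w l) = (1 - w a) * ∏ l ∈ T, φ (Function.update w a 0 l) +
      w a * ∏ l ∈ T, φ (Function.update w a 1 l) := by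
  have key : ∀ (S : Finset ℕ) (t : ℝ), a ∉ S →
      ∏ l ∈ S, φ (Function.update w a t l) = ∏ l ∈ S, φ (w l) := fun S t h =>
    prod_congr rfl fun l hl => by rw [Function.update_of_ne (ne_of_mem_of_not_mem hl h)]
  by_cases ha : a ∈ T
  · rw [← mul_prod_erase T _ ha, ← mul_prod_erase T _ ha, ← mul_prod_erase T _ ha,
      key _ _ (notMem_erase a T), key _ _ (notMem_erase a T), Function.update_self,
      Function.update_self, hφ (w a)]
    ring
  · rw [key _ _ ha, key _ _ ha]; ring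

lemma Sf_aff (P : Finset ℕ) (lam : Finset ℕ → ℝ) (w : ℕ → ℝ) (a : ℕ) :
    Sf P lam w = (1 - w a) * Sf P lam (Function.update w a 0) +
      w a * Sf P lam (Function.update w a 1) := by
  unfold Sf
  rw [mul_sum, mul_sum, ← sum_add_distrib]
  refine sum_congr rfl fun T _ => ?_
  rw [prod_aff T w a (fun t => t) fun t => by ring]
  ring

lemma cube {P : Finset ℕ} {lam : Finset ℕ → ℝ}
    (h : ∀ w : ℕ → ℝ, (∀ l, w l = 0 ∨ w l = 1) → ∏ l ∈ P, (1 - w l) ≤ Sf P lam w)
    (U : Finset ℕ) : ∀ w : ℕ → ℝ, (∀ l, l ∉ U → w l = 0 ∨ w l = 1) →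
      (∀ l ∈ U, 0 ≤ w l ∧ w l ≤ 1) → ∏ l ∈ P, (1 - w l) ≤ Sf P lam w := by
  induction U using Finset.induction_on with
  | empty => exact fun w h1 _ => h w fun l => h1 l (notMem_empty l)
  | insert a U ha ih =>
    intro w h1 h2
    have key : ∀ t : ℝ, t = 0 ∨ t = 1 → ∏ l ∈ P, (1 - Function.update w a t l) ≤
        Sf P lam (Function.update w a t) := fun t ht => by
      refine ih _ (fun l hl => ?_) fun l hl => ?_
      · by_cases e : l = a
        · rw [e, Function.update_self]; exact ht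
        · rw [Function.update_of_ne e]
          exact h1 l fun hh => (mem_insert.1 hh).elim e hl
      · rw [Function.update_of_ne (ne_of_mem_of_not_mem hl ha)]
        exact h2 l (mem_insert_of_mem hl)
    have a0 := key 0 (Or.inl rfl)
    have a1 := key 1 (Or.inr rfl)
    have a2 := h2 a (mem_insert_self _ _)
    rw [Sf_aff P lam w a, prod_aff P w a (fun t => 1 - t) fun t => by ring]
    exact add_le_add (mul_le_mul_of_nonneg_left a0 (by linarith))
      (mul_le_mul_of_nonneg_left a1 a2.1)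

/-- an upper bound sieve majorises the product at every density -/
lemma V_le_Sf {P : Finset ℕ} {lam : Finset ℕ → ℝ} {D : ℝ} (h : IsW2 1 P lam D) (g : ℕ → ℝ)
    (hg : ∀ l ∈ P, 0 ≤ g l ∧ g l ≤ 1) : ∏ l ∈ P, (1 - g l) ≤ Sf P lam g := by
  have h1 := cube (P := P) (lam := lam) (fun w hw => by have := h.2.2 w hw; linarith) P
    (fun l => if l ∈ P then g l else 0) (fun l hl => Or.inl (if_neg hl))
    fun l hl => by rw [if_pos hl]; exact hg l hl
  have e1 : ∏ l ∈ P, (1 - if l ∈ P then g l else 0) = ∏ l ∈ P, (1 - g l) :=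
    prod_congr rfl fun l hl => by rw [if_pos hl]
  have e2 : Sf P lam (fun l => if l ∈ P then g l else 0) = Sf P lam g := by
    unfold Sf
    refine sum_congr rfl fun T hT => ?_
    congr 1
    exact prod_congr rfl fun l hl => if_pos (mem_powerset.1 hT hl)
  rwa [e1, e2] at h1

lemma one_sub_sum_le (B : Finset ℕ) (x : ℕ → ℝ) (hx : ∀ p ∈ B, 0 ≤ x p ∧ x p ≤ 1) :
    1 - ∑ p ∈ B, x p ≤ ∏ p ∈ B, (1 - x p) := by
  induction B using Finset.induction_on with
  | empty => simp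
  | insert a B ha ih =>
    rw [sum_insert ha, prod_insert ha]
    have h1 := ih fun p hp => hx p (mem_insert_of_mem hp)
    have h2 := hx a (mem_insert_self _ _)
    have h3 : 0 ≤ ∑ p ∈ B, x p := sum_nonneg fun p hp => (hx p (mem_insert_of_mem hp)).1
    nlinarith

lemma box_le {r R z : ℕ} (hz : R ≤ z) (hg : ∀ l ∈ PL r R z, gb r R z l ≤ 1) :
    (∏ l ∈ PL r R z, (1 - gb r R z l)) * VV R ≤ VV z := by
  have h1 : ∏ l ∈ PL r R z, (1 - gb r R z l) ≤ ∏ p ∈ PP R z, (1 - 1 / (p : ℝ)) := by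
    rw [← prod_fiberwise_of_maps_to (s := PP R z) (t := PL r R z) (g := lb r z)
      fun p hp => mem_image_of_mem _ hp]
    refine prod_le_prod (fun l hl => by have := hg l hl; linarith) fun l _ => ?_
    unfold gb ms bx
    refine one_sub_sum_le _ (fun p => 1 / (p : ℝ)) fun p hp => ⟨by positivity, ?_⟩
    have := one_sub_inv_pos (PP_two (mem_filter.1 hp).1)
    linarith
  calc _ ≤ (∏ p ∈ PP R z, (1 - 1 / (p : ℝ))) * VV R :=
        mul_le_mul_of_nonneg_right h1 (VV_pos R).le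
    _ = VV z := by rw [VV, VV, prod_PP_split (Nat.zero_le R) hz, mul_comm]

end MajP

open DetP MajP in
theorem pMaj (h1 : P2.S_Lin2) (h0 : S_Const) (h2 : P2.S_DimB) (h3 : P2.S_SvPos)
    (h4 : P2.S_Bad) : S_Maj := by
  obtain ⟨A, hA, hL⟩ := h1
  have hlow : Low A := fun ε hε => by
    obtain ⟨η, hη, z0, h⟩ := hL ε hε
    exact ⟨η, hη, z0, fun P g z a1 a2 a3 => (h P g z a1 a2 a3).2⟩
  obtain ⟨z1, hz1⟩ := h0 A hlow (1 / 4000) (by norm_num)
  obtain ⟨η, hη, z0, hL⟩ := hL (1 / 12000) (by norm_num)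
  refine ⟨731, by norm_num, fun q hq => ?_⟩
  have hq' : (1 : ℝ) ≤ q := by exact_mod_cast hq
  set L0 : ℝ := 2 ^ (q * 2001) with hL0
  have hL0p : 0 < L0 := by positivity
  obtain ⟨r, R1, hD⟩ := h2 (min η 1) (1 / (2190000 * q) / L0) (q * 365)
    (lt_min hη (by norm_num)) (by positivity)
  obtain ⟨R2, hR2⟩ := wt_small r (q * 365) (q * 1095) (1 + L0) (by positivity)
  refine ⟨L0 + L0 * ((q * 2001 : ℕ) : ℝ) ^ 2, max (max R1 R2) (max (max z1 ⌈z0⌉₊) 2),
    fun R hR => ?_⟩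
  simp only [max_le_iff] at hR
  obtain ⟨⟨hR1, hR2'⟩, ⟨hRX, hRz⟩, hR⟩ := hR
  have hRz' : z0 ≤ R := (Nat.le_ceil z0).trans (by exact_mod_cast hRz)
  have hS4 := hR2 R hR2'
  rw [pow_mul R q 365] at hS4
  have hpow : ∀ e, (R ^ q) ^ e = R ^ (q * e) := fun e => (pow_mul R q e).symm
  have hXR : R ≤ R ^ q := Nat.le_self_pow (by omega) R
  generalize R ^ q = X at hS4 hpow hXR ⊢
  have hX : 2 ≤ X := hR.trans hXR
  have hzX : X ≤ X ^ 365 := Nat.le_self_pow (by omega) X
  have hzR : R ≤ X ^ 365 := hXR.trans hzX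
  have hzR' : (R : ℝ) ≤ ((X ^ 365 : ℕ) : ℝ) := by exact_mod_cast hzR
  obtain ⟨hdim, hsq, hcard, hlab⟩ := hD R (X ^ 365) hR1 hzR (hpow 365).le
  have hdη := dim_mono hdim (min_le_left _ _)
  have hdτ := dim_mono hdim (min_le_right _ _)
  have hbox := box_le (r := r) hzR fun l hl => by have := (hdτ.1 l hl).2.2; linarith
  set P := PL r R (X ^ 365) with hP
  set g := gb r R (X ^ 365) with hg
  have hPz : ∀ l ∈ P, (l : ℝ) ≤ ((X ^ 365 : ℕ) : ℝ) := fun l hl => by
    exact_mod_cast (hlab l hl).2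
  have hV := V_pos hdτ
  have hR1' : (1 : ℝ) < R := by exact_mod_cast (show 1 < R by omega)
  have hlR : 0 < Real.log R := Real.log_pos hR1'
  have hlz : Real.log ((X ^ 365 : ℕ) : ℝ) = 365 * (q * Real.log R) := by
    rw [hpow 365, Nat.cast_pow, Real.log_pow]; push_cast; ring
  have hinv : ∏ l ∈ P, (1 - g l)⁻¹ ≤ 730 * q := by
    have a1 := hdτ.2 R _ hR1' hzR'
    rw [filter_true_of_mem fun l hl => ⟨by exact_mod_cast (hlab l hl).1, hPz l hl⟩, hlz,
      le_div_iff₀ hlR] at a1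
    exact le_of_mul_le_mul_right (by linarith) hlR
  obtain ⟨lam, hl, hm⟩ := (hL P g _ (hRz'.trans hzR') hdη hPz).1
  obtain ⟨Bd, κb, hB1, hB2, hB3, hB4⟩ := h4.1 r R X (X ^ 365) hR (by omega)
    (by rw [← pow_mul]; exact Nat.pow_le_pow_right (by omega) (by norm_num))
  set N : ℝ := (((2 ^ (r + 1) * (Nat.log 2 (X ^ 365) + 1) : ℕ) : ℝ) + 1) ^ (q * 1095) with hN
  have hN1 : 1 ≤ N := one_le_pow₀ (le_add_of_nonneg_left (by positivity))
  have hNc : ((P.card : ℝ) + 1) ^ (q * 1095) ≤ N := by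
    have : (P.card : ℝ) ≤ ((2 ^ (r + 1) * (Nat.log 2 (X ^ 365) + 1) : ℕ) : ℝ) := by
      exact_mod_cast hcard
    exact pow_le_pow_left₀ (by positivity) (by linarith) _
  have hX1 : 1 ≤ X := by omega
  have p0 : ∀ lm : Finset ℕ → ℝ, (∀ T, |lm T| ≤ 1) → (∀ T, lm T ≠ 0 → lam T ≠ 0) →
      Pos R X (fun m => Sf P (pp lm) (xb r R (X ^ 365) m)) (Sf P (pp lm) g) N := by
    intro lm a1 a2
    refine (svp h3 (D1 := X ^ 993) (Q := {1}) (top := 1) hR hzR hX1 (Nat.one_le_pow _ _ hX1)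
      Subset.rfl a1 (Lv_one _ le_rfl) ?_ (fun T hT h0 => ?_) ?_ hNc).congr
      (fun m => by rw [cdv_one, one_mul]) (by rw [ms_one, one_mul])
    · rw [one_mul]; exact Nat.pow_le_pow_right hX1 (by norm_num)
    · have := hl.2.1 T hT (a2 T h0)
      rwa [← Nat.cast_pow, ← pow_mul, show 365 * 3 = 993 + 102 by norm_num, pow_add] at this
    · rw [← pow_add, ← hpow]
  have q1 := (p0 lam hl.1 fun _ h => h).add (hB1.smul hL0p.le)
  have q2 := p0 (fun T => -lam T) (fun T => by rw [abs_neg]; exact hl.1 T)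
    fun _ h => neg_ne_zero.1 h
  have hκb : L0 * κb ≤ 1 / (2190000 * q) := by
    have := hB2.trans hsq
    rw [le_div_iff₀ hL0p] at this
    linarith
  have hκ0 : 0 ≤ L0 * κb := mul_nonneg hL0p.le hB1.mean_nonneg
  have hgb : ∀ l ∈ P, 0 ≤ g l ∧ g l ≤ 1 / 2 := fun l hl => (hdτ.1 l hl).2
  have hdiff : ∀ (w : ℕ → ℝ) (b : ℝ),
      Sf P (pp lam) w + b - Sf P (pp fun T => -lam T) w = Sf P lam w + b := fun w b => by
    rw [← Sf_split P lam w]; ring
  have hDm : ∀ m, 1 ≤ m → m ≤ X ^ 2001 → |Sf P lam (xb r R (X ^ 365) m)| ≤ L0 := fun m a1 a2 =>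
    h4.2.1 r R (X ^ 365) m _ P lam hR hl.1 (by omega) (by rwa [← hpow])
  refine ⟨_, _, _, _, (1 + L0) * N, q1.mono (by nlinarith), q2.mono (by nlinarith), hS4, ?_, ?_,
    ?_, fun m hm1 hm2 => ?_, fun p hp hp1 hp2 => ?_⟩
  · have a1 := (Sf_abs Subset.rfl lam hl.1 g hgb).trans hinv
    have a3 : 1 / (2190000 * (q : ℝ)) ≤ 1 := by
      rw [div_le_one (by positivity)]; linarith
    linarith
  · rw [hdiff]
    have a1 := V_le_Sf hl g fun l h => ⟨(hgb l h).1, by linarith [(hgb l h).2]⟩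
    rw [prod_inv_distrib, inv_le_iff_one_le_mul₀ hV] at hinv
    have a2 : 1 / (731 * (q : ℝ)) ≤ ∏ l ∈ P, (1 - g l) := by
      rw [div_le_iff₀ (by positivity)]
      nlinarith
    linarith
  · rw [hdiff]
    have a1 := hz1 (X ^ 365) (hRX.trans hzR)
    have a2 := VV_mul_log_le' (X ^ 365)
    have a3 := VV_mul_log_le' R
    rw [hlz] at a1 a2
    have hu : 0 < q * Real.log R := by positivity
    have hW := VV_pos R
    have a4 : Sf P lam g * VV R ≤ (A / 3 + 1 / 12000) * VV (X ^ 365) := by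
      have b1 := mul_le_mul_of_nonneg_right hm hW.le
      have b2 := mul_le_mul_of_nonneg_left hbox (show 0 ≤ A / 3 + 1 / 12000 by positivity)
      linarith
    have a5 := mul_le_mul_of_nonneg_right a4 hu.le
    have a6 : L0 * κb * VV R * (q * Real.log R) ≤ 1 / 2190000 := by
      have b1 : VV R * (q * Real.log R) ≤ q := by nlinarith
      have b2 := mul_le_mul hκb b1 (by positivity) (by positivity)
      have b3 : 1 / (2190000 * (q : ℝ)) * q = 1 / 2190000 := by field_simp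
      linarith
    linarith
  · rw [hdiff]
    have a1 := abs_le.1 (hDm m hm1 hm2)
    have a2 := mul_le_mul_of_nonneg_left (hB4 m (q * 2001) (by omega) (by rwa [← hpow])) hL0p.le
    have a3 := mul_nonneg hL0p.le (hB1.nonneg m)
    refine ⟨?_, by linarith⟩
    by_cases a4 : ∀ l, xb r R (X ^ 365) m l = 0 ∨ xb r R (X ^ 365) m l = 1
    · have a5 := hl.2.2 _ a4
      have a6 : 0 ≤ ∏ l ∈ P, (1 - xb r R (X ^ 365) m l) :=
        prod_nonneg fun l _ => by rcases a4 l with h | h <;> simp [h]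
      linarith
    · have := mul_le_mul_of_nonneg_left (hB3 m a4) hL0p.le
      linarith
  · rw [hdiff]
    have a0 : rough (X ^ 365) p := fun s hs hd => by
      rw [(Nat.prime_dvd_prime_iff_eq hs hp).1 hd]; exact hp1
    have a1 : rough R p := fun s hs hd => lt_of_le_of_lt hzR (a0 s hs hd)
    have a9 := (h4.2.2 r R (X ^ 365) p a1).2 a0
    have a5 := hl.2.2 _ fun l => Or.inl (a9 l)
    simp only [a9, sub_zero, prod_const_one] at a5
    have a3 := mul_nonneg hL0p.le (hB1.nonneg p)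
    linarith

end Pool.Agent.P.MP_746f10_nt.PV
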