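import Pool.Agent.P.MP_746f10_nt.PV.Defs

/-! Normalisation of an admissible system of linear forms with a free modulus. -/

namespace Pool.Agent.P.MP_746f10_nt.PV

open Finset

theorem pNorm3 : S_Norm3 := by
  intro k K
  refine ⟨K.factorial + (k + 2 * (k * k)) + 2, ?_⟩
  intro ι _ _ a b H hk hH hab h2 h3
  have ha : ∀ i, 0 < a i := fun i => (hab i).1
  have hH1 : 1 ≤ H := by omega
  have hAH : ∏ i, a i ≤ H ^ k := by
    have := prod_le_pow_card (univ : Finset ι) a H fun i _ => (hab i).2.1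
    rwa [card_univ, hk] at this
  have hcop : ∀ i, (a i).Coprime (b i) := fun i => Nat.coprime_of_dvd fun p hp d1 d2 => by
    obtain ⟨m, hm⟩ := h2 p hp
    exact hm i (dvd_add (d1.mul_right m) d2)
  set d : ι × ι → ℕ := fun x => ((a x.2 : ℤ) * b x.1 - a x.1 * b x.2).natAbs with hd
  have hd0 : ∀ x ∈ (univ : Finset ι).offDiag, 0 < d x := fun x hx => by
    refine Int.natAbs_pos.2 fun h => (mem_offDiag.1 hx).2.2 (h3 ?_)
    have e : a x.2 * b x.1 = a x.1 * b x.2 := by exact_mod_cast sub_eq_zero.1 h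
    have e1 : a x.1 = a x.2 := Nat.dvd_antisymm
      ((hcop x.1).dvd_of_dvd_mul_right (e ▸ dvd_mul_right _ _))
      ((hcop x.2).dvd_of_dvd_mul_right (e ▸ dvd_mul_right _ _))
    rw [e1] at e
    exact Prod.ext e1 (Nat.eq_of_mul_eq_mul_left (ha _) e)
  have hdH : ∀ x, d x ≤ H ^ 2 := fun x => by
    have b1 : a x.2 * b x.1 ≤ H ^ 2 := by
      rw [sq]; exact Nat.mul_le_mul (hab _).2.1 (hab _).2.2
    have b2 : a x.1 * b x.2 ≤ H ^ 2 := by
      rw [sq]; exact Nat.mul_le_mul (hab _).2.1 (hab _).2.2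
    have e : d x = (((a x.2 * b x.1 : ℕ) : ℤ) - ((a x.1 * b x.2 : ℕ) : ℤ)).natAbs := by
      rw [hd]; push_cast; rfl
    rw [e]
    generalize a x.2 * b x.1 = u at *
    generalize a x.1 * b x.2 = w at *
    generalize H ^ 2 = y at *
    omega
  have hdP : ∏ x ∈ (univ : Finset ι).offDiag, d x ≤ H ^ (2 * (k * k)) := by
    refine (prod_le_pow_card _ d (H ^ 2) fun x _ => hdH x).trans ?_
    rw [← pow_mul]
    refine Nat.pow_le_pow_right hH1 (Nat.mul_le_mul_left _ ?_)
    rw [offDiag_card, card_univ, hk]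
    exact Nat.sub_le _ _
  obtain ⟨Q, hQ⟩ : ∃ Q, Q = (∏ i, a i) * ∏ x ∈ (univ : Finset ι).offDiag, d x := ⟨_, rfl⟩
  have hQ0 : 0 < Q := hQ ▸ Nat.mul_pos (prod_pos fun i _ => ha i) (prod_pos hd0)
  have hQH : Q ≤ H ^ (k + 2 * (k * k)) := by
    rw [hQ, pow_add]; exact Nat.mul_le_mul hAH hdP
  have hKQ : 0 < K.factorial * Q := Nat.mul_pos (Nat.factorial_pos K) hQ0
  refine ⟨K.factorial * Q * (2 * H), Nat.mul_pos hKQ (by omega), ?_, ?_⟩
  · rw [pow_add, pow_add]
    refine Nat.mul_le_mul (Nat.mul_le_mul ?_ hQH) ?_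
    · exact Nat.lt_two_pow_self.le.trans (Nat.pow_le_pow_left hH _)
    · rw [sq]; exact Nat.mul_le_mul_right _ hH
  intro D n0 hD hn0 hco
  have hD0 : 0 < D := by omega
  have hFD : 2 * H ≤ D := (Nat.le_mul_of_pos_left _ hKQ).trans (Nat.le_of_dvd hD0 hD)
  have hQD : Q ∣ D := ((dvd_mul_left _ _).mul_right _).trans hD
  have haD : ∀ l, a l ∣ D := fun l =>
    (show a l ∣ Q from hQ ▸ (dvd_prod_of_mem a (mem_univ l)).mul_right _).trans hQD
  refine ⟨fun l => ?_, fun l => Nat.mul_le_mul_right _ (hab l).2.1,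
    fun l => ?_, fun p l l' hp h => ?_, fun p l hp h => ?_, fun p n l l' hp h4 h5 => ?_⟩
  · have b1 : b l ≤ H := (hab l).2.2
    have b2 : b l < D := by omega
    have b3 : 2 ≤ D := by omega
    have b4 : a l * n0 ≤ a l * D := Nat.mul_le_mul_left _ hn0.le
    have b5 : D ≤ a l * D := Nat.le_mul_of_pos_left _ (ha l)
    have b6 : a l * D * 2 ≤ a l * D * D := Nat.mul_le_mul_left _ b3
    show a l * n0 + b l < a l * (D * D)
    rw [← mul_assoc]
    omega
  · exact Nat.Coprime.mul_left ((hco l).symm.coprime_dvd_left (haD l))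
      (Nat.Coprime.mul_left (hco l).symm (hco l).symm)
  · have h1 : p ∣ D := (hp.dvd_mul.1 h).elim (fun h => h.trans (haD l))
      fun h => (hp.dvd_mul.1 h).elim id id
    exact (h1.mul_right _).mul_left _
  · have h1 : p ∣ D := (((hp.dvd_factorial.2 h).mul_right _).mul_right _).trans hD
    exact (h1.mul_right _).mul_left _
  · by_contra hne
    have h6 : p ∣ d (l, l') := by
      refine Int.natCast_dvd.1 ?_
      have b1 := (Int.natCast_dvd_natCast.2 h4).mul_left (a l' : ℤ)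
      have b2 := (Int.natCast_dvd_natCast.2 h5).mul_left (a l : ℤ)
      have e : (a l' : ℤ) * b l - a l * b l' = a l' * (a l * (D * D) * n + (a l * n0 + b l) : ℕ) -
          a l * (a l' * (D * D) * n + (a l' * n0 + b l') : ℕ) := by push_cast; ring
      rw [e]; exact dvd_sub b1 b2
    have h7 : p ∣ D := (show p ∣ Q from hQ ▸ (h6.trans (dvd_prod_of_mem d
      (mem_offDiag.2 ⟨mem_univ _, mem_univ _, hne⟩))).mul_left _).trans hQD
    exact hp.one_lt.ne' (Nat.eq_one_of_dvd_coprimes (hco l)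
      ((Nat.dvd_add_right (((h7.mul_right _).mul_left _).mul_right n)).1 h4) h7)

end Pool.Agent.P.MP_746f10_nt.PV
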