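import Pool.Agent.P.MP_746f10_nt.PV.Defs
import Pool.Agent.P.MP_746f10_nt.Cel.Norm

/-! A shift on which the exceptional character is balanced. -/

namespace Pool.Agent.P.MP_746f10_nt.PV

open Finset

namespace ShiftP

lemma sol {c E : ℕ} (hc : c.Coprime E) (hE : 0 < E) (k y : ℕ) :
    ∃ t < E, k + c * t ≡ y [MOD E] := by
  have : NeZero E := ⟨hE.ne'⟩
  refine ⟨(((y : ZMod E) - k) * (c : ZMod E)⁻¹).val, ZMod.val_lt _, ?_⟩
  rw [← ZMod.natCast_eq_natCast_iff]
  push_cast
  rw [ZMod.natCast_zmod_val]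
  linear_combination ((y : ZMod E) - k) * ZMod.coe_mul_inv_eq_one c hc

lemma sum_zero (χ : RC) {E D' c k u : ℕ} (hE : 0 < E) (hco : E.Coprime D') (hr : χ.r ∣ E * D')
    (hc : (c * D').Coprime E) (hu : u.Coprime E) (h1 : u ≡ 1 [MOD D']) (h2 : χ.χ u = -1) :
    ∑ t ∈ range E, χ.χ (k + c * D' * t) = 0 := by
  choose σ s1 s2 using fun t => sol hc hE k (u * (k + c * D' * t))
  have hm : ∀ t ∈ range E, σ t ∈ range E := fun t _ => mem_range.2 (s1 t)
  have hi : Set.InjOn σ (range E : Set ℕ) := fun t ht t' ht' h => by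
    have a1 := (s2 t).symm.trans (h ▸ s2 t')
    have a2 := Nat.ModEq.add_left_cancel' k (Nat.ModEq.cancel_left_of_coprime (c := u) hu.symm a1)
    exact Nat.ModEq.eq_of_lt_of_lt (Nat.ModEq.cancel_left_of_coprime hc.symm a2)
      (by simpa using ht) (by simpa using ht')
  have hk : ∀ t, k + c * D' * t ≡ k [MOD D'] := fun t => by
    rw [show k + c * D' * t = k + D' * (c * t) by ring]
    exact Nat.add_mul_mod_self_left _ _ _
  have := sum_nbij (s := range E) (t := range E) (f := fun t => -χ.χ (k + c * D' * t))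
    (g := fun t => χ.χ (k + c * D' * t)) σ hm hi (surjOn_of_injOn_of_card_le _ hm hi le_rfl)
    (fun t _ => by
      have a1 : k + c * D' * σ t ≡ u * (k + c * D' * t) [MOD D'] :=
        (hk _).trans (by simpa using (h1.mul (hk t)).symm)
      rw [χ.of_modEq (((Nat.modEq_and_modEq_iff_modEq_mul hco).1 ⟨s2 t, a1⟩).of_dvd hr), χ.mul,
        h2]
      ring)
  rw [sum_neg_distrib] at this
  linarith

lemma card_bad {p E' c k : ℕ} (hp : p.Prime) (h : p ∣ c → ¬ p ∣ k) :
    ((range (p * E')).filter fun t => p ∣ k + c * t).card ≤ E' := by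
  by_cases hc : p ∣ c
  · rw [filter_eq_empty_iff.2 fun t _ ht => h hc ((Nat.dvd_add_left (hc.mul_right t)).1 ht)]
    simp
  · refine (card_le_card_of_injOn (t := range E') (fun t => t / p) (fun t ht => ?_)
      fun t ht t' ht' e => ?_).trans (card_range _).le
    · have := mem_range.1 (mem_filter.1 (mem_coe.1 ht)).1
      exact mem_coe.2 (mem_range.2 (Nat.div_lt_of_lt_mul this))
    · have a1 : k + c * t ≡ k + c * t' [MOD p] :=
        (Nat.modEq_zero_iff_dvd.2 (mem_filter.1 (mem_coe.1 ht)).2).trans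
          (Nat.modEq_zero_iff_dvd.2 (mem_filter.1 (mem_coe.1 ht')).2).symm
      have a2 : t % p = t' % p := Nat.ModEq.cancel_left_of_coprime
        ((Nat.Prime.coprime_iff_not_dvd hp).2 hc) (Nat.ModEq.add_left_cancel' k a1)
      have e' : t / p = t' / p := e
      rw [← Nat.div_add_mod t p, ← Nat.div_add_mod t' p, e', a2]

end ShiftP

open ShiftP

theorem pShift : S_Shift := by
  intro ι _ _ a b T χ D p u θ ε hA hD hr hp hpr hu h1 h2 hT hθ hε hε1 hcard
  obtain ⟨n1, -, hn1⟩ := Cel.Norm.exists_shift a b hD hA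
  have hpD : p ∣ D := hpr.trans hr
  obtain ⟨e, D', hD', hDe⟩ := Nat.exists_eq_pow_mul_and_not_dvd hD.ne' p hp.ne_one
  have hpD' : p.Coprime D' := (Nat.Prime.coprime_iff_not_dvd hp).2 hD'
  obtain ⟨e, rfl⟩ : ∃ e', e = e' + 1 := by
    cases e with
    | zero => exact absurd (by simpa [hDe] using hpD) hD'
    | succ e => exact ⟨e, rfl⟩
  have hco : (p ^ (e + 1)).Coprime D' := hpD'.pow_left _
  have hE : 0 < p ^ (e + 1) := pow_pos hp.pos _
  obtain ⟨w, w1, w2⟩ := Nat.chineseRemainder hco u 1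
  have hup : u.Coprime p := hu.coprime_dvd_right hpr
  have hwE : w.Coprime (p ^ (e + 1)) := by
    rw [Nat.Coprime, Nat.ModEq.gcd_eq w1]
    exact hup.pow_right _
  have hw : χ.χ w = -1 := by
    rw [← h2]
    refine χ.of_modEq ?_
    have b1 := Nat.ordProj_mul_ordCompl_eq_self χ.r p
    have b2 := Nat.coprime_ordCompl hp χ.r_pos.ne'
    have b3 : p ^ χ.r.factorization p ∣ p ^ (e + 1) :=
      (hpD'.pow_left _).dvd_of_dvd_mul_right (hDe ▸ (Nat.ordProj_dvd χ.r p).trans hr)
    have b4 : χ.r / p ^ χ.r.factorization p ∣ D' :=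
      (b2.pow_left (e + 1)).symm.dvd_of_dvd_mul_left (hDe ▸ (Nat.ordCompl_dvd χ.r p).trans hr)
    rw [← b1]
    exact (Nat.modEq_and_modEq_iff_modEq_mul (b2.pow_left _)).1
      ⟨w1.of_dvd b3, (w2.of_dvd b4).trans h1.symm⟩
  set L : ι → ℕ → ℕ := fun x t => a x * n1 + b x + a x * D' * t with hL
  have hsum : ∑ t ∈ range (p ^ (e + 1)), ∑ x ∈ T, θ * χ.χ (L x t) = 0 := by
    rw [sum_comm]
    refine sum_eq_zero fun x hx => ?_
    rw [← mul_sum, sum_zero χ hE hco (hDe ▸ hr) ((Nat.Coprime.mul_left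
      ((Nat.Prime.coprime_iff_not_dvd hp).2 (hT x hx)).symm hpD'.symm).pow_right _) hwE w2 hw,
      mul_zero]
  have hg : ∀ t, ∑ x ∈ T, θ * χ.χ (L x t) ≤ T.card := fun t => by
    have := sum_le_card_nsmul T (fun x => θ * χ.χ (L x t)) 1 fun x _ =>
      (le_abs_self _).trans (by
        rw [abs_mul]
        exact mul_le_one₀ hθ (abs_nonneg _) (χ.abs_le _))
    simpa using this
  classical
  set bad := (range (p ^ (e + 1))).filter fun t => ∃ x, p ∣ L x t with hbad
  set good := (range (p ^ (e + 1))).filter fun t => ¬ ∃ x, p ∣ L x t with hgood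
  have hb : bad.card ≤ Fintype.card ι * p ^ e := by
    have b1 : bad ⊆ univ.biUnion fun x => (range (p * p ^ e)).filter fun t => p ∣ L x t := by
      intro t ht
      obtain ⟨c1, x, c2⟩ := mem_filter.1 ht
      exact mem_biUnion.2 ⟨x, mem_univ _, mem_filter.2 ⟨by rwa [← pow_succ'], c2⟩⟩
    refine (card_le_card b1).trans (card_biUnion_le_card_mul _ _ _ fun x _ => ?_)
    exact card_bad hp fun _ =>
      (Nat.Prime.coprime_iff_not_dvd hp).1 ((hn1 x).coprime_dvd_right hpD).symm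
  have hb' : (bad.card : ℝ) ≤ ε * (p : ℝ) ^ (e + 1) / 2 := by
    have b1 : (bad.card : ℝ) ≤ Fintype.card ι * (p : ℝ) ^ e := by exact_mod_cast hb
    have b2 : (0 : ℝ) ≤ (p : ℝ) ^ e := by positivity
    rw [pow_succ]
    nlinarith
  have hbg : (bad.card : ℝ) + good.card = (p : ℝ) ^ (e + 1) := by
    have := card_filter_add_card_filter_not (s := range (p ^ (e + 1))) fun t => ∃ x, p ∣ L x t
    rw [card_range] at this
    exact_mod_cast this
  have hE' : (0 : ℝ) < (p : ℝ) ^ (e + 1) := by exact_mod_cast hE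
  have hg' : (p : ℝ) ^ (e + 1) / 2 ≤ good.card := by nlinarith
  have hne : good.Nonempty := by
    rw [← card_pos]
    have : (0 : ℝ) < good.card := by linarith
    exact_mod_cast this
  have hsp := sum_filter_add_sum_filter_not (range (p ^ (e + 1))) (fun t => ∃ x, p ∣ L x t)
    fun t => ∑ x ∈ T, θ * χ.χ (L x t)
  have hs1 : ∑ t ∈ bad, ∑ x ∈ T, θ * χ.χ (L x t) ≤ bad.card * (T.card : ℝ) := by
    simpa using sum_le_card_nsmul bad _ _ fun t _ => hg t
  obtain ⟨t, ht, ht2⟩ := exists_le_of_sum_le (f := fun _ => -(ε * (T.card : ℝ)))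
    (g := fun t => ∑ x ∈ T, θ * χ.χ (L x t)) hne (by
      rw [sum_const, nsmul_eq_mul]
      have b1 : (0 : ℝ) ≤ T.card := Nat.cast_nonneg _
      have b2 := mul_le_mul_of_nonneg_right hb' b1
      have b3 := mul_le_mul_of_nonneg_right hg' (mul_nonneg hε.le b1)
      rw [hsum] at hsp
      linarith)
  have hmod : ∀ x, a x * ((n1 + D' * t) % D) + b x ≡ L x t [MOD D] := fun x => by
    rw [show L x t = a x * (n1 + D' * t) + b x by simp only [hL]; ring]
    exact ((Nat.mod_modEq _ _).mul_left _).add_right _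
  refine ⟨(n1 + D' * t) % D, Nat.mod_lt _ hD, fun x => ?_, ht2.trans_eq
    (sum_congr rfl fun x _ => by rw [χ.of_modEq ((hmod x).of_dvd hr)])⟩
  rw [Nat.Coprime, Nat.ModEq.gcd_eq (hmod x), hDe]
  refine Nat.Coprime.mul_right (Nat.Coprime.pow_right _ ((Nat.Prime.coprime_iff_not_dvd hp).2
    fun c => (mem_filter.1 ht).2 ⟨x, c⟩).symm) ?_
  rw [show L x t = a x * n1 + b x + D' * (a x * t) by simp only [hL]; ring,
    Nat.coprime_add_mul_left_left]
  exact (hn1 x).coprime_dvd_right (hDe ▸ Dvd.intro_left _ rfl)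

end Pool.Agent.P.MP_746f10_nt.PV
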