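import Pool.Agent.P.MP_746f10_nt.PV.Cell
import Pool.Agent.P.MP_746f10_nt.PV.Liou
import Pool.Agent.P.MP_746f10_nt.PV.Even
import Pool.Agent.P.MP_746f10_nt.PV.Const
import Pool.Agent.P.MP_746f10_nt.PV.Maj
import Pool.Agent.P.MP_746f10_nt.PV.CoreS
import Pool.Agent.P.MP_746f10_nt.PV.FG
import Pool.Agent.P.MP_746f10_nt.PV.First
import Pool.Agent.P.MP_746f10_nt.PV.Dich
import Pool.Agent.P.MP_746f10_nt.PV.Shift
import Pool.Agent.P.MP_746f10_nt.PV.SWr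
import Pool.Agent.P.MP_746f10_nt.PV.Norm3
import Pool.Agent.P.MP_746f10_nt.PV.MainV
import Pool.Agent.P.MP_746f10_nt.P2.All
import Pool.Agent.P.MP_746f10_nt.UC.Bump
import Pool.Agent.P.MP_746f10_nt.UC.Win
import Pool.Agent.P.MP_746f10_nt.UC.Chi
import Pool.Agent.P.MP_746f10_nt.UC.L2
import Pool.Agent.P.MP_746f10_nt.UC.Ck
import Pool.Agent.P.MP_746f10_nt.UC.Lin
import Pool.Agent.P.MP_0ad054_nt.An.All

/-! Assembly. -/

namespace Pool.Agent.P.MP_746f10_nt.PV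

open Pool.Agent.P.MP_0ad054_nt

theorem maj_all : S_Maj :=
  pMaj (P2.pLin2 P2.pFL2) (pConst (pLiou An.zfree_all An.tauber) (pEven An.pnt_all P2.pNum))
    (P2.pDimB P2.pBx) (P2.pSvPos P2.pBx) P2.pBad

theorem cellV_all : S_CellV :=
  pCellV P2.det_all maj_all P2.pHC1 P2.hc2_all Cel.pJJ
    (pCoreS (UC.chi UC.l2 UC.ckl2) UC.mel UC.lin) pFG pFirst (pSWr An.bv_all UC.win) UC.bump UC.win

theorem mainV_all : S_MainV := pMainV pNorm3 (P2.pRedG Cel.pBox) cellV_all pDich pShift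

end Pool.Agent.P.MP_746f10_nt.PV
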