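import Pool.Agent.P.MP_746f10_nt.PV.Cmp
import Pool.Agent.P.MP_746f10_nt.P2.Fin

/-! The choice of the parameters. -/

set_option linter.unusedSectionVars false

namespace Pool.Agent.P.MP_746f10_nt.PV

open Finset Filter P2 Cel.Fin'

/-- the long range -/
lemma rng {R h X N1 Jn v : ℕ} (hR : 3 ≤ R) (hh : 1 ≤ h) (hX : X = R ^ (2 * (h + 1)))
    (hN : N1 = X ^ 1999 * R ^ h) (hJ : Jn = Nat.log 2 (R ^ (h + 2)) + 1) (hv : v ≤ R) :
    N1 * 2 ^ Jn ≤ 2 * X ^ 2000 ∧ X ^ 365 < N1 ∧ N1 ≤ X ^ 2000 ∧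
      (v * N1) ^ 4000 ≤ (X ^ 2000) ^ 3999 ∧ X ^ 2000 ≤ N1 * 2 ^ Jn ∧ X ≤ N1 ∧
      Jn * Real.log 2 ≤ 1 + (h + 2) * Real.log R := by
  have h1 : R ^ (h + 2) < 2 ^ Jn := hJ ▸ Nat.lt_pow_succ_log_self one_lt_two _
  have h2 : 2 ^ Jn ≤ 2 * R ^ (h + 2) := by
    rw [hJ, pow_succ']
    exact Nat.mul_le_mul_left _ (Nat.pow_log_le_self 2 (by positivity))
  have e1 : X ^ 2000 = N1 * R ^ (h + 2) := by
    rw [hN, mul_assoc, ← pow_add, show h + (h + 2) = 2 * (h + 1) by ring, ← hX, ← pow_succ]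
  have e2 : N1 = R ^ (2 * (h + 1) * 1999 + h) := by rw [hN, hX, ← pow_mul, ← pow_add]
  have h3 : X ^ 365 < N1 := by
    rw [e2, hX, ← pow_mul]; exact Nat.pow_lt_pow_right (by omega) (by omega)
  refine ⟨?_, h3, ?_, ?_, ?_, (Nat.le_self_pow (by norm_num) X).trans h3.le, ?_⟩
  · rw [e1, mul_left_comm]; exact Nat.mul_le_mul_left _ h2
  · rw [e1]; exact Nat.le_mul_of_pos_right _ (by positivity)
  · refine (Nat.pow_le_pow_left (Nat.mul_le_mul_right _ hv) _).trans (le_of_eq ?_)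
    rw [e2, hX, ← pow_succ', ← pow_mul, ← pow_mul, ← pow_mul]
    exact congrArg _ (by omega)
  · rw [e1]; exact Nat.mul_le_mul_left _ h1.le
  · have h4 : (2 : ℝ) ^ Jn ≤ 2 * (R : ℝ) ^ (h + 2) := by exact_mod_cast h2
    have h5 := Real.log_le_log (by positivity) h4
    have : (0 : ℝ) < R := by exact_mod_cast (by omega : 0 < R)
    rw [Real.log_pow, Real.log_mul two_ne_zero (by positivity), Real.log_pow] at h5
    push_cast at h5
    linarith [Real.log_two_lt_d9]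

open Classical in
theorem pCellV (hD : S_Det) (hMj : S_Maj) (hH : S_HC1) (hH2 : S_HC2) (hJ : Cel.S_JJ)
    (hCo : S_CoreS) (hFG : S_FG) (hF : S_First) (hSW : S_SWr) (hBu : UC.S_Bump) (hW : UC.S_Win) :
    S_CellV := by
  intro m M c Cc η0 hc hCc hLS hη0'
  rcases Nat.eq_zero_or_pos M with rfl | hM
  · exact ⟨1, 0, 1, 1, 0, fun _ _ => 0, one_pos, le_rfl, le_rfl, fun _ _ => by simp,
      fun _ _ => ⟨0, fun _ _ _ _ _ => by simp⟩, fun a b v w I _ _ _ hI => by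
        rw [eq_empty_of_isEmpty I] at hI; simp at hI⟩
  obtain ⟨C0, hC0, hD⟩ := hD
  obtain ⟨C1, hC1, hMj⟩ := hMj
  obtain ⟨C, hC, hH2⟩ := hH2
  obtain ⟨φ, H, hB⟩ := hBu (3999 / 4000) 1 (1 / 10 ^ 8) (by norm_num) (by norm_num)
  obtain ⟨U0, hU0⟩ := hCo c Cc hc hCc hLS (1 / 10 ^ 8) η0 H (by norm_num) hη0'
  obtain ⟨q0, hq0⟩ : ∃ q0, q0 = 10 ^ 11 * M ^ 2 := ⟨_, rfl⟩
  have hq00 : 10 ≤ q0 := by
    have := Nat.one_le_pow 2 M hM
    omega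
  obtain ⟨c0, hc0⟩ : ∃ c0 : ℕ, CM ≤ c0 := ⟨_, Nat.le_ceil _⟩
  obtain ⟨c1, hc1⟩ : ∃ c1 : ℕ, C0 + C1 ≤ c1 := ⟨_, Nat.le_ceil _⟩
  have hCM := one_le_CM
  have hc01 : 1 ≤ c0 := by exact_mod_cast hCM.trans hc0
  have hc0' : (1 : ℝ) ≤ c0 := hCM.trans hc0
  obtain ⟨k2, hk2⟩ := exists_sieve 2 (by norm_num)
  obtain ⟨m2, hm2⟩ := Cel.Fin'.pow_le (q0 * c1 ^ 4) (8 * c * (30 + 12 * k2 + 4 * q0 + U0))
    (8 * c * 12) 4
  obtain ⟨q', hq'⟩ : ∃ q', q' = 30 + 12 * k2 + 4 * q0 + U0 + 12 * m2 := ⟨_, rfl⟩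
  obtain ⟨q, hq⟩ : ∃ q, q = 8 * c * q' := ⟨_, rfl⟩
  obtain ⟨s2, hs2⟩ : ∃ s2, s2 = 4 * (k2 + m2) + 6 := ⟨_, rfl⟩
  rw [show 8 * c * (30 + 12 * k2 + 4 * q0 + U0) + 8 * c * 12 * m2 = q by rw [hq, hq']; ring] at hm2
  have hcq : q' ≤ c * q' := Nat.le_mul_of_pos_left _ hc
  obtain ⟨h, hh⟩ : ∃ h, q = 2 * (h + 1) := ⟨4 * (c * q') - 1, by rw [hq, mul_assoc]; omega⟩
  have hq8 : 8 * q' ≤ q := by rw [hq, mul_assoc]; omega
  have hcq' : 8 * c ≤ q := hq ▸ Nat.le_mul_of_pos_right _ (by omega)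
  obtain ⟨L1, R1, hD⟩ := hD q (by omega)
  obtain ⟨L2, R2, hMj⟩ := hMj q (by omega)
  obtain ⟨L, hL⟩ : ∃ L, L = max L1 L2 := ⟨_, rfl⟩
  obtain ⟨T, hT⟩ : ∃ T : ℝ, T = c1 * q := ⟨_, rfl⟩
  have hq1 : (1 : ℝ) ≤ q := by exact_mod_cast (by omega : 1 ≤ q)
  have hq0' : (10 : ℝ) ≤ q0 := by exact_mod_cast hq00
  have hqq : 32 * (q0 : ℝ) ≤ q := by exact_mod_cast (by omega : 32 * q0 ≤ q)
  have hT0 : C0 * q ≤ T := by rw [hT]; gcongr; linarith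
  have hT0' : C1 * q ≤ T := by rw [hT]; gcongr; linarith
  have hT1 : 1 ≤ T := (one_le_mul_of_one_le_of_one_le hC0 hq1).trans hT0
  obtain ⟨J, hJ1⟩ : ∃ J : ℕ, 96 * L ^ 2 * T ^ 2 * q0 ^ 2 * M * c0 ^ 3 + 2 ≤ J := ⟨_, Nat.le_ceil _⟩
  have z1 : (0 : ℝ) ≤ 96 * L ^ 2 * T ^ 2 * q0 ^ 2 * M * c0 ^ 3 := by positivity
  have hJ2 : 2 ≤ J := by exact_mod_cast (by linarith : (2 : ℝ) ≤ J)
  obtain ⟨K, hK⟩ : ∃ K, K = 2 ^ J := ⟨_, rfl⟩
  have hK4 : 4 ≤ K := hK ▸ (Nat.pow_le_pow_right two_pos hJ2 : 2 ^ 2 ≤ 2 ^ J)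
  obtain ⟨k, hk⟩ : ∃ k, k = M * K := ⟨_, rfl⟩
  have hKk : K ≤ k := hk ▸ Nat.le_mul_of_pos_left _ (by omega)
  obtain ⟨k0, hk0⟩ := exists_sieve (k + 3) (by positivity)
  obtain ⟨M1, hM1⟩ : ∃ M1, M1 = 4 * q0 * k * (J + 1) * c0 := ⟨_, rfl⟩
  have hkM : 4 * k ≤ M1 := by
    have : 1 ≤ q0 * (J + 1) * c0 := Nat.mul_pos (by positivity) hc01
    rw [hM1]; nlinarith only [this]
  obtain ⟨m', hm'⟩ := Cel.Fin'.pow_le (30 * q0 * 4 ^ k * (c1 * q) ^ 4)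
    (c0 * q * M1 * 2000 * (4 * k0 + 6)) (c0 * q * M1 * 2000 * 4) (5 * k + 10)
  obtain ⟨s, hs⟩ : ∃ s, s = 4 * (k0 + m') + 6 := ⟨_, rfl⟩
  obtain ⟨r, hr⟩ : ∃ r, r = s * M1 := ⟨_, rfl⟩
  obtain ⟨u, hu⟩ : ∃ u, u = q * r * 2000 := ⟨_, rfl⟩
  obtain ⟨Θ, hΘ⟩ : ∃ Θ : ℝ, Θ = c0 * u := ⟨_, rfl⟩
  have hsM : s ≤ r := hr ▸ Nat.le_mul_of_pos_right _ (by omega)
  have hru : r * 4 * 2 * c ≤ u := by
    have := Nat.mul_le_mul_left r hcq'
    rw [hu]; nlinarith only [this]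
  have hru' : r ≤ r * 4 * 2 * c := by nlinarith only [hc]
  have hr' : (1 : ℝ) ≤ r := by exact_mod_cast (by omega : 1 ≤ r)
  have hΘ1 : 1 ≤ Θ := hΘ ▸ one_le_mul_of_one_le_of_one_le hc0' (by exact_mod_cast (by omega : 1 ≤ u))
  have hm3 : 30 * q0 * 4 ^ k * T ^ 4 * Θ ^ (5 * k + 10) ≤ 2 ^ m' := by
    rw [show c0 * q * M1 * 2000 * (4 * k0 + 6) + c0 * q * M1 * 2000 * 4 * m' = c0 * u by
      rw [hu, hr, hs]; ring] at hm'
    rw [hΘ, hT]; exact_mod_cast hm'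
  obtain ⟨η, hη⟩ : ∃ η : ℝ, η = 1 / (q0 * 4 ^ k * (5 * T ^ 4 * Θ ^ 2)) := ⟨_, rfl⟩
  have hη0 : 0 < η := by rw [hη]; positivity
  have h1 : Θ ^ (5 * k + 8) * (3 * (1 / 2 ^ m')) ≤ η / 2 := by
    rw [hη, mul_one_div, mul_div_assoc', div_div, div_le_div_iff₀ (by positivity) (by positivity)]
    refine le_trans (le_of_eq ?_) (hm3.trans_eq (one_mul _).symm)
    ring
  have hM2 : 4 * q0 * k * (J + 1) * CM ≤ M1 := by rw [hM1]; push_cast; gcongr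
  have hK' : (0 : ℝ) < K := by exact_mod_cast (by omega : 0 < K)
  have hy : ∀ w : ℕ, ((w ^ r) ^ q) ^ 2000 = (((w ^ (r * 4)) ^ 2) ^ c) ^ (2000 * q') := fun w => by
    simp only [← pow_mul]; rw [hq]; exact congrArg _ (by ring)
  have hy1 : ∀ w : ℕ, w ≤ ((w ^ (r * 4)) ^ 2) ^ c := fun w => by
    simp only [← pow_mul]; exact Nat.le_self_pow (by omega) w
  have hl : ∀ w : ℕ, Real.log (((w ^ r) ^ q) ^ 2000 : ℕ) = 2000 * (q * Real.log (w ^ r : ℕ)) :=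
    fun w => by rw [Nat.cast_pow, Nat.cast_pow, Real.log_pow, Real.log_pow]; norm_num
  have hlw : ∀ w : ℕ, 3 ≤ w → 1 ≤ Real.log w := fun w hw => by
    have : (3 : ℝ) ≤ w := by exact_mod_cast hw
    rw [Real.le_log_iff_exp_le (by linarith)]; linarith [Real.exp_one_lt_d9]
  have hlR : ∀ w : ℕ, 3 ≤ w → 1 ≤ Real.log (w ^ r : ℕ) := fun w hw =>
    hlw _ (hw.trans (Nat.le_self_pow (by omega) w))
  have hPA : ∀ w : ℕ, 4000 * q0 ≤ w → q * Real.log (w ^ r : ℕ) * (1 / 2 - 4 / 100000 - 1 / q0) ≤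
      PA φ (((w ^ (r * 4)) ^ 2) ^ c) (((w ^ r) ^ q) ^ 2000) := fun w hw =>
    PA_ge hW hB (by omega) (hy w) (hw.trans (hy1 w)) (by omega) (hl w) (by
      have := le_mul_of_one_le_right (zero_le_one.trans hq1) (hlR w (by omega))
      linarith)
  obtain ⟨w0, hw0⟩ := eventually_atTop.1 ((((((eventually_ge_atTop
    (6 + 6 * r + R1 + R2 + 4000 * q0)).and (tendsto_natCast_atTop_atTop.eventually_ge_atTop
      (2 * Θ ^ (5 * k + 8) * (10 * (2 * r : ℕ) + 20 * (k : ℝ) ^ 2) / η))).and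
    (ev_pow (Θ ^ (5 * k + 8) * (2 + C) * CM ^ (2 * k) / η) (2 * k))).and
    (ev_pow ((Θ ^ k * 2 ^ (k * (q * r * 2001))) ^ 2 * (k * 2) * CM ^ (2 * k) / η) (2 * k))).and
    (ev_pow ((2 * C * T ^ 2 * q0) ^ 2 * (2 * q * r) ^ 8) 8)).and
    (ev_pow ((Θ ^ k * 2 ^ (k * (q * r * 2001))) ^ 2 * (8000000 * q * r * q0) * 4 ^ k * CM ^ (2 * k))
      (2 * k + 1)))
  refine ⟨K, 2 * (k + 3), r * 4, u + 1, w0, fun χ w =>
    PB φ (((w ^ (r * 4)) ^ 2) ^ c) (((w ^ r) ^ q) ^ 2000) χ.χ /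
      PA φ (((w ^ (r * 4)) ^ 2) ^ c) (((w ^ r) ^ q) ^ 2000), by omega, by omega, by omega,
    fun χ w => th_le hB _ _ χ, fun r0 hr0 => ?_, fun a b v w I hN hv hw hI hG => ?_⟩
  · obtain ⟨N0, hN0⟩ := hSW r0 H (1 / 16000000) hr0 (by norm_num)
    refine ⟨N0 + r0 + 4000 * q0, fun χ w w1 w2 w3 => ?_⟩
    have b1 := hN0 φ _ _ _ _ _ χ hB (by norm_num) (by norm_num) le_rfl (by norm_num)
      (show N0 ≤ ((w ^ r) ^ q) ^ 2000 from le_trans (by omega) ((hy1 w).trans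
        (hy w ▸ Nat.le_self_pow (by omega) _)))
      (hy w ▸ Nat.pow_le_pow_right (le_trans (by omega) (hy1 w)) (by omega))
      (w2.trans (hy1 w)) (le_trans (by omega) (hy1 w)) w3
    have b2 := hPA w (by omega)
    have b3 := one_le_mul_of_one_le_of_one_le hq1 (hlR w (by omega))
    have b4 : 1 / (q0 : ℝ) ≤ 1 / 10 := by gcongr
    change |PB φ _ _ χ.χ| ≤ _ at b1
    rw [hl] at b1
    generalize q * Real.log (w ^ r : ℕ) = l at b1 b2 b3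
    have b5 : l / 4 ≤ l * (1 / 2 - 4 / 100000 - 1 / q0) := by nlinarith only [b3, b4]
    have b6 := b5.trans b2
    rw [abs_div, abs_of_nonneg (by linarith : 0 ≤ PA φ _ _), div_le_iff₀ (by linarith)]
    linarith
  obtain ⟨⟨⟨⟨⟨w1, w2⟩, w3⟩, w4⟩, w5⟩, w6⟩ := hw0 w hw
  have hcard : Fintype.card (Fin M × Fin K) = k := by simp [hk]
  have : Nonempty (Fin M × Fin K) := Fintype.card_pos_iff.1 (by omega)
  have hw' : (6 : ℝ) ≤ w := by exact_mod_cast (by omega : 6 ≤ w)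
  have lw := hlw w (by omega)
  have lR := hlR w (by omega)
  have hPw := hPA w (by omega)
  have hyw := hy w
  have hlX := hl w
  have hV := Vk_ge' hN (by omega) (show 2 ≤ w by omega)
  rw [hcard] at hV
  obtain ⟨sv⟩ := hk0 m' w (GP a w) (by omega) fun p hp => ⟨(mem_GP.1 hp).2.1, (mem_GP.1 hp).1⟩
  rw [← hs] at sv
  have hTy : Th w (((w ^ (r * 4)) ^ 2) ^ c) ≤ Θ := by
    rw [← pow_mul, ← pow_mul, ← mul_assoc, hΘ]
    exact (Th_le_pow (by omega) (by omega)).trans (by gcongr)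
  have l3 : Real.log (w ^ r : ℕ) = r * Real.log w := by rw [Nat.cast_pow, Real.log_pow]
  beta_reduce at hG
  rw [pow_mul w r 4] at hG hPw hyw hTy
  obtain ⟨R, hR⟩ : ∃ R, R = w ^ r := ⟨_, rfl⟩
  rw [← hR] at hG hPw hyw hTy hlX lR l3
  have hwR : w ≤ R := hR ▸ Nat.le_self_pow (by omega) w
  obtain ⟨y, hyy⟩ : ∃ y, y = ((R ^ 4) ^ 2) ^ c := ⟨_, rfl⟩
  rw [← hyy] at hG hPw hyw hTy
  have hRy : R ^ 3 ≤ y := by
    rw [hyy, ← pow_mul, ← pow_mul]; exact Nat.pow_le_pow_right (by omega) (by omega)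
  obtain ⟨sw⟩ := hk2 m2 R (PP w R) (by omega) fun p hp => ⟨PP_prime hp, (mem_PP.1 hp).2.1⟩
  rw [← hs2] at sw
  obtain ⟨G1, G2, κ1, κ2, S1, g1, g2, g3, g4, g5, g6, g7⟩ := hD R (by omega)
  obtain ⟨G3, G4, κ3, κ4, S2, f1, f2, f3, f4, f5, f6, f7, f8⟩ := hMj R (by omega)
  obtain ⟨X, hX⟩ : ∃ X, X = R ^ q := ⟨_, rfl⟩
  rw [← hX] at g1 g2 g6 g7 f1 f2 f7 f8 hG hPw hyw hlX
  obtain ⟨S, hS1, hS2, hS3⟩ : ∃ S : ℝ, S1 ≤ S ∧ S2 ≤ S ∧ S ^ 4 ≤ R := by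
    rcases le_total S1 S2 with h0 | h0
    exacts [⟨S2, h0, le_rfl, f3⟩, ⟨S1, le_rfl, h0, g3⟩]
  obtain ⟨N1, hN1⟩ : ∃ N1, N1 = X ^ 1999 * R ^ h := ⟨_, rfl⟩
  obtain ⟨Jn, hJn⟩ : ∃ Jn, Jn = Nat.log 2 (R ^ (h + 2)) + 1 := ⟨_, rfl⟩
  obtain ⟨n1, n2, n3, n4, n5, n6, n7⟩ := rng (v := v) (by omega) (by omega) (hh ▸ hX) hN1 hJn (by omega)
  have hRX : R ≤ X := hX ▸ Nat.le_self_pow (by omega) R
  have hR' : (w : ℝ) ≤ R := by exact_mod_cast hwR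
  have hX' : (R : ℝ) ≤ X := by exact_mod_cast hRX
  have hXu : X ^ 2000 = w ^ u := by rw [hX, hR, hu, ← pow_mul, ← pow_mul, ← mul_assoc, mul_comm r]
  have hS := g1.wt_nonneg.trans hS1
  obtain ⟨g8, g9⟩ := le_of_pow4 (by linarith) hS3
  have hsR : w ^ s ≤ R := hR ▸ Nat.pow_le_pow_right (by omega) hsM
  have hLv : w ^ s * (R ^ 2 * R ^ s2) ≤ R ^ (3 + s2) := by
    rw [show 3 + s2 = 1 + (2 + s2) by ring, pow_add R 1, pow_add R 2, pow_one]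
    exact Nat.mul_le_mul_right _ hsR
  have hX9 : (1 : ℝ) ≤ (X : ℝ) ^ 1999 := one_le_pow₀ (by linarith)
  have hV0 : 0 ≤ Vk a w := le_trans (by positivity) hV
  have e9 : (N1 : ℝ) = (R ^ h : ℕ) * (X : ℝ) ^ 1999 := by
    rw [hN1, Nat.cast_mul, Nat.cast_pow, mul_comm]
  have e8 : η * ((N1 : ℝ) * Vk a w) ≤ η * ((X : ℝ) ^ 2000 * Vk a w) :=
    mul_le_mul_of_nonneg_left (mul_le_mul_of_nonneg_right (by exact_mod_cast n3) hV0) hη0.le
  have hE1 : Θ ^ (5 * k + 8) * (((R ^ (3 + s2) : ℕ) : ℝ) ^ 3 * ((2 + C) * R * (X : ℝ) ^ 1999)) ≤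
      η * ((N1 : ℝ) * Vk a w) := by
    have h2 : ((R ^ (3 + s2) : ℕ) : ℝ) ^ 3 * R * w ≤ (R ^ h : ℕ) := by
      have : (R ^ (3 + s2)) ^ 3 * R * w ≤ R ^ h := by
        calc _ ≤ (R ^ (3 + s2)) ^ 3 * R * R := Nat.mul_le_mul_left _ hwR
          _ ≤ _ := by
            rw [← pow_mul, ← pow_succ, ← pow_succ]
            exact Nat.pow_le_pow_right (by omega) (by omega)
      exact_mod_cast this
    rw [div_mul_eq_mul_div, div_le_iff₀ hη0] at w3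
    rw [e9]
    generalize (X : ℝ) ^ 1999 = x at hX9
    have h3 : (0 : ℝ) ≤ ((R ^ (3 + s2) : ℕ) : ℝ) ^ 3 := by positivity
    generalize ((R ^ (3 + s2) : ℕ) : ℝ) ^ 3 = z at h2 h3
    calc _ = Θ ^ (5 * k + 8) * (2 + C) * CM ^ (2 * k) * Real.log w ^ (2 * k) *
          (1 / (CM * Real.log w) ^ (2 * k)) * (z * R * x) := by
          simp only [mul_pow]; field_simp
      _ ≤ w * η * Vk a w * (z * R * x) := by gcongr
      _ = η * (z * R * w * x * Vk a w) := by ring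
      _ ≤ _ := by gcongr
  have hSq1 : (Θ ^ k * 2 ^ (k * (q * r * 2001))) ^ 2 * (k * (2 * (X : ℝ) ^ 1999)) ≤
      η * ((N1 : ℝ) * Vk a w) := by
    have h2 : (w : ℝ) ≤ (R ^ h : ℕ) := by
      exact_mod_cast hwR.trans (Nat.le_self_pow (by omega) R)
    rw [div_mul_eq_mul_div, div_le_iff₀ hη0] at w4
    rw [e9]
    generalize (X : ℝ) ^ 1999 = x at hX9
    generalize (Θ ^ k * 2 ^ (k * (q * r * 2001))) ^ 2 = z at w4
    calc _ = z * (k * 2) * CM ^ (2 * k) * Real.log w ^ (2 * k) *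
          (1 / (CM * Real.log w) ^ (2 * k)) * x := by
          simp only [mul_pow]; field_simp
      _ ≤ w * η * Vk a w * x := by gcongr
      _ ≤ (R ^ h : ℕ) * η * Vk a w * x := by gcongr
      _ = _ := by ring
  have hSd : SdV a b (2 * (k + 3)) v k w s R X N1 (R ^ s2) (2 * r) (q * r * 2001) (R ^ (3 + s2))
      (1 / 2 ^ m') Θ η ((2 + C) * R * (X : ℝ) ^ 1999) :=
    { hN := hN, hk := hcard, hk3 := by omega, hK := le_rfl, hvw := hv, hw := by omega, hwR := hwR,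
      hRX := hRX, hX6 := by omega, hε := by positivity, hew := by omega, hL := hLv, hη := hη0.le
      hX1 := n6, hE1 := hE1, hSq1 := hSq1, hE := hE1.trans e8, hSq := hSq1.trans e8
      hZ := by rw [hR, ← pow_mul, mul_comm]
      hLX := by
        calc _ ≤ R * R ^ (3 + s2) := Nat.mul_le_mul_right _ hwR
          _ ≤ _ := by rw [← pow_succ', hX]; exact Nat.pow_le_pow_right (by omega) (by omega)
      he' := by rw [hX, hR, ← pow_mul, ← pow_mul, ← mul_assoc, mul_comm r]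
      hΘ := (Cel.Th_mono w ((Nat.le_self_pow three_ne_zero R).trans hRy)).trans hTy
      hEm := one_le_mul_of_one_le_of_one_le
        (one_le_mul_of_one_le_of_one_le (by linarith) (by linarith)) hX9
      hδ := by
        have h2 : Θ ^ (5 * k + 8) * ((10 * (2 * r : ℕ) + 20 * (k : ℝ) ^ 2) / w) ≤ η / 2 := by
          rw [div_le_iff₀ hη0] at w2
          rw [mul_div_assoc', div_le_div_iff₀ (by linarith) (by norm_num)]
          linarith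
        rw [add_div] at h2
        linarith }
  have b1 : S * (X : ℝ) ^ 1096 ≤ (2 + C) * R * (X : ℝ) ^ 1999 :=
    mul_le_mul (g8.trans (le_mul_of_one_le_left (by linarith) (by linarith)))
      (pow_le_pow_right₀ (by linarith) (by norm_num)) (pow_nonneg X.cast_nonneg _) (by positivity)
  have b2 : C * S ^ 2 * (X : ℝ) ^ 1999 ≤ (2 + C) * R * (X : ℝ) ^ 1999 :=
    mul_le_mul_of_nonneg_right (mul_le_mul (by linarith) g9 (by positivity) (by positivity))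
      (by positivity)
  have l4 := one_le_mul_of_one_le_of_one_le (one_le_mul_of_one_le_of_one_le hq1 hr') lw
  have b3 : 2 * (C * S ^ 2 * (1 + Real.log X) ^ 4 / R) * T ^ 2 ≤ 1 / q0 := by
    have l1 : Real.log X = q * r * Real.log w := by
      rw [hX, Nat.cast_pow, Real.log_pow, l3, mul_assoc]
    have l2 : 1 + Real.log X ≤ 2 * q * r * Real.log w := by rw [l1]; linarith
    have l0 := Real.log_natCast_nonneg X
    have l3 : 2 * C * T ^ 2 * q0 * (1 + Real.log X) ^ 4 * S ^ 2 ≤ R := by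
      refine le_of_sq_le_sq ?_ (by positivity)
      calc _ = (2 * C * T ^ 2 * q0) ^ 2 * (1 + Real.log X) ^ 8 * S ^ 4 := by ring
        _ ≤ (2 * C * T ^ 2 * q0) ^ 2 * (2 * q * r * Real.log w) ^ 8 * R := by gcongr
        _ ≤ R * R := by
            rw [mul_pow _ (Real.log w), ← mul_assoc]
            exact mul_le_mul_of_nonneg_right (w5.trans hR') (by positivity)
        _ = _ := by ring
    calc _ = 2 * C * T ^ 2 * q0 * (1 + Real.log X) ^ 4 * S ^ 2 / R * (1 / q0) := by field_simp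
      _ ≤ 1 * (1 / q0) := by gcongr; exact div_le_one_of_le₀ l3 (by positivity)
      _ = _ := one_mul _
  have b4 : Jn * Real.log 2 + 2 ≤ q * Real.log R * (1 / 2 + 1 / q0) := by
    have a1 : (q : ℝ) = 2 * (h + 1) := by exact_mod_cast hh
    have a2 : 32 ≤ q * (1 / (q0 : ℝ)) := by rw [mul_one_div, le_div_iff₀ (by linarith)]; exact hqq
    have a3 := mul_le_mul_of_nonneg_right a2 (zero_le_one.trans lR)
    have a4 : q * Real.log R * (1 / 2) = (h + 1) * Real.log R := by rw [a1]; ring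
    linarith
  have b5 : w * ((w ^ s : ℕ) * (Θ ^ k * 2 ^ (k * (q * r * 2001))) ^ 2) * 2000 *
      ((1 + 2000 * (q * Real.log R)) / y) ≤ 1 / q0 * (Vk a w * (1 / 4) ^ k) := by
    have a1 : (w : ℝ) * (w ^ s : ℕ) * w ≤ y := by
      have : w * w ^ s * w ≤ R * R * R := Nat.mul_le_mul (Nat.mul_le_mul hwR hsR) hwR
      exact_mod_cast this.trans (le_of_eq_of_le (by ring) hRy)
    have a2 : 1 + 2000 * (q * Real.log R) ≤ 4000 * (q * r * Real.log w) := by rw [l3]; linarith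
    have a3 : (0 : ℝ) < (w ^ s : ℕ) := by exact_mod_cast Nat.pow_pos (by omega)
    have a4 : (0 : ℝ) ≤ (Θ ^ k * 2 ^ (k * (q * r * 2001))) ^ 2 := sq_nonneg _
    generalize ((w ^ s : ℕ) : ℝ) = x at a1 a3
    generalize (Θ ^ k * 2 ^ (k * (q * r * 2001))) ^ 2 = z at w6 a4
    calc _ ≤ w * (x * z) * 2000 * (4000 * (q * r * Real.log w) / (w * x * w)) := by gcongr
      _ = z * (8000000 * q * r * q0) * 4 ^ k * CM ^ (2 * k) * Real.log w ^ (2 * k + 1) / w *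
          (1 / q0 * (1 / (CM * Real.log w) ^ (2 * k) * (1 / 4) ^ k)) := by
          simp only [mul_pow, one_div_pow, pow_succ (Real.log w)]; field_simp; ring
      _ ≤ 1 * (1 / q0 * (Vk a w * (1 / 4) ^ k)) := by
          gcongr; exact div_le_one_of_le₀ w6 (by positivity)
      _ = _ := one_mul _
  obtain ⟨χ0, x1, x2⟩ : ∃ χ0 : ℕ → ℝ, UC.Gd (R ^ 4) y η0 χ0 ∧ ((∀ n, χ0 n = 0) ∨ ∃ χ : RC, χ0 = χ.χ ∧
      (∀ x, χ.r ∣ a x) ∧ -(1 / 2000 * ((I ×ˢ (univ : Finset (Fin K))).card : ℝ)) ≤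
      ∑ x ∈ I ×ˢ (univ : Finset (Fin K)), PB φ y (X ^ 2000) χ.χ / PA φ y (X ^ 2000) * χ.χ (b x)) := by
    rcases hG with h0 | ⟨χ, h0, h2⟩
    exacts [⟨_, h0, .inl fun _ => rfl⟩, ⟨_, h0, .inr ⟨χ, rfl, h2⟩⟩]
  have x3 := fun (Q : ℕ) [NeZero Q] (F : ℕ → ℝ) (c0 σ : ℝ) (h2 : UC.FG (R ^ 4) y Q F c0) =>
    hU0 φ _ _ _ hB (by norm_num) le_rfl (R ^ 4) y Q (2000 * q') (X ^ 2000) F c0 σ χ0
      (le_trans (by omega) (Nat.le_self_pow four_ne_zero R)) hyy (by omega) hyw h2 x1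
  have hRy' := (Nat.le_self_pow three_ne_zero R).trans hRy
  subst hR hr
  obtain ⟨n, hn, hg⟩ := cmpV hH hJ hFG hF (J := J) (T := T) (L := L) I hI hq0 hSd sv sw n1 n2 n3 n4 n5
    (g1.mono hS1) (g2.mono hS1) (f1.mono hS2) (f2.mono hS2) b1
    (fun G G' κ κ' p1 p2 => by
      obtain ⟨κ'', p3, p4, p5, p6⟩ := hH2 _ X G G' κ κ' S (by omega) (by omega) p1 p2
      exact ⟨κ'', p3, p4, p5, fun a1 b1 a2 b2' q c N x1 x2 x3 x4 x5 x6 x7 x8 x9 =>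
        (p6 a1 b1 a2 b2' q c N x1 x2 x3 x4 x5 x6 x7 x8 x9).trans b2⟩)
    hT1 (g4.trans hT0) ((one_div_le_one_div_of_le (by positivity) hT0).trans g5) (f4.trans hT0')
    ((one_div_le_one_div_of_le (by positivity) hT0').trans f5)
    (fun n a1 a2 => (g6 n a1 a2).trans (hL ▸ le_max_left _ _)) g7
    (fun n a1 a2 => ⟨(f7 n a1 a2).1, (f7 n a1 a2).2.trans (hL ▸ le_max_right _ _)⟩) f8 f6
    (by omega) (by omega) hM2 (by positivity) (by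
      rw [one_div_mul_eq_div, div_le_div_iff₀ (by positivity) (by positivity), one_mul, hT]
      calc _ = (q0 : ℝ) * c1 ^ 4 * q ^ 4 := by ring
        _ ≤ _ := by exact_mod_cast hm2)
    (le_of_eq (by rw [hη, one_div_pow]; field_simp)) b3 (by
      calc _ ≤ 3 * L ^ 2 * T ^ 2 * (8 * c0 ^ 2 * M1) := by gcongr
        _ = 1 / q0 * K * ((J + 1) * (96 * L ^ 2 * T ^ 2 * q0 ^ 2 * M * c0 ^ 3)) := by
            rw [hM1, hk]; push_cast; field_simp; ring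
        _ ≤ _ := by rw [sq ((J : ℝ) + 1)]; gcongr; linarith) (by omega) b4 hB hlX hRy' hTy
    (by norm_num) (by norm_num) x3 x2 hPw b5
  obtain ⟨a1, a2⟩ := mem_Ico.1 hn
  refine ⟨n, (hwR.trans hRX).trans (n6.trans a1), (a2.le.trans n1).trans ?_, hg⟩
  rw [hXu, pow_succ']
  exact Nat.mul_le_mul_right _ (by omega)

end Pool.Agent.P.MP_746f10_nt.PV
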