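import Pool.Agent.P.MP_746f10_nt.PV.Core

/-! The lower bound for the number of primes. -/

set_option linter.unusedSectionVars false

namespace Pool.Agent.P.MP_746f10_nt.PV

open Finset P2
open scoped ArithmeticFunction.vonMangoldt

lemma low_num {a S c0 κ Z P e t l Pi E : ℝ} (ha : 0 < a) (hZ : 0 ≤ Z) (hP : 0 ≤ P) (t0 : 0 ≤ t)
    (t1 : t ≤ 1) (hl : 0 ≤ l) (he : 0 ≤ e) (h1 : |S - c0 * P| ≤ e * c0 * (2000 * l))
    (h2 : |c0 - κ| ≤ t * κ) (h3 : (1 - t) * Z ≤ a * κ) (h4 : a * κ ≤ Z)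
    (h5 : a * S ≤ 2000 * l * Pi + E) (h6 : E ≤ t * Z * l) :
    Z * ((1 - t) ^ 2 * P - (4000 * e + t) * l) ≤ 2000 * l * Pi := by
  obtain ⟨a1, a2⟩ := abs_le.1 h2
  have a0 : 0 ≤ a * κ := le_trans (mul_nonneg (by linarith) hZ) h3
  have b1 : (1 - t) * ((1 - t) * Z) ≤ a * c0 := by
    have := mul_le_mul_of_nonneg_left h3 (show 0 ≤ 1 - t by linarith)
    nlinarith
  have b2 : a * c0 ≤ 2 * Z := by nlinarith
  have b3 := mul_le_mul_of_nonneg_left (abs_le.1 h1).1 ha.le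
  have b4 := mul_le_mul_of_nonneg_right b1 hP
  have b5 := mul_le_mul_of_nonneg_right b2 (show 0 ≤ e * (2000 * l) by positivity)
  nlinarith

open Classical in
theorem lowV (hJ : Cel.S_JJ) (hFG : S_FG) (hF : S_First) {M K : ℕ} {a b : Fin M × Fin K → ℕ}
    {K0 v k w s M1 X N1 N2 D2 e e' Lvl q0 J y : ℕ} {ε Θ η Em l δ H e1 : ℝ} {φ : ℝ → ℝ} {χ0 : ℕ → ℝ}
    (T : Finset (Fin M × Fin K))
    (h : SdV a b K0 v k w s (w ^ (s * M1)) X N1 D2 e e' Lvl ε Θ η Em)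
    (sv : SieveW (GP a w) (w ^ s) (k + 3) ε) (hB : UC.Bump φ (3999 / 4000) 1 δ H)
    (hl : Real.log (X ^ 2000 : ℕ) = 2000 * l) (hN1 : (v * N1) ^ 4000 ≤ (X ^ 2000) ^ 3999)
    (hN2 : X ^ 2000 ≤ N2) (hN3 : w ^ (s * M1) < N1) (hy : w ^ (s * M1) ≤ y) (hΘ : Th w y ≤ Θ)
    (hq : 10 ≤ q0) (hs : 1 ≤ s) (hM1 : 4 * 2 ^ J ≤ M1) (hM2 : 4 * q0 * k * (J + 1) * CM ≤ M1)
    (c2 : η * Θ ≤ 1 / q0 * (1 / 4) ^ k) (he1 : 0 ≤ e1) (he2 : 4000 * e1 ≤ 8 / 100000)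
    (hC : ∀ (Q : ℕ) [NeZero Q] (F : ℕ → ℝ) (c0 σ : ℝ), UC.FG ((w ^ (s * M1)) ^ 4) y Q F c0 →
      ((∀ n, χ0 n = 0) ∨ ∃ χ : RC, χ0 = χ.χ ∧ χ.r ∣ Q ∧ χ.r ≤ (w ^ (s * M1)) ^ 4 ∧
        (σ = 1 ∨ σ = -1) ∧ ∀ m, F m ≠ 0 → χ0 m = σ) →
      |∑ m ∈ range (X ^ 2000), Λ m * ri y m * UC.wt φ (Real.log (X ^ 2000 : ℕ)) m * F m -
        c0 * ∑ m ∈ range (X ^ 2000), Λ m * ri y m * UC.wt φ (Real.log (X ^ 2000 : ℕ)) m *
          (1 + σ * χ0 m)| ≤ e1 * c0 * Real.log (X ^ 2000 : ℕ))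
    (hχ : (∀ n, χ0 n = 0) ∨ ∃ χ : RC, χ0 = χ.χ ∧ ∀ x, χ.r ∣ a x)
    (hP : l * (1 / 2 - 4 / 100000 - 1 / q0) ≤
      ∑ m ∈ range (X ^ 2000), Λ m * ri y m * UC.wt φ (Real.log (X ^ 2000 : ℕ)) m)
    (hθ : -(1 / 2000 * (T.card : ℝ)) *
      ∑ m ∈ range (X ^ 2000), Λ m * ri y m * UC.wt φ (Real.log (X ^ 2000 : ℕ)) m ≤
      ∑ x ∈ T, (∑ m ∈ range (X ^ 2000), Λ m * ri y m * UC.wt φ (Real.log (X ^ 2000 : ℕ)) m * χ0 m) *
        χ0 (b x))
    (hpp : w * ((w ^ s : ℕ) * (Θ ^ k * 2 ^ (k * e')) ^ 2) * 2000 * ((1 + 2000 * l) / y) ≤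
      1 / q0 * (Vk a w * (1 / 4) ^ k)) :
    T.card * (Vk a w * (a1 w s J (w ^ (s * M1)) ^ 2 * a2 w s J (w ^ (s * M1)) ^ (k - 1)) / VV w) * l *
      ((1 - 1 / q0) ^ 2 * ((1 - 1 / 2000) * (1 / 2 - 4 / 100000 - 1 / q0)) - (8 / 100000 + 1 / q0)) ≤
    2000 * l * ∑ x ∈ T, ∑ n ∈ Ico N1 N2, (if (a x * n + b x).Prime then 1 else 0) * (1 / (n : ℝ) *
        WT a b w s J (w ^ (s * M1)) (fun n => sv.U fun p => ev a b univ p n) n) := by
  have hw := h.hw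
  have hq0 : (10 : ℝ) ≤ q0 := by exact_mod_cast hq
  have hM0 : 1 ≤ M1 := le_trans (Nat.one_le_iff_ne_zero.2 (by positivity)) hM1
  have j1' : ∀ x : Fin M × Fin K, (1 - 1 / (q0 : ℝ)) * (a1 w s J (w ^ (s * M1)) ^ 2 *
      a2 w s J (w ^ (s * M1)) ^ (k - 1)) ≤ JJ w s J (w ^ (s * M1)) ({x}ᶜ : Finset _) := fun x => by
    refine le_trans (le_of_eq ?_) (hJ _ w s J M1 q0 {x}ᶜ (by omega) hs (by omega) (by simp) hM1
      (by rw [h.hk]; exact hM2))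
    rw [compl_compl, card_singleton, card_compl, h.hk, card_singleton, pow_one]
  have hsR : w ^ s ≤ w ^ (s * M1) := Nat.pow_le_pow_right (by omega) (Nat.le_mul_of_pos_right _ hM0)
  set R := w ^ (s * M1) with hR
  set t : ℝ := 1 / q0 with ht
  have t0 : 0 < t := by positivity
  have t2 : t ≤ 1 / 10 := by rw [ht]; gcongr
  have hR1 : 1 ≤ R := Nat.one_le_pow _ _ (by omega)
  have hVV := VV_pos w
  have hVk := h.toSd.Vpos
  have hΘ1 : 1 ≤ Θ := (one_le_Th w R).trans h.hΘ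
  have j1 : ∀ x : Fin M × Fin K,
      JJ w s J R ({x}ᶜ : Finset _) ≤ a1 w s J R ^ 2 * a2 w s J R ^ (k - 1) := fun x => by
    refine (JJ_le _ _ _ _ _).trans (le_of_eq ?_)
    rw [compl_compl, card_singleton, card_compl, h.hk, card_singleton, pow_one]
  have j4 : ∀ I : Finset (Fin M × Fin K), (1 / 4 : ℝ) ^ k ≤ JJ w s J R I := fun I => by
    have := JJ_ge_four (w := w) (by omega) s J hR1 I
    rwa [h.hk] at this
  have hX3 : 3 ≤ X ^ 2000 := le_trans (by have := h.hX6; omega) (Nat.le_self_pow (by norm_num) X)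
  have l0 : 0 ≤ l := by linarith [Real.log_natCast_nonneg (X ^ 2000)]
  have hwt : ∀ m, 0 ≤ Λ m * ri y m * UC.wt φ (Real.log (X ^ 2000 : ℕ)) m := fun m =>
    mul_nonneg (mul_nonneg ArithmeticFunction.vonMangoldt_nonneg (ri_bd y m).1)
      (div_nonneg (hB.nn _) (Nat.cast_nonneg _))
  have U0 : ∀ n, 0 ≤ sv.U fun p => ev a b univ p n := fun n =>
    sv.U_nonneg fun p _ => ⟨ev_nonneg _ _ _, ev_le_one _ _ _⟩
  have hA0 : 0 ≤ a1 w s J R ^ 2 * a2 w s J R ^ (k - 1) :=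
    mul_nonneg (sq_nonneg _) (pow_nonneg (a2_nonneg _ _ _ _) _)
  set A := a1 w s J R ^ 2 * a2 w s J R ^ (k - 1)
  set Z := Vk a w * A / VV w with hZ
  have Z0 : 0 ≤ Z := by positivity
  set P := ∑ m ∈ range (X ^ 2000), Λ m * ri y m * UC.wt φ (Real.log (X ^ 2000 : ℕ)) m with hPd
  set Pc := ∑ m ∈ range (X ^ 2000), Λ m * ri y m * UC.wt φ (Real.log (X ^ 2000 : ℕ)) m * χ0 m
    with hPc
  have one : ∀ x, Z * ((1 - t) ^ 2 * (P + Pc * χ0 (b x)) - (4000 * e1 + t) * l) ≤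
      2000 * l * ∑ n ∈ Ico N1 N2, (if (a x * n + b x).Prime then 1 else 0) * (1 / (n : ℝ) *
        WT a b w s J R (fun n => sv.U fun p => ev a b univ p n) n) := by
    intro x
    have ha := h.hN.pos x
    have ha' : (0 : ℝ) < a x := by exact_mod_cast ha
    have haw : a x ≤ w := (h.hN.le x).trans (by have := h.hvw; omega)
    obtain ⟨c0, f1, f2⟩ := hFG _ a b K0 v k w s J R y e ε Θ t sv x h.hN h.hk h.hk3 h.hK
      (by have := h.hvw; omega) hw h.hwR hsR hy h.hZ h.hew h.hε t0.le hΘ (by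
        have := mul_le_mul_of_nonneg_right h.hδ (zero_le_one.trans hΘ1)
        rw [pow_succ]; linarith)
    have : NeZero (a x * ∏ p ∈ PP 0 y, p) :=
      ⟨(Nat.mul_pos ha (prod_pos fun p hp => (PP_prime hp).pos)).ne'⟩
    have f0 : ∀ m, 0 ≤ 1 + χ0 (b x) * χ0 m := fun m => by
      rcases hχ with h0 | ⟨χ, rfl, -⟩
      · simp [h0]
      · have := abs_le.1 (χ.abs_le (b x * m)); rw [χ.mul] at this; linarith
    have f3 := hC _ _ c0 (χ0 (b x)) f1 (hχ.imp_right fun ⟨χ, e0, r1⟩ => by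
      subst e0
      refine ⟨χ, rfl, (r1 x).mul_right _, ((Nat.le_of_dvd ha (r1 x)).trans (haw.trans h.hwR)).trans
        (Nat.le_self_pow (by norm_num) R), (χ.val _).resolve_left
          (χ.ne _ ((h.hN.cop x).symm.coprime_dvd_right (r1 x))), fun m hm => ?_⟩
      have a1 : m % a x = b x := by by_contra a1; simp [lft, a1] at hm
      exact χ.of_modEq (Nat.ModEq.of_dvd (r1 x) (by rw [← a1]; exact (Nat.mod_modEq _ _).symm)))
    have f4 := hF φ δ H ((w ^ s : ℕ) * (Θ ^ k * 2 ^ (k * e')) ^ 2) (a x) (b x) v (X ^ 2000) N1 N2 y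
      (WT a b w s J R fun n => sv.U fun p => ev a b univ p n)
      (fun n => sv.U (fun p => ev a b univ p n) * Fw a b w s J R {x}ᶜ n ^ 2) hB (h.hN.lt x)
      (h.hN.le x) hX3 (by omega) (by omega) hN1 hN2 (fun n => mul_nonneg (U0 n) (sq_nonneg _))
      (fun n h1 h2 => by
        have b1 := fun z => h.valV h1 (h2.trans_le (Nat.le_mul_of_pos_left _ two_pos)) z
        have b2 := abs_Fw_le a b (show 2 ≤ w by omega) s J R {x}ᶜ
          (fun z => by have := (b1 z).1; omega) (fun z => (b1 z).2.trans h.he') h.hΘ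
        rw [h.hk] at b2
        have b3 := rem_le (fun p hp => (mem_GP.1 hp).2.1) sv.abs_up sv.supp_up zero_le_one
          (e := fun T => ∏ p ∈ T, ev a b univ p n) fun T _ _ => by
            rw [abs_of_nonneg (prod_nonneg fun p _ => ev_nonneg _ _ _)]
            exact prod_le_one (fun p _ => ev_nonneg _ _ _) fun p _ => ev_le_one _ _ _
        rw [mul_one] at b3
        exact mul_le_mul ((le_abs_self _).trans b3) (sq_le_sq' (abs_le.1 b2).1 (abs_le.1 b2).2)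
          (sq_nonneg _) (Nat.cast_nonneg _)) (by positivity)
      (fun n h1 hp => by
        rw [WT, Fw_collapse a b w s J R (subset_univ {x}ᶜ) fun z _ hz p hp' hd => ?_]
        rw [show z = x by simpa using hz] at hd
        have := (Nat.prime_dvd_prime_iff_eq (PP_prime hp') hp).1 hd
        have := (mem_PP.1 hp').2.1
        have := Nat.le_mul_of_pos_left n ha
        omega)
    have e1 : ∑ m ∈ range (X ^ 2000), Λ m * ri y m * UC.wt φ (Real.log (X ^ 2000 : ℕ)) m *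
        (1 + χ0 (b x) * χ0 m) = P + Pc * χ0 (b x) := by
      rw [hPd, hPc, sum_mul, ← sum_add_distrib]; exact sum_congr rfl fun m _ => by ring
    have e2 : 0 ≤ P + Pc * χ0 (b x) := e1 ▸ sum_nonneg fun m _ => mul_nonneg (hwt m) (f0 m)
    rw [e1] at f3
    generalize ∑ m ∈ range (X ^ 2000), Λ m * ri y m * UC.wt φ (Real.log (X ^ 2000 : ℕ)) m *
      lft (a x) (b x) _ m = S at f3 f4
    rw [hl] at f3 f4
    have e3 : (a x : ℝ) * (Vk a w * JJ w s J R ({x}ᶜ : Finset _) / (a x * VV w)) =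
        Vk a w * JJ w s J R ({x}ᶜ : Finset _) / VV w := by field_simp
    refine low_num ha' Z0 e2 t0.le (by linarith) l0 he1 f3 f2 ?_ ?_ f4 ?_
    · rw [e3, hZ, ← mul_div_assoc, mul_left_comm]; gcongr; exact j1' x
    · rw [e3, hZ]; gcongr; exact j1 x
    · have b1 : Vk a w * (1 / 4) ^ k ≤ Z := by
        rw [hZ, le_div_iff₀ hVV]
        exact (mul_le_of_le_one_right (by positivity) (VV_le_one w)).trans
          (mul_le_mul_of_nonneg_left ((j4 _).trans (j1 x)) hVk.le)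
      have b2 : (a x : ℝ) ≤ w := by exact_mod_cast haw
      calc _ ≤ w * ((w ^ s : ℕ) * (Θ ^ k * 2 ^ (k * e')) ^ 2) * (2000 * l) * ((1 + 2000 * l) / y) := by
            gcongr
        _ = w * ((w ^ s : ℕ) * (Θ ^ k * 2 ^ (k * e')) ^ 2) * 2000 * ((1 + 2000 * l) / y) * l := by ring
        _ ≤ t * (Vk a w * (1 / 4) ^ k) * l := by gcongr
        _ ≤ _ := by gcongr
  have a1 := sum_le_sum fun x (_ : x ∈ T) => one x
  rw [← mul_sum, ← mul_sum, sum_sub_distrib, ← mul_sum, sum_add_distrib, sum_const, sum_const,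
    nsmul_eq_mul, nsmul_eq_mul] at a1
  refine le_trans ?_ a1
  have T0 : (0 : ℝ) ≤ T.card := Nat.cast_nonneg _
  have a2 : T.card * ((1 - 1 / 2000) * (l * (1 / 2 - 4 / 100000 - t))) ≤
      T.card * P + ∑ x ∈ T, Pc * χ0 (b x) := by
    have := mul_le_mul_of_nonneg_left hP (show 0 ≤ T.card * (1 - 1 / 2000 : ℝ) by positivity)
    linarith
  have a3 := mul_le_mul_of_nonneg_left a2 (mul_nonneg Z0 (sq_nonneg (1 - t)))
  have a4 := mul_le_mul_of_nonneg_left he2 (show 0 ≤ Z * T.card * l by positivity)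
  linarith

end Pool.Agent.P.MP_746f10_nt.PV
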