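import Pool.Agent.P.MP_746f10_nt.PV.Up
import Pool.Agent.P.MP_746f10_nt.PV.Low

/-! The mean of the exceptional character over primes, and the comparison of the two bounds. -/

set_option linter.unusedSectionVars false

namespace Pool.Agent.P.MP_746f10_nt.PV

open Finset P2
open scoped ArithmeticFunction.vonMangoldt

/-- the weighted count of primes -/
noncomputable def PA (φ : ℝ → ℝ) (y N : ℕ) : ℝ :=
  ∑ m ∈ range N, Λ m * ri y m * UC.wt φ (Real.log N) m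

/-- the weighted character sum over primes -/
noncomputable def PB (φ : ℝ → ℝ) (y N : ℕ) (f : ℕ → ℝ) : ℝ :=
  ∑ m ∈ range N, Λ m * ri y m * UC.wt φ (Real.log N) m * f m

lemma th_le {φ : ℝ → ℝ} {α β δ H : ℝ} (hB : UC.Bump φ α β δ H) (y N : ℕ) (χ : RC) :
    |PB φ y N χ.χ / PA φ y N| ≤ 1 := by
  have hwt : ∀ m, 0 ≤ Λ m * ri y m * UC.wt φ (Real.log N) m := fun m =>
    mul_nonneg (mul_nonneg ArithmeticFunction.vonMangoldt_nonneg (ri_bd y m).1)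
      (div_nonneg (hB.nn _) (Nat.cast_nonneg _))
  have h0 : 0 ≤ PA φ y N := sum_nonneg fun m _ => hwt m
  rw [abs_div, abs_of_nonneg h0]
  refine div_le_one_of_le₀ ((abs_sum_le_sum_abs _ _).trans (sum_le_sum fun m _ => ?_)) h0
  rw [abs_mul, abs_of_nonneg (hwt m)]
  exact mul_le_of_le_one_right (hwt m) (χ.abs_le m)

lemma PA_ge (hW : UC.S_Win) {φ : ℝ → ℝ} {H l : ℝ} (hB : UC.Bump φ (3999 / 4000) 1 (1 / 10 ^ 8) H)
    {y U N q0 : ℕ} (hU : 3 ≤ U) (hN : N = y ^ U) (hy : 4000 * q0 ≤ y) (hq : 1 ≤ q0)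
    (hl : Real.log N = 2000 * l) (hl2 : 28 * (q0 : ℝ) ≤ l) :
    l * (1 / 2 - 4 / 100000 - 1 / q0) ≤ PA φ y N := by
  have hq' : (1 : ℝ) ≤ q0 := by exact_mod_cast hq
  have hy' : 4000 * (q0 : ℝ) ≤ y := by exact_mod_cast hy
  have h3 : 3 ≤ N := hN ▸ le_trans (by omega) (Nat.le_self_pow (by omega) y)
  have h := (hW φ _ _ _ H N y hB (by norm_num) (by norm_num) le_rfl (by norm_num) h3
    (by omega)).2.2.1
  have h1 : (y : ℝ) ^ 2 ≤ (N : ℝ) ^ (9 / 10 : ℝ) := by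
    have hU' : (3 : ℝ) ≤ U := by exact_mod_cast hU
    rw [hN, Nat.cast_pow, ← Real.rpow_natCast, ← Real.rpow_natCast, ← Real.rpow_mul (by linarith)]
    exact Real.rpow_le_rpow_of_exponent_le (by linarith) (by push_cast; linarith)
  have h2 : y * (2000 * l) / (N : ℝ) ^ (9 / 10 : ℝ) ≤ l * (1 / q0) / 2 := by
    calc _ ≤ y * (2000 * l) / (y * (4000 * q0)) := by
          refine div_le_div_of_nonneg_left (by nlinarith) (by nlinarith) (le_trans ?_ h1)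
          rw [sq]; gcongr
      _ = _ := by
          have : (y : ℝ) ≠ 0 := by linarith
          field_simp; ring
  have h4 : 14 ≤ l * (1 / q0) / 2 := by
    rw [mul_one_div, div_div, le_div_iff₀ (by positivity)]; linarith
  rw [hl] at h
  unfold PA
  rw [hl]
  linarith

open Classical in
theorem cmpV (hH : S_HC1) (hJ : Cel.S_JJ) (hFG : S_FG) (hF : S_First) {m M K : ℕ}
    {a b : Fin M × Fin K → ℕ} {K0 v k w s M1 X N1 D2 e e' Lvl q0 J Jn y : ℕ}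
    {ε ε2 Θ η Em κ1 κ2 κ3 κ4 S T L δ l δ' H e1 : ℝ} {G1 G2 G3 G4 φ' : ℕ → ℝ} {φ : ℝ → ℝ}
    (I : Finset (Fin M)) (hI : 183 * m < 50 * I.card) (hq : q0 = 10 ^ 11 * M ^ 2)
    (h : SdV a b K0 v k w s (w ^ (s * M1)) X N1 D2 e e' Lvl ε Θ η Em)
    (sv : SieveW (GP a w) (w ^ s) (k + 3) ε) (s2 : SieveW (PP w (w ^ (s * M1))) D2 2 ε2)
    (hN2 : N1 * 2 ^ Jn ≤ 2 * X ^ 2000) (hN3 : X ^ 365 < N1) (hN4 : N1 ≤ X ^ 2000)
    (hN5 : (v * N1) ^ 4000 ≤ (X ^ 2000) ^ 3999) (hN6 : X ^ 2000 ≤ N1 * 2 ^ Jn)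
    (hG1 : Pos (w ^ (s * M1)) X G1 κ1 S) (hG2 : Pos (w ^ (s * M1)) X G2 κ2 S)
    (hG3 : Pos (w ^ (s * M1)) X G3 κ3 S) (hG4 : Pos (w ^ (s * M1)) X G4 κ4 S)
    (hS : S * (X : ℝ) ^ 1096 ≤ Em)
    (hP : ∀ (G G' : ℕ → ℝ) (κ κ' : ℝ), Pos (w ^ (s * M1)) X G κ S → Pos (w ^ (s * M1)) X G' κ' S →
      ∃ κ'' : ℝ, 0 ≤ κ'' ∧ κ'' ≤ κ * κ' ∧ κ * κ' - κ'' ≤ δ ∧
      ∀ a1 b1 a2 b2 q c N : ℕ, Sep (w ^ (s * M1)) a1 b1 a2 b2 → b1 < a1 → b2 < a2 → 0 < q →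
        a1 * q ≤ X → a2 * q ≤ X → (∀ p : ℕ, p.Prime → p ∣ q → p ≤ w ^ (s * M1)) → q ≤ N →
        N ≤ X ^ 2000 → |∑ n ∈ Ico N (2 * N), G (a1 * n + b1) * G' (a2 * n + b2) *
          (if n ≡ c [MOD q] then 1 else 0) - (N : ℝ) * κ'' / q| ≤ Em)
    (hT1 : 1 ≤ T) (hT2 : κ1 + κ2 ≤ T) (hT3 : 1 / T ≤ κ1 - κ2) (hT4 : κ3 + κ4 ≤ T)
    (hT5 : 1 / T ≤ κ3 - κ4) (hL : ∀ n, 1 ≤ n → n ≤ X ^ 2001 → |G1 n - G2 n| ≤ L)
    (hsign : ∀ n, 1 ≤ n → n ≤ X ^ 2001 → rough (w ^ (s * M1)) n →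
      (∀ p : ℕ, p.Prime → X ^ 274 < p → p ≤ X ^ 986 → ¬ p ^ 2 ∣ n) →
      G2 n < G1 n → n.primeFactorsList.length ≤ 2)
    (hL' : ∀ n, 1 ≤ n → n ≤ X ^ 2001 → 0 ≤ G3 n - G4 n ∧ G3 n - G4 n ≤ L)
    (hmaj : ∀ p : ℕ, p.Prime → X ^ 365 < p → p ≤ X ^ 2001 → 1 ≤ G3 p - G4 p)
    (hκ : (κ3 - κ4) * VV (w ^ (s * M1)) * l ≤ 2001 / 1095000)
    (hs : 1 ≤ s) (hM1 : 4 * 2 ^ J ≤ M1) (hM2 : 4 * q0 * k * (J + 1) * CM ≤ M1)
    (hε2 : 0 ≤ ε2) (c1 : ε2 * T ^ 4 ≤ 1 / q0) (c2 : 5 * η * T ^ 4 * Θ ^ 2 ≤ 1 / q0 * (1 / 4) ^ k)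
    (c3 : 2 * δ * T ^ 2 ≤ 1 / q0) (c4 : 3 * L ^ 2 * T ^ 2 * (8 * CM ^ 2 * M1) ≤ 1 / q0 * K * (J + 1) ^ 2)
    (hK : 0 < K) (hl : Jn * Real.log 2 + 2 ≤ l * (1 / 2 + 1 / q0))
    (hB : UC.Bump φ (3999 / 4000) 1 δ' H) (hl' : Real.log (X ^ 2000 : ℕ) = 2000 * l)
    (hy : w ^ (s * M1) ≤ y) (hΘ : Th w y ≤ Θ) (he1 : 0 ≤ e1) (he2 : 4000 * e1 ≤ 8 / 100000)
    (hC : ∀ (Q : ℕ) [NeZero Q] (F : ℕ → ℝ) (c0 σ : ℝ), UC.FG ((w ^ (s * M1)) ^ 4) y Q F c0 →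
      ((∀ n, φ' n = 0) ∨ ∃ χ : RC, φ' = χ.χ ∧ χ.r ∣ Q ∧ χ.r ≤ (w ^ (s * M1)) ^ 4 ∧
        (σ = 1 ∨ σ = -1) ∧ ∀ m, F m ≠ 0 → φ' m = σ) →
      |∑ m ∈ range (X ^ 2000), Λ m * ri y m * UC.wt φ (Real.log (X ^ 2000 : ℕ)) m * F m -
        c0 * ∑ m ∈ range (X ^ 2000), Λ m * ri y m * UC.wt φ (Real.log (X ^ 2000 : ℕ)) m *
          (1 + σ * φ' m)| ≤ e1 * c0 * Real.log (X ^ 2000 : ℕ))
    (hχ : (∀ n, φ' n = 0) ∨ ∃ χ : RC, φ' = χ.χ ∧ (∀ x, χ.r ∣ a x) ∧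
      -(1 / 2000 * ((I ×ˢ (univ : Finset (Fin K))).card : ℝ)) ≤ ∑ x ∈ I ×ˢ (univ : Finset (Fin K)),
        PB φ y (X ^ 2000) χ.χ / PA φ y (X ^ 2000) * χ.χ (b x))
    (hPA : l * (1 / 2 - 4 / 100000 - 1 / q0) ≤ PA φ y (X ^ 2000))
    (hpp : w * ((w ^ s : ℕ) * (Θ ^ k * 2 ^ (k * e')) ^ 2) * 2000 * ((1 + 2000 * l) / y) ≤
      1 / q0 * (Vk a w * (1 / 4) ^ k)) :
    ∃ n ∈ Ico N1 (N1 * 2 ^ Jn), GoodV m I a b n := by
  by_contra! hno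
  have hI1 : 1 ≤ I.card := by omega
  have hIM : I.card ≤ M := by simpa using card_le_univ I
  have hM : 1 ≤ M := hI1.trans hIM
  have hq10 : 10 ≤ q0 := by
    have := Nat.one_le_pow 2 M hM
    omega
  have hq0 : (10 : ℝ) ≤ q0 := by exact_mod_cast hq10
  have t2 : 1 / (q0 : ℝ) ≤ 1 / 10 := by gcongr
  have hΘ1 : 1 ≤ Θ := (one_le_Th w _).trans h.hΘ
  have l0 : 0 < l := by
    have h1 : (0 : ℝ) ≤ Jn * Real.log 2 := mul_nonneg (Nat.cast_nonneg _) (Real.log_nonneg one_le_two)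
    by_contra h0
    have := mul_nonpos_of_nonpos_of_nonneg (not_lt.1 h0) (show 0 ≤ 1 / 2 + 1 / (q0 : ℝ) by positivity)
    linarith
  have P0 : 0 < PA φ y (X ^ 2000) := lt_of_lt_of_le (mul_pos l0 (by linarith)) hPA
  have U := upV hH hJ I hM h sv s2 hN2 hN3 hN4 hG1 hG2 hG3 hG4 hS hP hT1 hT2 hT3 hT4 hT5 hL hsign hL'
    hmaj hκ hq10 hs hM1 hM2 hε2 c1 c2 c3 c4 hK hl hno
  have W := lowV hJ hFG hF (I ×ˢ (univ : Finset (Fin K))) h sv hB hl' hN5 hN6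
    (lt_of_le_of_lt (h.hRX.trans (Nat.le_self_pow (by norm_num) X)) hN3) hy hΘ hq10 hs hM1 hM2
    (le_trans (by
      have h1 := h.hη
      have h2 : Θ ≤ 5 * (T ^ 4 * Θ ^ 2) := by
        have := le_mul_of_one_le_left (sq_nonneg Θ) (one_le_pow₀ (n := 4) hT1)
        nlinarith
      have := mul_le_mul_of_nonneg_left h2 h1
      linarith) c2) he1 he2 hC (hχ.imp_right fun ⟨χ, h1, h2, _⟩ => ⟨χ, h1, h2⟩) hPA (by
      rcases hχ with h0 | ⟨χ, rfl, -, h1⟩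
      · simp only [h0, mul_zero, sum_const_zero]
        exact mul_nonpos_of_nonpos_of_nonneg (neg_nonpos.2 (by positivity)) P0.le
      · have h2 := mul_le_mul_of_nonneg_right h1 P0.le
        rw [sum_mul] at h2
        refine h2.trans (le_of_eq (sum_congr rfl fun x _ => ?_))
        change _ = PB φ y (X ^ 2000) χ.χ * _
        field_simp) hpp
  have hN := numV (m := m) (j := I.card) (M := M) (t := 1 / q0) (Nat.cast_nonneg _)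
    (by exact_mod_cast hI.le) (by exact_mod_cast hI1) (by exact_mod_cast hIM) (by positivity)
    (by rw [mul_one_div, div_le_one (by positivity), hq]; norm_num)
  have hw := h.hw
  have hZ : 0 < Vk a w * (a1 w s J (w ^ (s * M1)) ^ 2 * a2 w s J (w ^ (s * M1)) ^ (k - 1)) / VV w := by
    obtain ⟨x⟩ : Nonempty (Fin M × Fin K) := ⟨(⟨0, hM⟩, ⟨0, hK⟩)⟩
    have j1 := JJ_le w s J (w ^ (s * M1)) ({x}ᶜ : Finset (Fin M × Fin K))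
    rw [compl_compl, card_singleton, card_compl, h.hk, card_singleton, pow_one] at j1
    have j2 := JJ_ge_four (w := w) (by omega) s J (Nat.one_le_pow (s * M1) w (by omega))
      ({x}ᶜ : Finset (Fin M × Fin K))
    exact div_pos (mul_pos h.toSd.Vpos (lt_of_lt_of_le (by positivity) (j2.trans j1))) (VV_pos w)
  rw [card_product, card_univ, Fintype.card_fin, Nat.cast_mul] at W
  have hK' : (0 : ℝ) < K := by exact_mod_cast hK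
  have := mul_lt_mul_of_pos_left hN (mul_pos (mul_pos hK' hZ) l0)
  linarith

end Pool.Agent.P.MP_746f10_nt.PV
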