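import Pool.Agent.P.MP_746f10_nt.PV.EV

/-! The sieve sums on the dyadic blocks of a long range. -/

set_option linter.unusedSectionVars false

namespace Pool.Agent.P.MP_746f10_nt.PV

open Finset P2

variable {ι : Type} [Fintype ι] [DecidableEq ι]

/-- the hypotheses for all blocks above `N1` -/
structure SdV (a b : ι → ℕ) (K0 v k w s R X N1 D2 e e' Lvl : ℕ) (ε Θ η Em : ℝ) : Prop
    extends Sd a b K0 v k w s R X D2 e e' Lvl ε Θ η Em where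
  hX1 : X ≤ N1
  hE1 : Θ ^ (5 * k + 8) * ((Lvl : ℝ) ^ 3 * Em) ≤ η * ((N1 : ℝ) * Vk a w)
  hSq1 : (Θ ^ k * 2 ^ (k * e')) ^ 2 * (k * (2 * (X : ℝ) ^ 1999)) ≤ η * ((N1 : ℝ) * Vk a w)

namespace SdV

variable {a b : ι → ℕ} {K0 v k w s R X N1 D2 e e' Lvl N : ℕ} {ε Θ η Em ε2 : ℝ} {θ : ℕ → ℝ}
  (h : SdV a b K0 v k w s R X N1 D2 e e' Lvl ε Θ η Em)
include h

lemma xposV (h1 : N1 ≤ N) : 0 < (N : ℝ) * Vk a w := by
  have := h.toSd.Vpos
  have : (0 : ℝ) < N := by exact_mod_cast (by have := h.hX6; have := h.hX1; omega : 0 < N)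
  positivity

lemma mono (h1 : N1 ≤ N) : η * ((N1 : ℝ) * Vk a w) ≤ η * ((N : ℝ) * Vk a w) := by
  have := h.toSd.Vpos
  have := h.hη
  have : (N1 : ℝ) ≤ N := by exact_mod_cast h1
  gcongr

lemma valV {n : ℕ} (h1 : N1 ≤ n) (h2 : n < 2 * X ^ 2000) (l : ι) :
    1 ≤ a l * n + b l ∧ a l * n + b l ≤ X ^ 2001 := by
  have h3 := h.hN.lt l
  refine ⟨le_trans (Nat.mul_pos (h.hN.pos l) (by have := h.hX6; have := h.hX1; omega))
    (Nat.le_add_right _ _), ?_⟩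
  calc _ ≤ a l * (n + 1) := by rw [mul_add, mul_one]; omega
    _ ≤ v * (2 * X ^ 2000) := Nat.mul_le_mul (h.hN.le l) h2
    _ = 2 * v * X ^ 2000 := by ring
    _ ≤ X * X ^ 2000 := Nat.mul_le_mul_right _ (h.hvw.trans (h.hwR.trans h.hRX))
    _ = _ := by ring

lemma valB (h1 : N1 ≤ N) (h2 : N ≤ X ^ 2000) {n : ℕ} (hn : n ∈ Ico N (2 * N)) (l : ι) :
    1 ≤ a l * n + b l ∧ a l * n + b l ≤ X ^ 2001 :=
  h.valV (h1.trans (mem_Ico.1 hn).1) ((mem_Ico.1 hn).2.trans_le (Nat.mul_le_mul_left _ h2)) l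

lemma evV (sv : SieveW (GP a w) (w ^ s) (k + 3) ε) (s2 : SieveW (PP w R) D2 2 ε2) (J : ℕ)
    (hθ : ∀ n, rg a b w n ≤ θ n ∧ θ n ≤ sv.U (fun p => ev a b univ p n)) (h1 : N1 ≤ N)
    {μ : ℕ → ℝ} {κ : ℝ} (hκ : 0 ≤ κ) (hμ : ∀ n, 0 ≤ μ n)
    (hc : ∀ q c : ℕ, 0 < q → q ≤ Lvl → (∀ p : ℕ, p.Prime → p ∣ q → p ≤ R) →
      |∑ n ∈ Ico N (2 * N), μ n * (if n ≡ c [MOD q] then 1 else 0) - (N : ℝ) * κ / q| ≤ Em)
    {I : Finset ι} (hI : I.card ≤ 2) :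
    |∑ n ∈ Ico N (2 * N), μ n * (WT a b w s J R θ n * rho a b w R I n) -
      κ * ((N : ℝ) * Vk a w * (Vj w R I.card * JJ w s J R Iᶜ))| ≤
      ε2 * (κ * ((N : ℝ) * Vk a w * (Vj w R I.card * JJ w s J R Iᶜ))) +
        η * ((N : ℝ) * Vk a w) * (κ + 1) := by
  have h0 := ev_main h.hN h.hk h.hk3 h.hK (by have := h.hvw; omega) h.hw h.hwR sv h.hε s2
    (Ω := Ico N (2 * N)) (μ := μ) (X := (N : ℝ) * κ) (E := Em) (Lvl := Lvl) (fun T hT hL c _ => by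
      have hT' : ∀ p ∈ T, p.Prime := fun p hp => (mem_GP.1 (hT hp)).2.1
      have := hc (∏ p ∈ T, p) c (prod_pos fun p hp => (hT' p hp).pos) hL fun p hp hd => by
        obtain ⟨r, hr, hd'⟩ := (hp.prime.dvd_finsetProd_iff _).1 hd
        rw [(Nat.prime_dvd_prime_iff_eq hp (hT' r hr)).1 hd']
        exact (mem_GP.1 (hT hr)).1
      rw [prod_div_distrib, prod_const_one, mul_one_div, ← Nat.cast_prod]
      exact this) (by linarith [h.hEm]) (by positivity) (fun n _ => hμ n) hθ s J hI h.hZ h.hew h.hL h.hΘ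
  have h2 := mul_le_mul_of_nonneg_left h.hδ (mul_nonneg hκ (h.xposV h1).le)
  have h3 := h.hE1.trans (h.mono h1)
  have e1 : κ * ((N : ℝ) * Vk a w * (Vj w R I.card * JJ w s J R Iᶜ)) =
    (N : ℝ) * κ * Vk a w * (Vj w R I.card * JJ w s J R Iᶜ) := by ring
  rw [e1]
  refine h0.trans (add_le_add le_rfl ?_)
  linarith

lemma ev0 (sv : SieveW (GP a w) (w ^ s) (k + 3) ε) (s2 : SieveW (PP w R) D2 2 ε2) (J : ℕ)
    (hθ : ∀ n, rg a b w n ≤ θ n ∧ θ n ≤ sv.U (fun p => ev a b univ p n)) (h1 : N1 ≤ N)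
    {I : Finset ι} (hI : I.card ≤ 2) :
    |∑ n ∈ Ico N (2 * N), WT a b w s J R θ n * rho a b w R I n -
      (N : ℝ) * Vk a w * (Vj w R I.card * JJ w s J R Iᶜ)| ≤
      ε2 * ((N : ℝ) * Vk a w * (Vj w R I.card * JJ w s J R Iᶜ)) +
        η * ((N : ℝ) * Vk a w) * 2 := by
  have := h.evV sv s2 J hθ h1 (μ := fun _ => 1) (κ := 1) zero_le_one (fun _ => zero_le_one)
    (fun q c hq _ _ => by
      have h2 := count_class hq c (show N ≤ 2 * N by omega)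
      refine le_trans (le_of_eq ?_) (h2.trans h.hEm)
      simp only [one_mul, mul_one]
      congr 2
      push_cast; ring) hI
  simpa only [one_mul, one_add_one_eq_two] using this

lemma ev1 (hH : S_HC1) (sv : SieveW (GP a w) (w ^ s) (k + 3) ε) (s2 : SieveW (PP w R) D2 2 ε2)
    (J : ℕ) (hθ : ∀ n, rg a b w n ≤ θ n ∧ θ n ≤ sv.U (fun p => ev a b univ p n)) (h1 : N1 ≤ N)
    {G : ℕ → ℝ} {κ S : ℝ} (hG : Pos R X G κ S) (hS : S * (X : ℝ) ^ 1096 ≤ Em) (j : ι) :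
    |∑ n ∈ Ico N (2 * N), G (a j * n + b j) * (WT a b w s J R θ n * rho a b w R {j} n) -
      κ * ((N : ℝ) * Vk a w * (Vj w R 1 * JJ w s J R ({j}ᶜ : Finset ι)))| ≤
      ε2 * (κ * ((N : ℝ) * Vk a w * (Vj w R 1 * JJ w s J R ({j}ᶜ : Finset ι)))) +
        η * ((N : ℝ) * Vk a w) * (κ + 1) :=
  h.evV sv s2 J hθ h1 hG.mean_nonneg (fun _ => hG.nonneg _) (fun q c hq _ hp => by
    have := hH.1 R X (a j) (b j) q c N (2 * N) G κ S hG (by omega) hq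
      fun p hp' hR => ⟨h.toSd.ndvd hR j, fun hd => absurd (hp p hp' hd) (by omega)⟩
    refine le_trans (le_of_eq ?_) (this.trans hS)
    congr 3
    push_cast; ring) (I := {j}) (by simp)

lemma ev2 (sv : SieveW (GP a w) (w ^ s) (k + 3) ε) (s2 : SieveW (PP w R) D2 2 ε2)
    (J : ℕ) (hθ : ∀ n, rg a b w n ≤ θ n ∧ θ n ≤ sv.U (fun p => ev a b univ p n)) (hN1 : N1 ≤ N)
    (hN2 : N ≤ X ^ 2000) {G1 G2 : ℕ → ℝ} {κ : ℝ} (h1 : ∀ m, 0 ≤ G1 m) (h2 : ∀ m, 0 ≤ G2 m)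
    (hκ : 0 ≤ κ)
    (hc : ∀ a1 b1 a2 b2 q c N : ℕ, Sep R a1 b1 a2 b2 → b1 < a1 → b2 < a2 → 0 < q → a1 * q ≤ X →
        a2 * q ≤ X → (∀ p : ℕ, p.Prime → p ∣ q → p ≤ R) → q ≤ N → N ≤ X ^ 2000 →
        |∑ n ∈ Ico N (2 * N), G1 (a1 * n + b1) * G2 (a2 * n + b2) *
          (if n ≡ c [MOD q] then 1 else 0) - (N : ℝ) * κ / q| ≤ Em) {i j : ι} (hij : i ≠ j) :
    |∑ n ∈ Ico N (2 * N), G1 (a i * n + b i) * G2 (a j * n + b j) *
        (WT a b w s J R θ n * rho a b w R {i, j} n) -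
      κ * ((N : ℝ) * Vk a w * (Vj w R 2 * JJ w s J R ({i, j}ᶜ : Finset ι)))| ≤
      ε2 * (κ * ((N : ℝ) * Vk a w * (Vj w R 2 * JJ w s J R ({i, j}ᶜ : Finset ι)))) +
        η * ((N : ℝ) * Vk a w) * (κ + 1) := by
  have hl : ∀ l q, q ≤ Lvl → a l * q ≤ X := fun l q hq =>
    (Nat.mul_le_mul ((h.hN.le l).trans (by have := h.hvw; omega)) hq).trans h.hLX
  have := h.evV sv s2 J hθ hN1 hκ (fun n => mul_nonneg (h1 _) (h2 _)) (fun q c hq hL hp =>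
    hc (a i) (b i) (a j) (b j) q c N (h.toSd.sep hij) (h.hN.lt i) (h.hN.lt j) hq
      (hl i q hL) (hl j q hL) hp (((Nat.le_mul_of_pos_left _ (h.hN.pos i)).trans (hl i q hL)).trans
        (h.hX1.trans hN1)) hN2) (I := {i, j}) card_le_two
  rwa [card_pair hij] at this

/-- the total mass for the logarithmic measure -/
lemma evL (sv : SieveW (GP a w) (w ^ s) (k + 3) ε) (s2 : SieveW (PP w R) D2 2 ε2) (J : ℕ)
    (hθ : ∀ n, rg a b w n ≤ θ n ∧ θ n ≤ sv.U (fun p => ev a b univ p n)) {N2 : ℕ} (h1 : N1 ≤ N2) :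
    ∑ n ∈ Ico N1 N2, 1 / (n : ℝ) * WT a b w s J R θ n ≤
      (∑ n ∈ Ico N1 N2, 1 / (n : ℝ)) * (Vk a w * ((1 + ε2) * JJ w s J R (univ : Finset ι) + η)) +
        η * Vk a w := by
  have hN0 : (1 : ℝ) ≤ N1 := by exact_mod_cast (by have := h.hX6; have := h.hX1; omega : 1 ≤ N1)
  have hX : 0 ≤ ∑ n ∈ Ico N1 N2, 1 / (n : ℝ) := sum_nonneg fun _ _ => by positivity
  have h0 := ev_main h.hN h.hk h.hk3 h.hK (by have := h.hvw; omega) h.hw h.hwR sv h.hε s2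
    (HC_anti (a := a) (b := b) (P := GP a R) (ω := fun n => 1 / (n : ℝ))
      (fun p hp => (mem_GP.1 hp).2.1) h1 (fun n _ => by positivity) (fun n hn => by
        have : (N1 : ℝ) ≤ n := by exact_mod_cast hn
        push_cast
        exact one_div_le_one_div_of_le (by linarith) (by linarith)) Lvl)
    (by positivity) hX (fun n _ => by positivity) hθ s J (I := ∅) (by simp) h.hZ h.hew h.hL h.hΘ
  simp only [rho_empty, mul_one, card_empty, Vj_zero, one_mul, compl_empty] at h0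
  have hV := h.toSd.Vpos
  have h2 := mul_le_mul_of_nonneg_left h.hδ (mul_nonneg hX hV.le)
  have hΘ0 : 0 ≤ Θ := zero_le_one.trans ((one_le_Th w R).trans h.hΘ)
  have h3 : Θ ^ (5 * k + 8) * ((Lvl : ℝ) ^ 3 * (1 / N1)) ≤ η * Vk a w := by
    have a1 : Θ ^ (5 * k + 8) * (Lvl : ℝ) ^ 3 ≤ Θ ^ (5 * k + 8) * ((Lvl : ℝ) ^ 3 * Em) :=
      mul_le_mul_of_nonneg_left (le_mul_of_one_le_right (by positivity) h.hEm) (by positivity)
    have a2 := a1.trans h.hE1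
    have a3 : 0 ≤ η * Vk a w := mul_nonneg h.hη hV.le
    rw [← mul_assoc, mul_one_div, div_le_iff₀ (by linarith)]
    linarith
  have := (abs_le.1 h0).2
  linarith

open Classical in
lemma sq_le (hH : S_HC1) (J : ℕ) (hN1 : N1 ≤ N) (hN2 : N ≤ X ^ 2000) :
    ∑ n ∈ (Ico N (2 * N)).filter (fun n => ∃ l, ∃ p : ℕ, p.Prime ∧ X ^ 274 < p ∧ p ≤ X ^ 986 ∧
      p ^ 2 ∣ a l * n + b l), WT a b w s J R (rg a b w) n ≤ η * ((N : ℝ) * Vk a w) := by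
  refine le_trans ?_ (h.hSq1.trans (h.mono hN1))
  have hX : (1 : ℝ) ≤ X := by exact_mod_cast (by have := h.hX6; omega : 1 ≤ X)
  have h1 : ∀ n ∈ Ico N (2 * N), WT a b w s J R (rg a b w) n ≤ (Θ ^ k * 2 ^ (k * e')) ^ 2 :=
    fun n hn => by
    have := abs_Fw_le a b (show 2 ≤ w by have := h.hw; omega) s J R univ
      (fun l => by have := (h.valB hN1 hN2 hn l).1; omega)
      (fun l => (h.valB hN1 hN2 hn l).2.trans h.he') h.hΘ
    rw [h.hk] at this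
    exact (mul_le_of_le_one_left (sq_nonneg _) (rg_le_one _ _ _ _)).trans
      (sq_le_sq' (abs_le.1 this).1 (abs_le.1 this).2)
  refine (sum_le_card_nsmul _ _ _ fun n hn => h1 n (mem_filter.1 hn).1).trans ?_
  rw [nsmul_eq_mul, mul_comm]
  refine mul_le_mul_of_nonneg_left ?_ (sq_nonneg _)
  have h2 : ∀ l, (((Ico N (2 * N)).filter fun n => ∃ p : ℕ, p.Prime ∧ X ^ 274 < p ∧ p ≤ X ^ 986 ∧
      p ^ 2 ∣ a l * n + b l).card : ℝ) ≤ 2 * (X : ℝ) ^ 1999 := fun l => by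
    have := hH.2 (a l) (b l) N (X ^ 274) (X ^ 986)
      (Nat.one_le_pow _ _ (by have := h.hX6; omega)) fun p _ hp =>
        h.toSd.ndvd (lt_of_le_of_lt (h.hRX.trans (Nat.le_self_pow (by norm_num) X)) hp) l
    refine le_trans this ?_
    have e0 : (N : ℝ) ≤ (X : ℝ) ^ 2000 := by exact_mod_cast hN2
    push_cast
    have e1 : (N : ℝ) / X ^ 274 ≤ X ^ 1726 := by
      rw [div_le_iff₀ (by positivity), ← pow_add]; exact e0
    have e2 : (X : ℝ) ^ 1726 ≤ X ^ 1999 := pow_le_pow_right₀ hX (by norm_num)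
    have e3 : (X : ℝ) ^ 986 ≤ X ^ 1999 := pow_le_pow_right₀ hX (by norm_num)
    linarith
  calc _ ≤ ((univ.biUnion fun l => (Ico N (2 * N)).filter fun n => ∃ p : ℕ, p.Prime ∧ X ^ 274 < p ∧
        p ≤ X ^ 986 ∧ p ^ 2 ∣ a l * n + b l).card : ℝ) := by
        refine Nat.cast_le.2 (card_le_card fun n hn => ?_)
        obtain ⟨h3, l, h4⟩ := mem_filter.1 hn
        exact mem_biUnion.2 ⟨l, mem_univ _, mem_filter.2 ⟨h3, h4⟩⟩
    _ ≤ ∑ l : ι, 2 * (X : ℝ) ^ 1999 := by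
        refine le_trans ?_ (sum_le_sum fun l _ => h2 l)
        exact_mod_cast card_biUnion_le
    _ = _ := by rw [sum_const, card_univ, h.hk, nsmul_eq_mul]

end SdV

end Pool.Agent.P.MP_746f10_nt.PV
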