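import Pool.Agent.P.MP_746f10_nt.P2.Defs
import Pool.Agent.P.MP_746f10_nt.UC.Defs
import Pool.Agent.P.MP_0ad054_nt.An.Defs

/-! Primes in many cells and almost primes in every cell at a point of polynomial size:
definitions and the statements of the parts of the proof. -/

namespace Pool.Agent.P.MP_746f10_nt.PV

open Finset Pool.Agent.P.MP_0ad054_nt.Sun
open scoped ArithmeticFunction.vonMangoldt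

/-! ### the constant of the linear sieve -/

/-- the Liouville function -/
noncomputable def lv (n : ℕ) : ℝ := (-1 : ℝ) ^ ArithmeticFunction.cardFactors n

def S_Liou : Prop :=
  ∃ C : ℝ, 0 < C ∧ ∀ y : ℕ, 2 ≤ y → |∑ n ∈ Icc 1 y, lv n| ≤ C * y / Real.log y ^ 3

/-- rough numbers with an even number of prime factors -/
def S_Even : Prop :=
  ∀ ε : ℝ, 0 < ε → ∃ M Y0 : ℕ, 1 ≤ M ∧ ∀ Y : ℕ, Y0 ≤ Y →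
    ∑ n ∈ Icc 1 (Y ^ (4 * M + 1)), ri (Y ^ M) n * (1 + lv n) ≤
      (Real.log 3 / 2 + ε) * (Y : ℝ) ^ (4 * M + 1) / (M * Real.log Y)

/-- the lower bound sieve with the constant `A` -/
def Low (A : ℝ) : Prop :=
  ∀ ε : ℝ, 0 < ε → ∃ η : ℝ, 0 < η ∧ ∃ z0 : ℝ, ∀ (P : Finset ℕ) (g : ℕ → ℝ) (z : ℝ), z0 ≤ z →
    P2.Dim2 η P g → (∀ l ∈ P, (l : ℝ) ≤ z) → ∃ lam, P2.IsW2 (-1) P lam (z ^ 4) ∧
      (A * Real.log 3 / 4 - ε) * ∏ l ∈ P, (1 - g l) ≤ Sf P lam g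

def S_Const : Prop :=
  ∀ A : ℝ, Low A → ∀ ε : ℝ, 0 < ε → ∃ z0 : ℕ, ∀ z : ℕ, z0 ≤ z → A * VV z * Real.log z ≤ 2 + ε

/-- a majorant of the primes -/
def S_Maj : Prop :=
  ∃ C0 : ℝ, 1 ≤ C0 ∧ ∀ q : ℕ, 1 ≤ q → ∃ (L : ℝ) (R0 : ℕ), ∀ R : ℕ, R0 ≤ R →
    ∃ (G1 G2 : ℕ → ℝ) (κ1 κ2 S : ℝ), P2.Pos R (R ^ q) G1 κ1 S ∧ P2.Pos R (R ^ q) G2 κ2 S ∧
      S ^ 4 ≤ R ∧ κ1 + κ2 ≤ C0 * q ∧ 1 / (C0 * q) ≤ κ1 - κ2 ∧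
      (κ1 - κ2) * VV R * (q * Real.log R) ≤ 2001 / 1095000 ∧
      (∀ m, 1 ≤ m → m ≤ (R ^ q) ^ 2001 → 0 ≤ G1 m - G2 m ∧ G1 m - G2 m ≤ L) ∧
      ∀ p : ℕ, p.Prime → (R ^ q) ^ 365 < p → p ≤ (R ^ q) ^ 2001 → 1 ≤ G1 p - G2 p

/-! ### the first moment over primes -/

/-- the character expansion with an exceptional character of either sign -/
def S_CoreS : Prop :=
  ∀ (c : ℕ) (C : ℝ), 1 ≤ c → 1 ≤ C → LS2St c C → ∀ ε η H : ℝ, 0 < ε → 0 < η → ∃ U0 : ℕ,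
    ∀ (φ : ℝ → ℝ) (α β δ : ℝ), UC.Bump φ α β δ H → 9 / 10 ≤ α → β ≤ 1 →
    ∀ (Q y M U N : ℕ) [NeZero M] (F : ℕ → ℝ) (c0 σ : ℝ) (χ0 : ℕ → ℝ), 2 ≤ Q → y = (Q ^ 2) ^ c →
    U0 ≤ U → N = y ^ U → UC.FG Q y M F c0 → UC.Gd Q y η χ0 →
    ((∀ n, χ0 n = 0) ∨ ∃ χ : RC, χ0 = χ.χ ∧ χ.r ∣ M ∧ χ.r ≤ Q ∧ (σ = 1 ∨ σ = -1) ∧
      ∀ m, F m ≠ 0 → χ0 m = σ) →
    |∑ m ∈ range N, Λ m * ri y m * UC.wt φ (Real.log N) m * F m -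
      c0 * ∑ m ∈ range N, Λ m * ri y m * UC.wt φ (Real.log N) m * (1 + σ * χ0 m)| ≤
      ε * c0 * Real.log N

/-- the weight seen from one form has small conductors -/
def S_FG : Prop :=
  ∀ (ι : Type) [Fintype ι] [DecidableEq ι] (a b : ι → ℕ) (K0 v k w s J R y e : ℕ) (ε Θ δ : ℝ)
    (sv : SieveW (GP a w) (w ^ s) (k + 3) ε) (i : ι), Nrm a b K0 v → Fintype.card ι = k → 3 ≤ k →
    2 * (k + 3) ≤ K0 → v ≤ w → 3 ≤ w → w ≤ R → w ^ s ≤ R → R ≤ y → R ^ 2 ≤ w ^ e → 3 * e ≤ w →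
    0 ≤ ε → 0 ≤ δ → Th w y ≤ Θ →
    Θ ^ (5 * k + 9) * (3 * ε + 10 * e / w + 20 * (k : ℝ) ^ 2 / w) ≤ δ * (1 / 4) ^ k →
    ∃ c0 : ℝ, UC.FG (R ^ 4) y (a i * ∏ p ∈ PP 0 y, p) (lft (a i) (b i) fun n =>
        sv.U (fun p => ev a b univ p n) * Fw a b w s J R {i}ᶜ n ^ 2) c0 ∧
      |c0 - Vk a w * JJ w s J R ({i}ᶜ : Finset ι) / (a i * VV w)| ≤
        δ * (Vk a w * JJ w s J R ({i}ᶜ : Finset ι) / (a i * VV w))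

/-- from the values of a form back to its argument -/
def S_First : Prop :=
  ∀ (φ : ℝ → ℝ) (δ H B : ℝ) (a b v N N1 N2 y : ℕ) (f g : ℕ → ℝ), UC.Bump φ (3999 / 4000) 1 δ H →
    b < a → a ≤ v → 3 ≤ N → 1 ≤ y → 1 ≤ N1 → (v * N1) ^ 4000 ≤ N ^ 3999 → N ≤ N2 →
    (∀ n, 0 ≤ f n) → (∀ n, N1 ≤ n → n < N → g n ≤ B) → 0 ≤ B →
    (∀ n, N1 ≤ n → (a * n + b).Prime → g n = f n) →
    a * ∑ m ∈ range N, Λ m * ri y m * UC.wt φ (Real.log N) m * lft a b g m ≤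
      Real.log N * ∑ n ∈ Ico N1 N2, (if (a * n + b).Prime then 1 else 0) * (1 / (n : ℝ) * f n) +
        a * B * Real.log N * ((1 + Real.log N) / y)

/-! ### the exceptional character -/

/-- the character is trivial on the numbers that are one modulo `r0` -/
def Det (χ : RC) (r0 : ℕ) : Prop := ∀ u : ℕ, u.Coprime χ.r → u ≡ 1 [MOD r0] → χ.χ u = 1

def S_Dich : Prop :=
  ∀ (χ : RC) (B : ℕ), 2 ≤ B → (∃ p u : ℕ, p.Prime ∧ B < p ∧ p ∣ χ.r ∧ u.Coprime χ.r ∧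
    u ≡ 1 [MOD χ.r / p ^ χ.r.factorization p] ∧ χ.χ u = -1) ∨ Det χ (8 * ∏ p ∈ PP 0 B, p)

def S_Shift : Prop :=
  ∀ (ι : Type) [Fintype ι] [DecidableEq ι] (a b : ι → ℕ) (T : Finset ι) (χ : RC) (D p u : ℕ)
    (θ ε : ℝ), Cel.Adm a b → 0 < D → χ.r ∣ D → p.Prime → p ∣ χ.r → u.Coprime χ.r →
    u ≡ 1 [MOD χ.r / p ^ χ.r.factorization p] → χ.χ u = -1 → (∀ x ∈ T, ¬ p ∣ a x) → |θ| ≤ 1 →
    0 < ε → ε ≤ 1 → 2 * (Fintype.card ι : ℝ) ≤ ε * p →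
    ∃ n0 < D, (∀ x, (a x * n0 + b x).Coprime D) ∧
      -(ε * T.card) ≤ ∑ x ∈ T, θ * χ.χ (a x * n0 + b x)

def S_SWr : Prop :=
  ∀ (r0 : ℕ) (H ε : ℝ), 0 < r0 → 0 < ε → ∃ N0 : ℕ, ∀ (φ : ℝ → ℝ) (α β δ : ℝ) (N y : ℕ) (χ : RC),
    UC.Bump φ α β δ H → 9 / 10 ≤ α → α ≤ β → β ≤ 1 → 0 ≤ δ → N0 ≤ N → y ^ 2 ≤ N → χ.r ≤ y →
    r0 ≤ y → Det χ r0 →
    |∑ m ∈ range N, Λ m * ri y m * UC.wt φ (Real.log N) m * χ.χ m| ≤ ε * Real.log N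

/-- normalisation with a free modulus -/
def S_Norm3 : Prop :=
  ∀ k K0 : ℕ, ∃ A : ℕ, ∀ (ι : Type) [Fintype ι] [DecidableEq ι] (a b : ι → ℕ) (H : ℕ),
    Fintype.card ι = k → 2 ≤ H → (∀ l, 0 < a l ∧ a l ≤ H ∧ b l ≤ H) → Cel.Adm a b →
    Function.Injective (fun l => (a l, b l)) → ∃ D0 : ℕ, 0 < D0 ∧ D0 ≤ H ^ A ∧
      ∀ D n0 : ℕ, D0 ∣ D → n0 < D → (∀ l, (a l * n0 + b l).Coprime D) →
        Nrm (fun l => a l * (D * D)) (fun l => a l * n0 + b l) K0 (H * (D * D))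

/-! ### cells -/

/-- almost primes in every cell and primes in more than `m` cells of `J` -/
def GoodV (m : ℕ) {M K : ℕ} (J : Finset (Fin M)) (a b : Fin M × Fin K → ℕ) (n : ℕ) : Prop :=
  P2.AllP2 a b n ∧ ∃ I ⊆ J, m < I.card ∧ ∀ i ∈ I, ∃ s, (a (i, s) * n + b (i, s)).Prime

/-- the cell theorem for normalised systems -/
def S_CellV : Prop :=
  ∀ (m M c : ℕ) (C η : ℝ), 1 ≤ c → 1 ≤ C → LS2St c C → 0 < η →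
    ∃ (K K0 e u w0 : ℕ) (θ : RC → ℕ → ℝ), 0 < K ∧ 1 ≤ e ∧ 1 ≤ u ∧ (∀ χ w, |θ χ w| ≤ 1) ∧
    (∀ r0, 0 < r0 → ∃ w1, ∀ χ w, w1 ≤ w → χ.r ≤ w → Det χ r0 → |θ χ w| ≤ 1 / 2000) ∧
    ∀ (a b : Fin M × Fin K → ℕ) (v w : ℕ) (J : Finset (Fin M)), Nrm a b K0 v → 2 * v ≤ w →
      w0 ≤ w → 183 * m < 50 * J.card →
      (UC.Gd (w ^ e) (((w ^ e) ^ 2) ^ c) η (fun _ => 0) ∨ ∃ χ : RC,
        UC.Gd (w ^ e) (((w ^ e) ^ 2) ^ c) η χ.χ ∧ (∀ x, χ.r ∣ a x) ∧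
        -(1 / 2000 * ((J ×ˢ (univ : Finset (Fin K))).card : ℝ)) ≤
          ∑ x ∈ J ×ˢ (univ : Finset (Fin K)), θ χ w * χ.χ (b x)) →
      ∃ n, w ≤ n ∧ n ≤ w ^ u ∧ GoodV m J a b n

/-- the theorem -/
def S_MainV : Prop :=
  ∀ (k m : ℕ) (J : Finset (Fin k)), ∃ C c : ℝ, 0 < C ∧ 0 < c ∧ ∀ G : ℕ, ∃ A : ℕ,
    ∀ (H K : ℕ) (F : Fin k → Finset (ℕ × ℕ)), 2 ≤ H → 1 ≤ K → (∀ i, K ≤ (F i).card) →
    (∀ i, ∀ x ∈ F i, 1 ≤ x.1 ∧ x.1 ≤ H ∧ x.2 ≤ H) →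
    (Set.ncard {t : Fin k → ℕ × ℕ | (∀ i, t i ∈ F i) ∧
      (∀ p : ℕ, p.Prime → ∃ n : ℕ, ∀ i, ¬ p ∣ (t i).1 * n + (t i).2) ∧
      (∀ p : ℕ, p.Prime → G < p → 183 * m < 50 * (J.filter fun i => ¬ p ∣ (t i).1).card) ∧
      ¬ ∃ (n : ℕ) (I : Finset (Fin k)), H ≤ n ∧ n ≤ H ^ A ∧ I ⊆ J ∧ I.card = m + 1 ∧
        Set.InjOn t I ∧ (∀ i ∈ I, ((t i).1 * n + (t i).2).Prime) ∧
        ∀ i, ((t i).1 * n + (t i).2).primeFactorsList.length ≤ 2} : ℝ) ≤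
      C * (K : ℝ) ^ (-c) * ∏ i, ((F i).card : ℝ)

end Pool.Agent.P.MP_746f10_nt.PV
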