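import Pool.Agent.P.MP_746f10_nt.PV.Defs
import Pool.Agent.P.MP_746f10_nt.UC.Win
import Pool.Agent.P.MP_746f10_nt.UC.BigA

/-! A character that is induced by a bounded modulus has a small prime sum. -/

namespace Pool.Agent.P.MP_746f10_nt.PV

open Finset
open Pool.Agent.P.MP_0ad054_nt
open scoped ArithmeticFunction.vonMangoldt
open ArithmeticFunction (vonMangoldt_nonneg)

namespace SWrP

lemma eqv {χ : RC} {r0 : ℕ} (h0 : 0 < r0) (hD : Det χ r0) {m m' : ℕ} (h1 : m.Coprime χ.r)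
    (h2 : m.Coprime r0) (h3 : m'.Coprime χ.r) (h4 : m ≡ m' [MOD r0]) : χ.χ m = χ.χ m' := by
  have hK : 0 < χ.r * r0 := Nat.mul_pos χ.r_pos h0
  obtain ⟨T, hT⟩ : ∃ T, (χ.r * r0).totient = T + 1 :=
    ⟨_, (Nat.succ_pred_eq_of_pos (Nat.totient_pos.2 hK)).symm⟩
  have e := Nat.ModEq.pow_totient (Nat.Coprime.mul_right h1 h2)
  rw [hT, pow_succ] at e
  have a1 : χ.χ (m ^ T * m) = 1 := (χ.of_modEq (e.of_mul_right r0)).trans χ.one
  have a2 : χ.χ (m ^ T * m') = 1 :=
    hD _ (Nat.Coprime.mul_left (Nat.Coprime.pow_left T h1) h3)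
      ((h4.symm.mul_left _).trans (e.of_mul_left χ.r))
  exact (χ.eq_of_mul_eq_one a1).symm.trans (χ.eq_of_mul_eq_one a2)

lemma cop_of_lt {p n : ℕ} (hp : p.Prime) (h0 : 0 < n) (h : n < p) : p.Coprime n :=
  (Nat.Prime.coprime_iff_not_dvd hp).2 fun k => by
    have := Nat.le_of_dvd h0 k
    omega

lemma induced {χ : RC} {r0 : ℕ} (h0 : 0 < r0) (hD : Det χ r0) :
    ∃ ψ : RC, ψ.r = r0 ∧ ∀ m : ℕ, m.Coprime χ.r → m.Coprime r0 → χ.χ m = ψ.χ m := by
  classical
  have hu : ∀ m : ℕ, ∃ u : ℕ, m.Coprime r0 → u.Coprime χ.r ∧ u.Coprime r0 ∧ u ≡ m [MOD r0] := by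
    intro m
    by_cases h : m.Coprime r0
    · obtain ⟨p, h1, h2, h3⟩ := Nat.forall_exists_prime_gt_and_modEq (χ.r + r0) h0.ne' h
      exact ⟨p, fun _ => ⟨cop_of_lt h2 χ.r_pos (by omega),
        cop_of_lt h2 h0 (by have := χ.r_pos; omega), h3⟩⟩
    · exact ⟨0, fun k => (h k).elim⟩
  choose u hu using hu
  have key : ∀ m : ℕ, m.Coprime χ.r → m.Coprime r0 → χ.χ m = χ.χ (u m) := fun m a b =>
    eqv h0 hD a b (hu m b).1 (hu m b).2.2.symm
  refine ⟨⟨r0, fun m => if m.Coprime r0 then χ.χ (u m) else 0, h0, ?_, ?_, ?_, ?_, ?_, ?_, ?_⟩,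
    rfl, fun m a b => ?_⟩
  · rw [if_pos (Nat.coprime_one_left _), ← key 1 (Nat.coprime_one_left _) (Nat.coprime_one_left _),
      χ.one]
  · intro m n
    by_cases a : m.Coprime r0
    · by_cases b : n.Coprime r0
      · have c := Nat.Coprime.mul_left a b
        rw [if_pos a, if_pos b, if_pos c, ← χ.mul]
        exact eqv h0 hD (hu _ c).1 (hu _ c).2.1 (Nat.Coprime.mul_left (hu m a).1 (hu n b).1)
          ((hu _ c).2.2.trans ((hu m a).2.2.mul (hu n b).2.2).symm)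
      · rw [if_neg b, mul_zero, if_neg fun k => b (Nat.Coprime.coprime_mul_left k)]
    · rw [if_neg a, zero_mul, if_neg fun k => a (Nat.Coprime.coprime_mul_right k)]
  · intro n
    by_cases a : n.Coprime r0
    · rw [if_pos a]; exact χ.val _
    · rw [if_neg a]; exact Or.inl rfl
  · intro n a
    rw [if_pos a]
    exact χ.ne _ (hu n a).1
  · intro n a
    exact if_neg a
  · intro n
    have e : (n % r0).Coprime r0 ↔ n.Coprime r0 := by
      rw [Nat.Coprime, Nat.Coprime, (Nat.mod_modEq n r0).gcd_eq]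
    by_cases a : n.Coprime r0
    · have b := e.2 a
      rw [if_pos a, if_pos b]
      exact eqv h0 hD (hu _ b).1 (hu _ b).2.1 (hu n a).1
        (((hu _ b).2.2.trans (Nat.mod_modEq n r0)).trans (hu n a).2.2.symm)
    · rw [if_neg a, if_neg fun k => a (e.1 k)]
  · obtain ⟨v, hv⟩ := χ.nontriv
    have hc : v.Coprime χ.r := by
      by_contra h; rw [χ.zero v h] at hv; norm_num at hv
    obtain ⟨p, h1, h2, h3⟩ := Nat.forall_exists_prime_gt_and_modEq (χ.r + r0) χ.r_pos.ne' hc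
    have a := cop_of_lt h2 h0 (show r0 < p by have := χ.r_pos; omega)
    refine ⟨p, ?_⟩
    rw [if_pos a, ← key p (cop_of_lt h2 χ.r_pos (by omega)) a, χ.of_modEq h3, hv]
  · show χ.χ m = if m.Coprime r0 then χ.χ (u m) else 0
    rw [if_pos b, key m a b]

lemma sw (h1 : An.S_BV) {r0 : ℕ} (h0 : 0 < r0) : ∃ C : ℝ, 0 < C ∧ ∀ (ψ : RC) (t : ℕ), ψ.r = r0 →
    2 ≤ t → r0 ^ 4 ≤ t → |∑ m ∈ Icc 1 t, Λ m * ψ.χ m| ≤ C * t / Real.log t := by
  obtain ⟨C, hC, h⟩ := h1 ((4 : ℕ) : ℝ)⁻¹ 1 (by norm_num)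
  have hr : (0 : ℝ) < r0 := by exact_mod_cast h0
  refine ⟨r0 * C, by positivity, fun ψ t hψ h2 h4 => ?_⟩
  have hK : (r0 : ℝ) ≤ (t : ℝ) ^ ((4 : ℕ) : ℝ)⁻¹ := by
    rw [← Real.pow_rpow_inv_natCast hr.le (n := 4) (by norm_num)]
    exact Real.rpow_le_rpow (by positivity) (by exact_mod_cast h4) (by positivity)
  have hL : 0 ≤ C * t / Real.log t := div_nonneg (by positivity) (Real.log_natCast_nonneg t)
  let S : ℕ → ℝ := fun c => ∑ m ∈ (Icc 1 t).filter (fun m => m % r0 = c), Λ m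
  have e1 : ∑ m ∈ Icc 1 t, Λ m * ψ.χ m = ∑ c ∈ range r0, ψ.χ c * (S c - t / r0.totient) := by
    have e2 : ∑ c ∈ range r0, ψ.χ c = 0 := hψ ▸ ψ.sum_period
    simp only [mul_sub, sum_sub_distrib]
    rw [← sum_mul, e2, zero_mul, sub_zero,
      ← sum_fiberwise_of_maps_to (g := fun m => m % r0) (t := range r0)
        fun m _ => mem_range.2 (Nat.mod_lt _ h0)]
    refine sum_congr rfl fun c _ => ?_
    rw [mul_sum]
    refine sum_congr rfl fun m hm => ?_
    rw [← (mem_filter.1 hm).2, ← hψ, ψ.per, mul_comm]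
  have e3 : ∀ c ∈ range r0, |ψ.χ c * (S c - t / r0.totient)| ≤ C * t / Real.log t := by
    intro c hc
    by_cases a : c.Coprime r0
    · have b := h t r0 (fun k => if k = r0 then c else 1) h2 hK fun k _ => by
        by_cases e : k = r0
        · rw [if_pos e, e]; exact Nat.isCoprime_iff_coprime.2 a
        · rw [if_neg e]; exact isCoprime_one_left
      have d := (single_le_sum (f := fun k : ℕ => |∑ n ∈ (Icc 1 t).filter
          (fun n : ℕ => (k : ℤ) ∣ n - if k = r0 then (c : ℤ) else 1), Λ n - (t : ℝ) / k.totient|)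
        (fun _ _ => abs_nonneg _) (mem_Icc.2 ⟨h0, le_rfl⟩)).trans b
      have e : (Icc 1 t).filter (fun n : ℕ => (r0 : ℤ) ∣ n - if r0 = r0 then (c : ℤ) else 1) =
          (Icc 1 t).filter (fun m => m % r0 = c) := by
        refine filter_congr fun n _ => ?_
        rw [if_pos rfl, ← Nat.modEq_iff_dvd, Nat.ModEq, Nat.mod_eq_of_lt (mem_range.1 hc), eq_comm]
      beta_reduce at d
      rw [e, pow_one] at d
      rw [abs_mul]
      exact (mul_le_of_le_one_left (abs_nonneg _) (ψ.abs_le c)).trans d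
    · rw [ψ.zero c (hψ ▸ a), zero_mul, abs_zero]
      exact hL
  rw [e1]
  refine (abs_sum_le_sum_abs _ _).trans ((sum_le_card_nsmul _ _ _ e3).trans (le_of_eq ?_))
  rw [card_range, nsmul_eq_mul]
  ring

lemma rough_cop {y m n : ℕ} (h : rough y m) (h0 : 0 < n) (hn : n ≤ y) : m.Coprime n := by
  by_contra k
  obtain ⟨p, hp, h1, h2⟩ := Nat.Prime.not_coprime_iff_dvd.1 k
  have := h p hp h1
  have := Nat.le_of_dvd h0 h2
  omega

end SWrP

open SWrP UC.WinP in
theorem pSWr (h1 : An.S_BV) (h2 : UC.S_Win) : S_SWr := by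
  intro r0 H ε h0 hε
  obtain ⟨C, hC, hsw⟩ := sw h1 h0
  have t1 : Filter.Tendsto (fun N : ℕ => (N : ℝ) ^ (1 / 10 : ℝ)) Filter.atTop Filter.atTop :=
    (tendsto_rpow_atTop (by norm_num)).comp tendsto_natCast_atTop_atTop
  have t2 : Filter.Tendsto (fun N : ℕ => Real.log N) Filter.atTop Filter.atTop :=
    Real.tendsto_log_atTop.comp tendsto_natCast_atTop_atTop
  obtain ⟨N0, hN0⟩ := Filter.eventually_atTop.1 ((t1.eventually_ge_atTop 2).and
    ((t1.eventually_ge_atTop (2 / ε)).and ((t1.eventually_ge_atTop ((r0 : ℝ) ^ 4)).and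
      ((t2.eventually_ge_atTop (8 * (H + 1) * C / ε)).and (Filter.eventually_ge_atTop 3)))))
  refine ⟨N0, fun φ α β δ N y χ hφ hα hαβ hβ hδ hN hy hr hr0 hD => ?_⟩
  obtain ⟨s1, s2, s3, s4, hN3⟩ := hN0 N hN
  obtain ⟨ψ, hψ, hχ⟩ := induced h0 hD
  have hstep := (h2 φ α β δ H N y hφ hα hαβ hβ hδ hN3 (h0.trans_le hr0)).1
  have hL := one_lt_log hN3
  have hH := hφ.one_le
  have hN1 : (1 : ℝ) ≤ N := by exact_mod_cast (by omega : 1 ≤ N)
  set s : ℝ := (N : ℝ) ^ (1 / 10 : ℝ) with hs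
  have hs9 : s ^ 9 ≤ (N : ℝ) ^ α := by
    rw [hs, ← Real.rpow_natCast, ← Real.rpow_mul (by linarith)]
    exact Real.rpow_le_rpow_of_exponent_le hN1 (by push_cast; linarith)
  have hs10 : (s ^ 5) ^ 2 = N := by
    rw [← pow_mul, hs, ← Real.rpow_natCast, ← Real.rpow_mul (by linarith)]
    norm_num
  have hs0 : 0 < s := by linarith
  have hs4 : s ≤ s ^ 4 := le_self_pow₀ (by linarith) (by norm_num)
  have hs5 : s ≤ s ^ 5 := le_self_pow₀ (by linarith) (by norm_num)
  have hy5 : (y : ℝ) ≤ s ^ 5 :=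
    (pow_le_pow_iff_left₀ (by positivity) (by positivity) two_ne_zero).1
      (by rw [hs10]; exact_mod_cast hy)
  have hlog : Real.log N = 2 * Real.log (s ^ 5) := by
    rw [← hs10, Real.log_pow]; norm_num
  set w := UC.wt φ (Real.log N) with hw
  have hw0 := wt_bd hφ (Real.log N)
  have hsup : ∀ m : ℕ, w m ≠ 0 → s ^ 9 < m := fun m hm => hs9.trans_lt (wt_supp hφ hN3 hm).1
  have e1 : ∑ m ∈ range N, Λ m * ri y m * w m * χ.χ m =
      ∑ m ∈ range N, w m * (Λ m * ψ.χ m) - ∑ m ∈ range N, Λ m * (1 - ri y m) * w m * ψ.χ m := by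
    rw [← sum_sub_distrib]
    refine sum_congr rfl fun m _ => ?_
    unfold ri
    split_ifs with h
    · rw [hχ m (rough_cop h χ.r_pos hr) (rough_cop h h0 hr0)]; ring
    · ring
  have b1 : |∑ m ∈ range N, Λ m * (1 - ri y m) * w m * ψ.χ m| ≤ ε / 2 * Real.log N := by
    have c1 : ∀ m ∈ range N, |Λ m * (1 - ri y m) * w m * ψ.χ m| ≤
        Λ m * (1 - ri y m) * (1 / s ^ 9) := by
      intro m _
      have p1 : 0 ≤ Λ m * (1 - ri y m) :=
        mul_nonneg vonMangoldt_nonneg (sub_nonneg.2 (ri_bd y m).2)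
      rw [abs_mul, abs_of_nonneg (mul_nonneg p1 (hw0 m).1)]
      refine (mul_le_of_le_one_right (mul_nonneg p1 (hw0 m).1) (ψ.abs_le m)).trans
        (mul_le_mul_of_nonneg_left ?_ p1)
      by_cases k : w m = 0
      · rw [← hw, k]; positivity
      · exact (hw0 m).2.trans (one_div_le_one_div_of_le (by positivity) (hsup m k).le)
    refine (abs_sum_le_sum_abs _ _).trans ((sum_le_sum c1).trans ?_)
    rw [← sum_mul]
    refine (mul_le_mul_of_nonneg_right (loss (by omega) y) (by positivity)).trans ?_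
    have c2 : (y : ℝ) * (1 / s ^ 9) ≤ ε / 2 := by
      rw [mul_one_div, div_le_iff₀ (by positivity)]
      rw [div_le_iff₀ hε] at s2
      have : s ^ 5 * 2 ≤ s ^ 5 * (s ^ 4 * ε) :=
        mul_le_mul_of_nonneg_left (s2.trans (by gcongr)) (by positivity)
      nlinarith
    nlinarith
  have b2 : |∑ m ∈ range N, w m * (Λ m * ψ.χ m)| ≤ ε / 2 * Real.log N := by
    have z0 : w 0 = 0 := by simp [hw, UC.wt]
    have zN : w N = 0 := by
      by_contra k
      exact lt_irrefl _ (wt_lt hφ hN3 hβ k)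
    rw [UC.BigP.abel _ z0 zN]
    have c1 : ∀ t ∈ range N, |(w t - w (t + 1)) * ∑ m ∈ Icc 1 t, Λ m * ψ.χ m| ≤
        2 * (H + 1) * C / Real.log N * (t : ℝ)⁻¹ := by
      intro t _
      by_cases k : w t - w (t + 1) = 0
      · rw [k, zero_mul, abs_zero]; positivity
      have d1 : s ^ 9 < t + 1 := by
        by_cases k1 : w t = 0
        · have := hsup (t + 1) fun k2 => k (by rw [k1, k2, sub_self])
          exact_mod_cast this
        · linarith [hsup t k1]
      have d2 : s ^ 5 ≤ t := by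
        have : s ^ 5 * 2 ≤ s ^ 5 * s ^ 4 := mul_le_mul_of_nonneg_left (by linarith) (by positivity)
        nlinarith
      have d3 : 2 ≤ t := by exact_mod_cast (by linarith : (2 : ℝ) ≤ t)
      have d4 : r0 ^ 4 ≤ t := by exact_mod_cast (by linarith : (r0 : ℝ) ^ 4 ≤ t)
      have d5 : Real.log N / 2 ≤ Real.log t := by
        linarith [Real.log_le_log (by positivity) d2]
      have d6 : (0 : ℝ) < t := by linarith
      rw [abs_mul, abs_sub_comm]
      calc _ ≤ (H + 1) / (t : ℝ) ^ 2 * (C * t / (Real.log N / 2)) :=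
            mul_le_mul (hstep t (by omega)) ((hsw ψ t hψ d3 d4).trans
              (div_le_div_of_nonneg_left (by positivity) (by linarith) d5)) (abs_nonneg _)
              (by positivity)
        _ = _ := by field_simp
    refine (abs_sum_le_sum_abs _ _).trans ((sum_le_sum c1).trans ?_)
    rw [← mul_sum]
    have c2 : ∑ t ∈ range N, (t : ℝ)⁻¹ ≤ 2 * Real.log N := by
      have c3 : ∑ t ∈ range N, (t : ℝ)⁻¹ ≤ ∑ t ∈ Ioc 0 N, (t : ℝ)⁻¹ :=
        sum_le_of (fun _ _ => by positivity) fun t ht k => Or.inr ⟨mem_Ioc.2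
          ⟨Nat.pos_of_ne_zero fun e => k (by simp [e]), (mem_range.1 ht).le⟩, le_rfl⟩
      linarith [sum_inv_le_log N]
    refine (mul_le_mul_of_nonneg_left c2 (by positivity)).trans ?_
    rw [div_le_iff₀ hε] at s4
    rw [show 2 * (H + 1) * C / Real.log N * (2 * Real.log N) = 4 * (H + 1) * C by field_simp; ring]
    linarith
  rw [e1]
  linarith [abs_sub (∑ m ∈ range N, w m * (Λ m * ψ.χ m))
    (∑ m ∈ range N, Λ m * (1 - ri y m) * w m * ψ.χ m)]

end Pool.Agent.P.MP_746f10_nt.PV
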