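import Pool.Agent.P.MP_746f10_nt.PV.Var
import Pool.Agent.P.MP_746f10_nt.PV.Abs

/-! The upper bound for the number of primes when few cells contain a prime. -/

set_option linter.unusedSectionVars false

namespace Pool.Agent.P.MP_746f10_nt.PV

open Finset P2

open Classical in
theorem upV (hH : S_HC1) (hJ : Cel.S_JJ) {m M K : ℕ} {a b : Fin M × Fin K → ℕ}
    {K0 v k w s M1 X N1 D2 e e' Lvl q0 J Jn : ℕ} {ε ε2 Θ η Em κ1 κ2 κ3 κ4 S T L δ l : ℝ}
    {G1 G2 G3 G4 : ℕ → ℝ} (I : Finset (Fin M)) (hM : 1 ≤ M)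
    (h : SdV a b K0 v k w s (w ^ (s * M1)) X N1 D2 e e' Lvl ε Θ η Em)
    (sv : SieveW (GP a w) (w ^ s) (k + 3) ε) (s2 : SieveW (PP w (w ^ (s * M1))) D2 2 ε2)
    (hN2 : N1 * 2 ^ Jn ≤ 2 * X ^ 2000) (hN3 : X ^ 365 < N1) (hN4 : N1 ≤ X ^ 2000)
    (hG1 : Pos (w ^ (s * M1)) X G1 κ1 S) (hG2 : Pos (w ^ (s * M1)) X G2 κ2 S)
    (hG3 : Pos (w ^ (s * M1)) X G3 κ3 S) (hG4 : Pos (w ^ (s * M1)) X G4 κ4 S)
    (hS : S * (X : ℝ) ^ 1096 ≤ Em)
    (hP : ∀ (G G' : ℕ → ℝ) (κ κ' : ℝ), Pos (w ^ (s * M1)) X G κ S → Pos (w ^ (s * M1)) X G' κ' S →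
      ∃ κ'' : ℝ, 0 ≤ κ'' ∧ κ'' ≤ κ * κ' ∧ κ * κ' - κ'' ≤ δ ∧
      ∀ a1 b1 a2 b2 q c N : ℕ, Sep (w ^ (s * M1)) a1 b1 a2 b2 → b1 < a1 → b2 < a2 → 0 < q →
        a1 * q ≤ X → a2 * q ≤ X → (∀ p : ℕ, p.Prime → p ∣ q → p ≤ w ^ (s * M1)) → q ≤ N →
        N ≤ X ^ 2000 → |∑ n ∈ Ico N (2 * N), G (a1 * n + b1) * G' (a2 * n + b2) *
          (if n ≡ c [MOD q] then 1 else 0) - (N : ℝ) * κ'' / q| ≤ Em)
    (hT1 : 1 ≤ T) (hT2 : κ1 + κ2 ≤ T) (hT3 : 1 / T ≤ κ1 - κ2) (hT4 : κ3 + κ4 ≤ T)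
    (hT5 : 1 / T ≤ κ3 - κ4) (hL : ∀ n, 1 ≤ n → n ≤ X ^ 2001 → |G1 n - G2 n| ≤ L)
    (hsign : ∀ n, 1 ≤ n → n ≤ X ^ 2001 → rough (w ^ (s * M1)) n →
      (∀ p : ℕ, p.Prime → X ^ 274 < p → p ≤ X ^ 986 → ¬ p ^ 2 ∣ n) →
      G2 n < G1 n → n.primeFactorsList.length ≤ 2)
    (hL' : ∀ n, 1 ≤ n → n ≤ X ^ 2001 → 0 ≤ G3 n - G4 n ∧ G3 n - G4 n ≤ L)
    (hmaj : ∀ p : ℕ, p.Prime → X ^ 365 < p → p ≤ X ^ 2001 → 1 ≤ G3 p - G4 p)
    (hκ : (κ3 - κ4) * VV (w ^ (s * M1)) * l ≤ 2001 / 1095000)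
    (hq : 10 ≤ q0) (hs : 1 ≤ s) (hM1 : 4 * 2 ^ J ≤ M1) (hM2 : 4 * q0 * k * (J + 1) * CM ≤ M1)
    (hε2 : 0 ≤ ε2) (c1 : ε2 * T ^ 4 ≤ 1 / q0) (c2 : 5 * η * T ^ 4 * Θ ^ 2 ≤ 1 / q0 * (1 / 4) ^ k)
    (c3 : 2 * δ * T ^ 2 ≤ 1 / q0) (c4 : 3 * L ^ 2 * T ^ 2 * (8 * CM ^ 2 * M1) ≤ 1 / q0 * K * (J + 1) ^ 2)
    (hK : 0 < K) (hl : Jn * Real.log 2 + 2 ≤ l * (1 / 2 + 1 / q0))
    (hno : ∀ n ∈ Ico N1 (N1 * 2 ^ Jn), ¬ GoodV m I a b n) :
    2000 * l * ∑ x ∈ I ×ˢ (univ : Finset (Fin K)), ∑ n ∈ Ico N1 (N1 * 2 ^ Jn),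
      (if (a x * n + b x).Prime then 1 else 0) * (1 / (n : ℝ) *
        WT a b w s J (w ^ (s * M1)) (fun n => sv.U fun p => ev a b univ p n) n) ≤
      K * (Vk a w * (a1 w s J (w ^ (s * M1)) ^ 2 * a2 w s J (w ^ (s * M1)) ^ (k - 1)) / VV w) * l *
        (2000 * (2001 / 1095000) * ((m + 1 / 40000) * ((1 / 2 + 1 / q0) * (1 + 2 * (1 / q0))) +
          M * (2 * ((12 * M + 5) * (1 / q0))) + M * (10000 * M) * (2 * (12 * (1 / q0))))) := by
  have hw := h.hw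
  have hq0 : (10 : ℝ) ≤ q0 := by exact_mod_cast hq
  have hM0 : 1 ≤ M1 := le_trans (Nat.one_le_iff_ne_zero.2 (by positivity)) hM1
  have hM' : (1 : ℝ) ≤ M := by exact_mod_cast hM
  have hU : ∀ n, rg a b w n ≤ sv.U (fun p => ev a b univ p n) := fun n =>
    sv.le_up _ fun p _ => ⟨ev_nonneg _ _ _, ev_le_one _ _ _⟩
  have hN0 : 1 ≤ N1 := by omega
  have blk : ∀ i < Jn, N1 ≤ N1 * 2 ^ i ∧ N1 * 2 ^ i ≤ X ^ 2000 := fun i hi => by
    refine ⟨Nat.le_mul_of_pos_right _ (by positivity), ?_⟩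
    have : N1 * 2 ^ (i + 1) ≤ N1 * 2 ^ Jn :=
      Nat.mul_le_mul_left _ (Nat.pow_le_pow_right two_pos hi)
    rw [pow_succ, ← mul_assoc] at this
    generalize X ^ 2000 = y at *
    omega
  have V1 := fun N (h1 : N1 ≤ N) h2 => varV hH hJ h sv s2 (fun n => ⟨le_rfl, hU n⟩) h1 h2 hG1 hG2 hS hP
    hT1 hT2 hT3 hL hq hs hM1 hM2 hε2 c1 c2 c3 c4 hK
  have V2 := fun N (h1 : N1 ≤ N) h2 => varV hH hJ h sv s2 (fun n => ⟨hU n, le_rfl⟩) h1 h2 hG3 hG4 hS hP
    hT1 hT4 hT5 (fun n a1 a2 => by rw [abs_of_nonneg (hL' n a1 a2).1]; exact (hL' n a1 a2).2)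
    hq hs hM1 hM2 hε2 c1 c2 c3 c4 hK
  have E := h.evL sv s2 J (fun n => ⟨hU n, le_rfl⟩)
    (Nat.le_mul_of_pos_right N1 (by positivity : 0 < 2 ^ Jn))
  have Sq := fun N (h1 : N1 ≤ N) h2 => h.sq_le hH J h1 h2
  set R := w ^ (s * M1) with hR
  set t : ℝ := 1 / q0 with ht
  have t0 : 0 < t := by positivity
  have t2 : t ≤ 1 / 10 := by rw [ht]; gcongr
  have hR1 : 1 ≤ R := Nat.one_le_pow _ _ (by omega)
  have A2 := a2_pos (w := w) (by omega) hs J
    (show w ^ s ≤ R from Nat.pow_le_pow_right (by omega) (Nat.le_mul_of_pos_right _ hM0))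
  have hVV := VV_pos w
  have hVk := h.toSd.Vpos
  have hΘ1 : 1 ≤ Θ := (one_le_Th w R).trans h.hΘ
  have j0 : JJ w s J R (univ : Finset (Fin M × Fin K)) ≤ a2 w s J R ^ k := by
    refine (JJ_le _ _ _ _ _).trans (le_of_eq ?_)
    rw [compl_univ, card_empty, card_univ, h.hk]; ring
  have j4 : (1 / 4 : ℝ) ^ k ≤ JJ w s J R (univ : Finset (Fin M × Fin K)) := by
    have := JJ_ge_four (κ := Fin M × Fin K) (w := w) (by omega) s J hR1 univ
    rwa [h.hk] at this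
  have hη := h.hη
  have f3 : ε2 ≤ t := (le_mul_of_one_le_right hε2 (one_le_pow₀ hT1)).trans c1
  have f7 : η ≤ t * a2 w s J R ^ k := by
    calc _ ≤ 5 * η * (T ^ 4 * Θ ^ 2) := by
          have := le_mul_of_one_le_right hη
            (one_le_mul_of_one_le_of_one_le (one_le_pow₀ (n := 4) hT1) (one_le_pow₀ (n := 2) hΘ1))
          nlinarith
      _ ≤ t * (1 / 4) ^ k := by rw [← mul_assoc]; exact c2
      _ ≤ _ := mul_le_mul_of_nonneg_left (j4.trans j0) t0.le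
  have ek : a2 w s J R ^ k = a2 w s J R ^ (k - 1) * a2 w s J R := by
    rw [← pow_succ]; congr 1; have := h.hk3; omega
  set U : ℕ → ℝ := fun n => sv.U fun p => ev a b univ p n with hUd
  have W0 : ∀ n, 0 ≤ WT a b w s J R U n := fun n =>
    mul_nonneg ((rg_nonneg _ _ _ _).trans (hU n)) (sq_nonneg _)
  set x := Vk a w * a2 w s J R ^ k with hx
  have x0 : 0 < x := by positivity
  have l2 := Real.log_two_gt_d9
  have hJn : (Jn : ℝ) ≤ 2 * l := by
    have : (0 : ℝ) ≤ Jn := Nat.cast_nonneg _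
    have l0 : 0 ≤ l := by
      by_contra h0
      nlinarith
    nlinarith
  have l0 : 0 ≤ l := by linarith [(Nat.cast_nonneg Jn : (0 : ℝ) ≤ Jn)]
  have κ0 : 0 < κ3 - κ4 := lt_of_lt_of_le (by positivity) hT5
  have hc : 0 < cc K (κ3 - κ4) w s J R := (V2 N1 le_rfl hN4).2.1
  have hRX : R ≤ X ^ 365 := h.hRX.trans (Nat.le_self_pow (by norm_num) X)
  have key := cnt (m := m) I (Ω := Ico N1 (N1 * 2 ^ Jn))
    (W := fun n => 1 / (n : ℝ) * WT a b w s J R U n) (P := fun x n => (a x * n + b x).Prime)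
    (Y := Yc a b w R G3 G4) (c := cc K (κ3 - κ4) w s J R) (L := 10000 * M)
    (tot := l * x * ((1 / 2 + t) * (1 + 2 * t))) (bad := l * x * (2 * ((12 * M + 5) * t)))
    (var := l * x * (2 * (12 * t))) (AllP2 a b)
    (fun n => mul_nonneg (by positivity) (W0 n)) hc (by positivity)
    (fun y n hn => by
      have b0 := mem_Ico.1 hn
      have b1 := h.valV b0.1 (b0.2.trans_le hN2) y
      unfold Yc
      split_ifs with hp
      · have b2 : X ^ 365 < a y * n + b y :=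
          lt_of_lt_of_le (hN3.trans_le b0.1) (le_add_right (Nat.le_mul_of_pos_left _ (h.hN.pos y)))
        have b3 : rho a b w R {y} n = 1 := prod_eq_one fun p hp' => by
          rw [ev_eq_zero.2 fun z hz hd => ?_, sub_zero]
          rw [mem_singleton.1 hz] at hd
          have := (Nat.prime_dvd_prime_iff_eq (PP_prime hp') hp).1 hd
          have := (mem_PP.1 hp').2.1
          omega
        rw [b3, one_mul]; exact hmaj _ hp b2 b1.2
      · refine mul_nonneg ?_ (hL' _ b1.1 b1.2).1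
        rcases rho_01 a b w R {y} n with h0 | h0 <;> simp [h0])
    (fun n hn hg I' h3 h4 => by
      by_contra h5
      exact hno n hn ⟨hg, I', h3, not_le.1 h5, h4⟩)
    (by
      have b1 := harm2 hN0 Jn
      have b2 : Vk a w * ((1 + ε2) * JJ w s J R (univ : Finset (Fin M × Fin K)) + η) ≤
          x * (1 + 2 * t) := by
        have : (1 + ε2) * JJ w s J R (univ : Finset (Fin M × Fin K)) ≤ (1 + t) * a2 w s J R ^ k := by
          have := le_trans (by positivity) j4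
          gcongr
        rw [hx, mul_assoc]
        exact mul_le_mul_of_nonneg_left (by linarith) hVk.le
      have b3 : η * Vk a w ≤ x * (1 + 2 * t) := by
        calc _ ≤ t * a2 w s J R ^ k * Vk a w := by gcongr
          _ = x * t := by rw [hx]; ring
          _ ≤ _ := by gcongr; linarith
      have b4 : (∑ n ∈ Ico N1 (N1 * 2 ^ Jn), 1 / (n : ℝ)) *
          (Vk a w * ((1 + ε2) * JJ w s J R (univ : Finset (Fin M × Fin K)) + η)) ≤
          (1 + Jn * Real.log 2) * (x * (1 + 2 * t)) := by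
        have := le_trans (by positivity) j4
        gcongr
      have b5 := mul_le_mul_of_nonneg_right hl (show 0 ≤ x * (1 + 2 * t) by positivity)
      linarith)
    (by
      have b1 := dy hN0 (f := fun n => if AllP2 a b n then 0 else WT a b w s J R U n)
        (fun n => by split_ifs; exacts [le_rfl, W0 n]) (B := (12 * M + 5) * t * x) Jn fun i hi => by
          obtain ⟨d1, d2⟩ := blk i hi
          generalize N1 * 2 ^ i = N at d1 d2
          obtain ⟨v1, v2, v3⟩ := V1 N d1 d2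
          have v4 := (V2 N d1 d2).2.2
          have v5 := h.xposV d1
          have v6 := (Sq N d1 d2).trans (show _ ≤ t * ((N : ℝ) * Vk a w * a2 w s J R ^ k) by
            calc _ ≤ t * a2 w s J R ^ k * ((N : ℝ) * Vk a w) := by gcongr
              _ = _ := by ring)
          refine (bad_abs (Wr := WT a b w s J R (rg a b w)) (Wu := WT a b w s J R U)
            (Y := Yc a b w R G1 G2)
            (x := t * ((N : ℝ) * Vk a w * a2 w s J R ^ k)) (AllP2 a b)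
            (fun n => mul_nonneg (rg_nonneg _ _ _ _) (sq_nonneg _))
            (fun n => mul_le_mul_of_nonneg_right (hU n) (sq_nonneg _)) v2
            (fun i => (v1 i).trans (le_of_eq (by ring)))
            (by have := (abs_le.1 v3).1; have := (abs_le.1 v4).2; linarith)
            v6
            (fun n hn h3 h2 h1 => ?_)).trans (le_of_eq (by rw [hx]; ring))
          have h3' : rg a b w n ≠ 0 := left_ne_zero_of_mul h3
          obtain ⟨i, hi⟩ := not_forall.1 h1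
          refine ⟨i, fun s' => ?_⟩
          unfold Yc
          rcases rho_01 a b w R {(i, s')} n with h0 | h0
          · rw [h0, zero_mul]
          rw [h0, one_mul, sub_nonpos]
          by_contra h4
          refine hi ⟨s', hsign _ (h.valB d1 d2 hn _).1 (h.valB d1 d2 hn _).2 (fun p hp hd => ?_)
            (fun p hp h5 h6 h7 => h2 ⟨_, p, hp, h5, h6, h7⟩) (not_le.1 h4)⟩
          by_contra h5
          exact ev_eq_zero.1 (rho_spec (by rw [h0]; norm_num) p (mem_PP.2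
            ⟨h.hN.rough_of_rg h3' _ p hp hd, not_lt.1 h5, hp⟩)) _ (mem_singleton_self _) hd
      have b2 : (Jn : ℝ) * ((12 * M + 5) * t * x) ≤ 2 * l * ((12 * M + 5) * t * x) := by gcongr
      refine le_trans (le_of_eq (sum_congr rfl fun n _ => ?_)) (b1.trans (b2.trans_eq (by ring)))
      split_ifs <;> simp)
    (fun i => by
      have b1 := dy hN0 (f := fun n => (∑ s', Yc a b w R G3 G4 (i, s') n -
          cc K (κ3 - κ4) w s J R) ^ 2 * WT a b w s J R U n)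
        (fun n => mul_nonneg (sq_nonneg _) (W0 n)) (B := 12 * t * cc K (κ3 - κ4) w s J R ^ 2 * x) Jn
        fun j hj => ((V2 _ (blk j hj).1 (blk j hj).2).1 i).trans (le_of_eq (by rw [hx]; ring))
      have b2 : (Jn : ℝ) * (12 * t * cc K (κ3 - κ4) w s J R ^ 2 * x) ≤
          2 * l * (12 * t * cc K (κ3 - κ4) w s J R ^ 2 * x) := by gcongr
      refine le_trans (le_of_eq (sum_congr rfl fun n _ => ?_)) (b1.trans (b2.trans_eq (by ring)))
      ring)
    (by positivity)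
  have e1 : (M : ℝ) / (4 * (10000 * M)) = 1 / 40000 := by field_simp; norm_num
  rw [e1] at key
  have e2 : cc K (κ3 - κ4) w s J R * l * x = (κ3 - κ4) * VV R * l *
      (K * (Vk a w * (a1 w s J R ^ 2 * a2 w s J R ^ (k - 1)) / VV w)) := by
    rw [cc, Vj_one, hx, ek, ← VV_mul_Th h.hwR]
    have := one_le_Th w R
    have := VV_pos R
    field_simp
  set Z := K * (Vk a w * (a1 w s J R ^ 2 * a2 w s J R ^ (k - 1)) / VV w)
  have Z0 : 0 ≤ Z := by positivity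
  set Br := (m + 1 / 40000) * ((1 / 2 + t) * (1 + 2 * t)) + M * (2 * ((12 * M + 5) * t)) +
    M * (10000 * M) * (2 * (12 * t)) with hBr
  have B0 : 0 ≤ Br := by positivity
  have e3 := mul_le_mul_of_nonneg_left key (show 0 ≤ 2000 * l by positivity)
  have e4 := mul_le_mul_of_nonneg_right hκ (show 0 ≤ 2000 * Z * l * Br by positivity)
  refine e3.trans (le_trans (le_of_eq ?_) (e4.trans_eq (by ring)))
  calc _ = 2000 * l * Br * (cc K (κ3 - κ4) w s J R * l * x) := by rw [hBr]; ring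
    _ = _ := by rw [e2]; ring

end Pool.Agent.P.MP_746f10_nt.PV
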